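import Pool.Agent.H86.RT.LDefs

/-!
# A matrix with small kernel modulo a prime has a non-zero cofactor
-/

set_option autoImplicit false

namespace Pool.Agent.H86.RU

open Pool.Agent.H86.RB Pool.Agent.H86.RT

theorem adj_ne {m : ℕ} (M : Matrix (Fin m) (Fin m) ℤ) (l : ℕ) [Fact l.Prime] [NeZero l]
    (hk : (Kf l M).card ≤ l) (hd : (l : ℤ) ∣ M.det) : ∃ i j, ¬ (l : ℤ) ∣ M.adjugate i j := by
  classical
  set M' := M.map (Int.castRingHom (ZMod l)) with hM'
  have hcast : ∀ i j, M' i j = ((M i j : ℤ) : ZMod l) := fun i j => rfl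
  have hdet : M'.det = 0 := by
    have h1 : M'.det = ((M.det : ℤ) : ZMod l) := by
      rw [hM', ← RingHom.mapMatrix_apply, ← RingHom.map_det]
      rfl
    rw [h1, ZMod.intCast_zmod_eq_zero_iff_dvd]
    exact hd
  obtain ⟨v, hv, hv0⟩ := Matrix.exists_mulVec_eq_zero_iff.2 hdet
  have hdt : M'.transpose.det = 0 := by rw [Matrix.det_transpose, hdet]
  obtain ⟨w, hw, hw0⟩ := Matrix.exists_mulVec_eq_zero_iff.2 hdt
  obtain ⟨j0, hj0⟩ := Function.ne_iff.1 hv
  obtain ⟨i0, hi0⟩ := Function.ne_iff.1 hw
  rw [Pi.zero_apply] at hj0 hi0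
  have hmem : ∀ y : Fin m → ZMod l, M'.mulVec y = 0 → y ∈ Kf l M := by
    intro y hy
    rw [Kf, Finset.mem_filter]
    exact ⟨Finset.mem_univ _, fun i => congrFun hy i⟩
  -- the kernel is spanned by `v`
  have hspan : ∀ y : Fin m → ZMod l, M'.mulVec y = 0 → ∃ c : ZMod l, y = c • v := by
    intro y hy
    set L : Finset (Fin m → ZMod l) := Finset.univ.image (fun c : ZMod l => c • v) with hL
    have h1 : L ⊆ Kf l M := by
      intro z hz
      obtain ⟨c, _, rfl⟩ := Finset.mem_image.1 hz
      exact hmem _ (by rw [Matrix.mulVec_smul, hv0, smul_zero])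
    have h2 : L.card = l := by
      rw [hL, Finset.card_image_of_injective, Finset.card_univ, ZMod.card]
      intro c c' hcc
      have h3 := congrFun hcc j0
      simp only [Pi.smul_apply, smul_eq_mul] at h3
      exact mul_right_cancel₀ hj0 h3
    have h4 : L = Kf l M := Finset.eq_of_subset_of_card_le h1 (by rw [h2]; exact hk)
    have h5 := hmem y hy
    rw [← h4] at h5
    obtain ⟨c, _, hc⟩ := Finset.mem_image.1 h5
    exact ⟨c, hc.symm⟩
  have hN : (M'.updateRow i0 (M' i0 + Pi.single j0 1)).det ≠ 0 := by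
    intro h0
    obtain ⟨y, hy, hy0⟩ := Matrix.exists_mulVec_eq_zero_iff.2 h0
    apply hy
    have e1 : ∀ i, (M'.mulVec y) i + (if i = i0 then y j0 else 0) = 0 := by
      intro i
      have h1 := congrFun hy0 i
      rw [Matrix.mulVec, Pi.zero_apply] at h1
      by_cases hi : i = i0
      · subst hi
        rw [Matrix.updateRow_self, add_dotProduct, single_dotProduct, one_mul] at h1
        rw [if_pos rfl]
        exact h1
      · rw [Matrix.updateRow_ne hi] at h1
        rw [if_neg hi, add_zero]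
        exact h1
    have e2 : y j0 = 0 := by
      have h1 : ∑ i, w i * ((M'.mulVec y) i + (if i = i0 then y j0 else 0)) = 0 := by
        apply Finset.sum_eq_zero
        intro i _
        rw [e1 i, mul_zero]
      have h2 : ∑ i, w i * (M'.mulVec y) i = 0 := by
        have h3 : ∑ i, w i * (M'.mulVec y) i = w ⬝ᵥ (M'.mulVec y) := rfl
        rw [h3, Matrix.dotProduct_mulVec, ← Matrix.mulVec_transpose, hw0, zero_dotProduct]
      simp only [mul_add, Finset.sum_add_distrib, mul_ite, mul_zero, Finset.sum_ite_eq',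
        Finset.mem_univ, if_true] at h1
      rw [h2, zero_add] at h1
      exact (mul_eq_zero.1 h1).resolve_left hi0
    have e3 : M'.mulVec y = 0 := by
      funext i
      have h1 := e1 i
      rw [e2, ite_self, add_zero] at h1
      exact h1
    obtain ⟨c, rfl⟩ := hspan y e3
    have e4 : c = 0 := by
      have h1 : c * v j0 = 0 := e2
      exact (mul_eq_zero.1 h1).resolve_right hj0
    rw [e4, zero_smul]
  have e5 : (M'.updateRow i0 (M' i0 + Pi.single j0 1)).det = M'.adjugate j0 i0 := by
    rw [Matrix.det_updateRow_add, Matrix.updateRow_eq_self, hdet, zero_add, Matrix.adjugate_apply]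
  refine ⟨j0, i0, fun h => hN ?_⟩
  have e6 : M'.adjugate j0 i0 = ((M.adjugate j0 i0 : ℤ) : ZMod l) := by
    rw [hM', ← RingHom.mapMatrix_apply, ← RingHom.map_adjugate]
    rfl
  rw [e5, e6, ZMod.intCast_zmod_eq_zero_iff_dvd]
  exact h

end Pool.Agent.H86.RU
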