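import Pool.Agent.H86.RU.LPoly
import Pool.Agent.H86.RT.LU
import Pool.Agent.H86.RB.Exp

/-!
# The determinant of the pencil of a disk with two ribbon singularities
-/

set_option autoImplicit false

namespace Pool.Agent.H86.RU

open Pool.Agent.H86.RT Polynomial

private theorem det_two {K : Type} [CommRing K] {m : ℕ} (M : Matrix (Fin m) (Fin m) K) {i1 i2 : Fin m}
    (h : i1 ≠ i2) (a b c d : Fin m → K) (x : K) :
    ((M.updateRow i1 (a + x • b)).updateRow i2 (c + x • d)).det =
      ((M.updateRow i1 a).updateRow i2 c).det +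
        x * (((M.updateRow i1 b).updateRow i2 c).det + ((M.updateRow i1 a).updateRow i2 d).det) +
        x ^ 2 * ((M.updateRow i1 b).updateRow i2 d).det := by
  have h1 : ∀ y : Fin m → K, ((M.updateRow i1 (a + x • b)).updateRow i2 y).det =
      ((M.updateRow i1 a).updateRow i2 y).det + x * ((M.updateRow i1 b).updateRow i2 y).det := by
    intro y
    rw [Matrix.updateRow_comm _ h, Matrix.det_updateRow_add, Matrix.det_updateRow_smul,
      Matrix.updateRow_comm _ h.symm, Matrix.updateRow_comm _ h.symm]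
  rw [Matrix.det_updateRow_add, Matrix.det_updateRow_smul, h1, h1]
  ring

private theorem det_C {m : ℕ} (M : Matrix (Fin m) (Fin m) ℤ) :
    (Matrix.det (fun i j => (C (M i j) : ℤ[X]))) = C M.det := by
  rw [RingHom.map_det]
  rfl

private theorem q_mg (f : Bool) (v : ℕ) (r : Pool.Agent.H86.RB.Row) (h : r.isps = false) :
    cQ f v r = 0 := by
  cases r with
  | mg a b => rfl
  | ps a n b => simp [Pool.Agent.H86.RB.Row.isps] at h

private theorem p_mg (f g : Bool) (v : ℕ) (r : Pool.Agent.H86.RB.Row) (h : r.isps = false) :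
    cP f v r = cP g v r := by
  cases r with
  | mg a b => rfl
  | ps a n b => simp [Pool.Agent.H86.RB.Row.isps] at h

private theorem p_ps (f : Bool) (v : ℕ) (r : Pool.Agent.H86.RB.Row) (h : r.isps = true) :
    cP (!f) v r = cQ f v r := by
  cases r with
  | mg a b => simp [Pool.Agent.H86.RB.Row.isps] at h
  | ps a n b => cases f <;> rfl

private theorem sum_co (f : Bool) (v : ℕ) (r : Pool.Agent.H86.RB.Row) :
    cP f v r + cQ f v r = (if v = r.x then 1 else 0) - (if v = r.y then 1 else 0) := by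
  cases r with
  | mg a b =>
    unfold cP cQ Pool.Agent.H86.RB.Row.x Pool.Agent.H86.RB.Row.y
    simp only [add_zero]
  | ps a n b =>
    cases f
    · unfold cP cQ Pool.Agent.H86.RB.Row.x Pool.Agent.H86.RB.Row.y
      simp only [Bool.false_eq_true, if_false]
      split_ifs <;> omega
    · unfold cP cQ Pool.Agent.H86.RB.Row.x Pool.Agent.H86.RB.Row.y
      simp only [if_true]
      split_ifs <;> omega

theorem two_det (R : List Pool.Agent.H86.RB.Row) (F : ℕ → Bool) (m : ℕ) (hm : R.length = m)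
    (h2 : R.countP Pool.Agent.H86.RB.Row.isps = 2) :
    ∃ β : ℤ, (PX (MP R F m) (MQ R F m)).det =
      C (MP R F m).det + C β * X + C (MP R (fun i => !(F i)) m).det * X ^ 2 := by
  classical
  have hc := Pool.Agent.H86.RB.card_ps R m hm
  rw [h2] at hc
  obtain ⟨i1, i2, h12, hs⟩ := Finset.card_eq_two.1 hc
  have hps : ∀ i : Fin m, (R.getD i (.mg 0 0)).isps = true ↔ i = i1 ∨ i = i2 := by
    intro i
    have : i ∈ Finset.univ.filter (fun i : Fin m => (R.getD i (.mg 0 0)).isps = true) ↔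
        i ∈ ({i1, i2} : Finset (Fin m)) := by rw [hs]
    simpa using this
  set P := MP R F m with hP
  set Q := MQ R F m with hQ
  set P' := MP R (fun i => !(F i)) m with hP'
  have hp1 : (R.getD i1 (.mg 0 0)).isps = true := (hps i1).2 (Or.inl rfl)
  have hp2 : (R.getD i2 (.mg 0 0)).isps = true := (hps i2).2 (Or.inr rfl)
  have hQP : ∀ i : Fin m, (R.getD i (.mg 0 0)).isps = true → ∀ j, P' i j = Q i j :=
    fun i hi j => p_ps _ _ _ hi
  have hQ0 : ∀ i : Fin m, ¬ (i = i1 ∨ i = i2) → ∀ j, Q i j = 0 ∧ P' i j = P i j := by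
    intro i hi j
    have h3 : (R.getD i (.mg 0 0)).isps = false := by
      rw [← Bool.not_eq_true]
      exact fun h => hi ((hps i).1 h)
    exact ⟨q_mg _ _ _ h3, p_mg _ _ _ _ h3⟩
  set CP : Matrix (Fin m) (Fin m) ℤ[X] := fun i j => C (P i j) with hCP
  have e1 : PX P Q = (CP.updateRow i1 ((fun j => C (P i1 j)) + (X : ℤ[X]) • (fun j => C (Q i1 j)))).updateRow
      i2 ((fun j => C (P i2 j)) + (X : ℤ[X]) • (fun j => C (Q i2 j))) := by
    funext i j
    by_cases hi2 : i = i2
    · subst hi2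
      rw [Matrix.updateRow_self]
      rfl
    · rw [Matrix.updateRow_ne hi2]
      by_cases hi1 : i = i1
      · subst hi1
        rw [Matrix.updateRow_self]
        rfl
      · rw [Matrix.updateRow_ne hi1]
        have := (hQ0 i (by tauto) j).1
        simp only [PX, hCP, this, map_zero, mul_zero, add_zero]
  have e2 : (CP.updateRow i1 (fun j => C (P i1 j))).updateRow i2 (fun j => C (P i2 j)) = CP := by
    funext i j
    by_cases hi2 : i = i2
    · subst hi2
      rw [Matrix.updateRow_self]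
    · rw [Matrix.updateRow_ne hi2]
      by_cases hi1 : i = i1
      · subst hi1
        rw [Matrix.updateRow_self]
      · rw [Matrix.updateRow_ne hi1]
  have e3 : (CP.updateRow i1 (fun j => C (Q i1 j))).updateRow i2 (fun j => C (Q i2 j)) =
      fun i j => C (P' i j) := by
    funext i j
    by_cases hi2 : i = i2
    · subst hi2
      rw [Matrix.updateRow_self, hQP _ hp2]
    · rw [Matrix.updateRow_ne hi2]
      by_cases hi1 : i = i1
      · subst hi1
        rw [Matrix.updateRow_self, hQP _ hp1]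
      · rw [Matrix.updateRow_ne hi1, (hQ0 i (by tauto) j).2]
  have e4 : ∀ a b : Fin m → ℤ, (CP.updateRow i1 (fun j => C (a j))).updateRow i2 (fun j => C (b j)) =
      fun i j => C (((P.updateRow i1 a).updateRow i2 b) i j) := by
    intro a b
    funext i j
    by_cases hi2 : i = i2
    · subst hi2
      rw [Matrix.updateRow_self, Matrix.updateRow_self]
    · rw [Matrix.updateRow_ne hi2, Matrix.updateRow_ne hi2]
      by_cases hi1 : i = i1
      · subst hi1
        rw [Matrix.updateRow_self, Matrix.updateRow_self]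
      · rw [Matrix.updateRow_ne hi1, Matrix.updateRow_ne hi1]
  refine ⟨((P.updateRow i1 (Q i1)).updateRow i2 (P i2)).det +
    ((P.updateRow i1 (P i1)).updateRow i2 (Q i2)).det, ?_⟩
  rw [e1, det_two CP h12, e2, e3, e4 (Q i1) (P i2), e4 (P i1) (Q i2), det_C, det_C, det_C, det_C,
    map_add]
  ring

theorem eval_PX {m : ℕ} (P Q : Matrix (Fin m) (Fin m) ℤ) (t : ℤ) :
    (PX P Q).det.eval t = (P + t • Q).det := by
  have h1 : (PX P Q).det.eval t = (Polynomial.evalRingHom t) (PX P Q).det := rfl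
  rw [h1, RingHom.map_det]
  congr 1
  ext i j
  rw [Matrix.add_apply, Matrix.smul_apply, smul_eq_mul]
  show (Polynomial.evalRingHom t) (C (P i j) + X * C (Q i j)) = P i j + t * Q i j
  simp

theorem tr_MP (R : List Pool.Agent.H86.RB.Row) (F : ℕ → Bool) (m : ℕ) (i : Fin m) :
    Pool.Agent.H86.RB.Tr (MP R F m i) := by
  have h1 : ∀ (f : Bool) (r : Pool.Agent.H86.RB.Row), ∃ a b : ℕ, ∀ v,
      cP f v r = (if v = a then 1 else 0) - (if v = b then 1 else 0) := by
    intro f r
    cases r with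
    | mg x y => exact ⟨x, y, fun v => rfl⟩
    | ps x n y =>
      cases f
      · exact ⟨x, y, fun v => rfl⟩
      · exact ⟨y, n, fun v => rfl⟩
  obtain ⟨a, b, hab⟩ := h1 (F i) (R.getD i (.mg 0 0))
  have h2 : MP R F m i = fun j : Fin m => (if (j : ℕ) + 1 = a then (1 : ℤ) else 0) -
      (if (j : ℕ) + 1 = b then 1 else 0) := by
    funext j
    exact hab _
  rw [h2]
  exact Pool.Agent.H86.RB.tr_mg a b

theorem pencil_two (R : List Pool.Agent.H86.RB.Row) (F : ℕ → Bool) (m : ℕ) (hm : R.length = m)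
    (hle : ∀ r ∈ R, r.x ≤ m ∧ r.y ≤ m ∧ r.z ≤ m)
    (hconn : ∀ B : Set ℕ, 0 ∈ B → (∀ r ∈ R, (r.x ∈ B ↔ r.y ∈ B)) → ∀ v ≤ m, v ∈ B)
    (h2 : R.countP Pool.Agent.H86.RB.Row.isps = 2)
    (h3 : (3 : ℤ) ∣ (PX (MP R F m) (MQ R F m)).det.eval (-1)) :
    ∃ ε : ℤ, (ε = 1 ∨ ε = -1) ∧
      (((PX (MP R F m) (MQ R F m)).det = C ε * (X ^ 2 - X + 1) ∧
        (PX (MP R (fun i => !(F i)) m) (MQ R (fun i => !(F i)) m)).det = C ε * (X ^ 2 - X + 1)) ∨
      ((PX (MP R F m) (MQ R F m)).det = C ε * (C 2 * X - 1) ∧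
        (PX (MP R (fun i => !(F i)) m) (MQ R (fun i => !(F i)) m)).det = C ε * (C 2 * X - X ^ 2)) ∨
      ((PX (MP R F m) (MQ R F m)).det = C ε * (C 2 * X - X ^ 2) ∧
        (PX (MP R (fun i => !(F i)) m) (MQ R (fun i => !(F i)) m)).det = C ε * (C 2 * X - 1))) := by
  have hnn : (fun i => !((fun i => !(F i)) i)) = F := by funext i; simp
  obtain ⟨β, hβ⟩ := two_det R F m hm h2
  obtain ⟨β', hβ'⟩ := two_det R (fun i => !(F i)) m hm h2
  rw [hnn] at hβ'
  have hα := Pool.Agent.H86.RB.tu_det m (MP R F m) (tr_MP R F m)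
  have hγ := Pool.Agent.H86.RB.tu_det m (MP R (fun i => !(F i)) m) (tr_MP R (fun i => !(F i)) m)
  have hs : MP R (fun i => !(F i)) m + MQ R (fun i => !(F i)) m = MP R F m + MQ R F m := by
    ext i j
    simp only [Matrix.add_apply, MP, MQ, sum_co]
  have hsd : (MP R F m + MQ R F m).det = 1 ∨ (MP R F m + MQ R F m).det = -1 := by
    have h5 : |(MP R F m + MQ R F m).det| ≤ 1 := by
      apply Pool.Agent.H86.RB.tu_det
      intro i
      have h6 : (MP R F m + MQ R F m) i = fun j : Fin m =>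
          (if (j : ℕ) + 1 = (R.getD i (.mg 0 0)).x then (1 : ℤ) else 0) -
            (if (j : ℕ) + 1 = (R.getD i (.mg 0 0)).y then 1 else 0) := by
        funext j
        exact sum_co _ _ _
      rw [h6]
      exact Pool.Agent.H86.RB.tr_mg _ _
    have h7 : (MP R F m + MQ R F m).det ≠ 0 := by
      intro h0
      have : Fact (Nat.Prime 2) := ⟨Nat.prime_two⟩
      have h8 := lin_u R F m hm hle hconn 2
      have h9 : (rd 2 (MP R F m) + rd 2 (MQ R F m)).det = (((MP R F m + MQ R F m).det : ℤ) : ZMod 2) := by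
        have : rd 2 (MP R F m) + rd 2 (MQ R F m) =
            (Int.castRingHom (ZMod 2)).mapMatrix (MP R F m + MQ R F m) := by
          rw [map_add]
          rfl
        rw [this, ← RingHom.map_det]
        rfl
      rw [h9, h0] at h8
      simp at h8
    rw [abs_le] at h5
    omega
  have q1 := eval_PX (MP R F m) (MQ R F m) 1
  have q2 := eval_PX (MP R (fun i => !(F i)) m) (MQ R (fun i => !(F i)) m) 1
  rw [one_smul] at q1 q2
  rw [hs, hβ'] at q2
  rw [hβ] at q1 h3 ⊢
  rw [hβ']
  simp only [eval_add, eval_mul, eval_C, eval_X, eval_pow] at q1 q2 h3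
  generalize (MP R F m).det = α at *
  generalize (MP R (fun i => !(F i)) m).det = γ at *
  generalize (MP R F m + MQ R F m).det = s at *
  rw [abs_le] at hα hγ
  obtain rfl : β' = β := by linarith
  obtain ⟨hα1, hα2⟩ := hα
  obtain ⟨hγ1, hγ2⟩ := hγ
  have h4 : (3 : ℤ) ∣ α - β' + γ := by
    have e : α + β' * -1 + γ * (-1) ^ 2 = α - β' + γ := by ring
    rwa [e] at h3
  have h5 : α + β' + γ = s := by linarith
  have key : (α = s ∧ β' = -s ∧ γ = s) ∨ (α = -s ∧ β' = 2 * s ∧ γ = 0) ∨
      (α = 0 ∧ β' = 2 * s ∧ γ = -s) := by omega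
  refine ⟨s, hsd, ?_⟩
  rcases key with ⟨rfl, rfl, h7⟩ | ⟨rfl, rfl, rfl⟩ | ⟨rfl, rfl, rfl⟩
  · subst h7
    left
    constructor <;> (simp only [map_neg]; ring)
  · right; left
    constructor <;> (simp only [map_neg, map_mul, map_zero]; ring)
  · right; right
    constructor <;> (simp only [map_neg, map_mul, map_zero]; ring)

/-- the determinant of the pencil, with bounds for the mixed terms -/
theorem two_det2 (R : List Pool.Agent.H86.RB.Row) (F : ℕ → Bool) (m : ℕ) (hm : R.length = m)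
    (h2 : R.countP Pool.Agent.H86.RB.Row.isps = 2) :
    ∃ β₁ β₂ : ℤ, |β₁| ≤ 1 ∧ |β₂| ≤ 1 ∧ |(MP R F m).det + β₁| ≤ 1 ∧ |(MP R F m).det + β₂| ≤ 1 ∧
      |(MP R (fun i => !(F i)) m).det + β₁| ≤ 1 ∧ |(MP R (fun i => !(F i)) m).det + β₂| ≤ 1 ∧
      (PX (MP R F m) (MQ R F m)).det =
        C (MP R F m).det + C (β₁ + β₂) * X + C (MP R (fun i => !(F i)) m).det * X ^ 2 := by
  classical
  have hc := Pool.Agent.H86.RB.card_ps R m hm
  rw [h2] at hc
  obtain ⟨i1, i2, h12, hs⟩ := Finset.card_eq_two.1 hc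
  have hps : ∀ i : Fin m, (R.getD i (.mg 0 0)).isps = true ↔ i = i1 ∨ i = i2 := by
    intro i
    have : i ∈ Finset.univ.filter (fun i : Fin m => (R.getD i (.mg 0 0)).isps = true) ↔
        i ∈ ({i1, i2} : Finset (Fin m)) := by rw [hs]
    simpa using this
  have tP := tr_MP R F m
  have tP' := tr_MP R (fun i => !(F i)) m
  have tS : ∀ i, Pool.Agent.H86.RB.Tr (MP R F m i + MQ R F m i) := by
    intro i
    have h6 : MP R F m i + MQ R F m i = fun j : Fin m =>
        (if (j : ℕ) + 1 = (R.getD i (.mg 0 0)).x then (1 : ℤ) else 0) -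
          (if (j : ℕ) + 1 = (R.getD i (.mg 0 0)).y then 1 else 0) := by
      funext j
      exact sum_co _ _ _
    rw [h6]
    exact Pool.Agent.H86.RB.tr_mg _ _
  set P := MP R F m with hP
  set Q := MQ R F m with hQ
  set P' := MP R (fun i => !(F i)) m with hP'
  have hp1 : (R.getD i1 (.mg 0 0)).isps = true := (hps i1).2 (Or.inl rfl)
  have hp2 : (R.getD i2 (.mg 0 0)).isps = true := (hps i2).2 (Or.inr rfl)
  have hQP : ∀ i : Fin m, (R.getD i (.mg 0 0)).isps = true → P' i = Q i :=
    fun i hi => funext fun j => p_ps _ _ _ hi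
  have hQ0 : ∀ i : Fin m, ¬ (i = i1 ∨ i = i2) → ∀ j, Q i j = 0 ∧ P' i j = P i j := by
    intro i hi j
    have h3 : (R.getD i (.mg 0 0)).isps = false := by
      rw [← Bool.not_eq_true]
      exact fun h => hi ((hps i).1 h)
    exact ⟨q_mg _ _ _ h3, p_mg _ _ _ _ h3⟩
  set CP : Matrix (Fin m) (Fin m) ℤ[X] := fun i j => C (P i j) with hCP
  have e1 : PX P Q = (CP.updateRow i1 ((fun j => C (P i1 j)) + (X : ℤ[X]) • (fun j => C (Q i1 j)))).updateRow
      i2 ((fun j => C (P i2 j)) + (X : ℤ[X]) • (fun j => C (Q i2 j))) := by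
    funext i j
    by_cases hi2 : i = i2
    · subst hi2
      rw [Matrix.updateRow_self]
      rfl
    · rw [Matrix.updateRow_ne hi2]
      by_cases hi1 : i = i1
      · subst hi1
        rw [Matrix.updateRow_self]
        rfl
      · rw [Matrix.updateRow_ne hi1]
        have := (hQ0 i (by tauto) j).1
        simp only [PX, hCP, this, map_zero, mul_zero, add_zero]
  have e4 : ∀ a b : Fin m → ℤ, (CP.updateRow i1 (fun j => C (a j))).updateRow i2 (fun j => C (b j)) =
      fun i j => C (((P.updateRow i1 a).updateRow i2 b) i j) := by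
    intro a b
    funext i j
    by_cases hi2 : i = i2
    · subst hi2
      rw [Matrix.updateRow_self, Matrix.updateRow_self]
    · rw [Matrix.updateRow_ne hi2, Matrix.updateRow_ne hi2]
      by_cases hi1 : i = i1
      · subst hi1
        rw [Matrix.updateRow_self, Matrix.updateRow_self]
      · rw [Matrix.updateRow_ne hi1, Matrix.updateRow_ne hi1]
  have e5 : (P.updateRow i1 (P i1)).updateRow i2 (P i2) = P := by
    rw [Matrix.updateRow_eq_self]
    exact Matrix.updateRow_eq_self P i2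
  have e6 : (P.updateRow i1 (Q i1)).updateRow i2 (Q i2) = P' := by
    funext i j
    by_cases hi2 : i = i2
    · subst hi2
      rw [Matrix.updateRow_self, hQP _ hp2]
    · rw [Matrix.updateRow_ne hi2]
      by_cases hi1 : i = i1
      · subst hi1
        rw [Matrix.updateRow_self, hQP _ hp1]
      · rw [Matrix.updateRow_ne hi1, (hQ0 i (by tauto) j).2]
  -- all mixed matrices have rows that are differences
  have tQ : ∀ i, i = i1 ∨ i = i2 → Pool.Agent.H86.RB.Tr (Q i) := by
    intro i hi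
    rw [← hQP i ((hps i).2 hi)]
    exact tP' i
  have tall : ∀ a b : Fin m → ℤ, Pool.Agent.H86.RB.Tr a → Pool.Agent.H86.RB.Tr b →
      |((P.updateRow i1 a).updateRow i2 b).det| ≤ 1 := by
    intro a b ha hb
    apply Pool.Agent.H86.RB.tu_det
    intro i
    by_cases hi2 : i = i2
    · subst hi2
      rw [Matrix.updateRow_self]
      exact hb
    · rw [Matrix.updateRow_ne hi2]
      by_cases hi1 : i = i1
      · subst hi1
        rw [Matrix.updateRow_self]
        exact ha
      · rw [Matrix.updateRow_ne hi1]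
        exact tP i
  have add1 : ∀ a a' b : Fin m → ℤ, ((P.updateRow i1 (a + a')).updateRow i2 b).det =
      ((P.updateRow i1 a).updateRow i2 b).det + ((P.updateRow i1 a').updateRow i2 b).det := by
    intro a a' b
    rw [Matrix.updateRow_comm _ h12, Matrix.det_updateRow_add, Matrix.updateRow_comm _ h12.symm,
      Matrix.updateRow_comm _ h12.symm]
  have add2 : ∀ a b b' : Fin m → ℤ, ((P.updateRow i1 a).updateRow i2 (b + b')).det =
      ((P.updateRow i1 a).updateRow i2 b).det + ((P.updateRow i1 a).updateRow i2 b').det := by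
    intro a b b'
    rw [Matrix.det_updateRow_add]
  refine ⟨((P.updateRow i1 (Q i1)).updateRow i2 (P i2)).det,
    ((P.updateRow i1 (P i1)).updateRow i2 (Q i2)).det, ?_, ?_, ?_, ?_, ?_, ?_, ?_⟩
  · exact tall _ _ (tQ i1 (Or.inl rfl)) (tP i2)
  · exact tall _ _ (tP i1) (tQ i2 (Or.inr rfl))
  · have := tall _ _ (tS i1) (tP i2)
    rw [add1, e5] at this
    exact this
  · have := tall _ _ (tP i1) (tS i2)
    rw [add2, e5] at this
    exact this
  · have := tall _ _ (tQ i1 (Or.inl rfl)) (tS i2)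
    rw [add2, e6, add_comm] at this
    exact this
  · have := tall _ _ (tS i1) (tQ i2 (Or.inr rfl))
    rw [add1, e6, add_comm] at this
    exact this
  · rw [e1, det_two CP h12, e4, e4, e4, e4, det_C, det_C, det_C, det_C, e5, e6, map_add]
    ring

/-- classification of the determinants of the pencils with two passes -/
theorem pencil_all (R : List Pool.Agent.H86.RB.Row) (F : ℕ → Bool) (m : ℕ) (hm : R.length = m)
    (hle : ∀ r ∈ R, r.x ≤ m ∧ r.y ≤ m ∧ r.z ≤ m)
    (hconn : ∀ B : Set ℕ, 0 ∈ B → (∀ r ∈ R, (r.x ∈ B ↔ r.y ∈ B)) → ∀ v ≤ m, v ∈ B)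
    (h2 : R.countP Pool.Agent.H86.RB.Row.isps = 2) :
    ∃ ε : ℤ, (ε = 1 ∨ ε = -1) ∧
      (((PX (MP R F m) (MQ R F m)).det = C ε * (X ^ 2 - X + 1) ∧
        (PX (MP R (fun i => !(F i)) m) (MQ R (fun i => !(F i)) m)).det = C ε * (X ^ 2 - X + 1)) ∨
      ((PX (MP R F m) (MQ R F m)).det = C ε * (C 2 * X - 1) ∧
        (PX (MP R (fun i => !(F i)) m) (MQ R (fun i => !(F i)) m)).det = C ε * (C 2 * X - X ^ 2)) ∨
      ((PX (MP R F m) (MQ R F m)).det = C ε * (C 2 * X - X ^ 2) ∧
        (PX (MP R (fun i => !(F i)) m) (MQ R (fun i => !(F i)) m)).det = C ε * (C 2 * X - 1)) ∨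
      ((∃ i : ℕ, (PX (MP R F m) (MQ R F m)).det = C ε * X ^ i) ∧
        ∃ i : ℕ, (PX (MP R (fun i => !(F i)) m) (MQ R (fun i => !(F i)) m)).det = C ε * X ^ i)) := by
  have hnn : (fun i => !((fun i => !(F i)) i)) = F := by funext i; simp
  obtain ⟨β₁, β₂, b1, b2, b3, b4, b5, b6, hβ⟩ := two_det2 R F m hm h2
  obtain ⟨β', hβ'⟩ := two_det R (fun i => !(F i)) m hm h2
  rw [hnn] at hβ'
  have hα := Pool.Agent.H86.RB.tu_det m (MP R F m) (tr_MP R F m)
  have hγ := Pool.Agent.H86.RB.tu_det m (MP R (fun i => !(F i)) m) (tr_MP R (fun i => !(F i)) m)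
  have hs : MP R (fun i => !(F i)) m + MQ R (fun i => !(F i)) m = MP R F m + MQ R F m := by
    ext i j
    simp only [Matrix.add_apply, MP, MQ, sum_co]
  have hsd : (MP R F m + MQ R F m).det = 1 ∨ (MP R F m + MQ R F m).det = -1 := by
    have h5 : |(MP R F m + MQ R F m).det| ≤ 1 := by
      apply Pool.Agent.H86.RB.tu_det
      intro i
      have h6 : (MP R F m + MQ R F m) i = fun j : Fin m =>
          (if (j : ℕ) + 1 = (R.getD i (.mg 0 0)).x then (1 : ℤ) else 0) -
            (if (j : ℕ) + 1 = (R.getD i (.mg 0 0)).y then 1 else 0) := by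
        funext j
        exact sum_co _ _ _
      rw [h6]
      exact Pool.Agent.H86.RB.tr_mg _ _
    have h7 : (MP R F m + MQ R F m).det ≠ 0 := by
      intro h0
      have : Fact (Nat.Prime 2) := ⟨Nat.prime_two⟩
      have h8 := lin_u R F m hm hle hconn 2
      have h9 : (rd 2 (MP R F m) + rd 2 (MQ R F m)).det = (((MP R F m + MQ R F m).det : ℤ) : ZMod 2) := by
        have : rd 2 (MP R F m) + rd 2 (MQ R F m) =
            (Int.castRingHom (ZMod 2)).mapMatrix (MP R F m + MQ R F m) := by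
          rw [map_add]
          rfl
        rw [this, ← RingHom.map_det]
        rfl
      rw [h9, h0] at h8
      simp at h8
    rw [abs_le] at h5
    omega
  have q1 := eval_PX (MP R F m) (MQ R F m) 1
  have q2 := eval_PX (MP R (fun i => !(F i)) m) (MQ R (fun i => !(F i)) m) 1
  rw [one_smul] at q1 q2
  rw [hs, hβ'] at q2
  rw [hβ] at q1 ⊢
  rw [hβ']
  simp only [eval_add, eval_mul, eval_C, eval_X, eval_pow] at q1 q2
  generalize (MP R F m).det = α at *
  generalize (MP R (fun i => !(F i)) m).det = γ at *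
  generalize (MP R F m + MQ R F m).det = s at *
  rw [abs_le] at hα hγ b1 b2 b3 b4 b5 b6
  obtain rfl : β' = β₁ + β₂ := by linarith
  have h5 : α + (β₁ + β₂) + γ = s := by linarith
  have key : (α = s ∧ β₁ + β₂ = -s ∧ γ = s) ∨ (α = -s ∧ β₁ + β₂ = 2 * s ∧ γ = 0) ∨
      (α = 0 ∧ β₁ + β₂ = 2 * s ∧ γ = -s) ∨ (α = s ∧ β₁ + β₂ = 0 ∧ γ = 0) ∨
      (α = 0 ∧ β₁ + β₂ = s ∧ γ = 0) ∨ (α = 0 ∧ β₁ + β₂ = 0 ∧ γ = s) := by omega
  refine ⟨s, hsd, ?_⟩
  rcases key with ⟨rfl, h6, h7⟩ | ⟨rfl, h6, rfl⟩ | ⟨rfl, h6, rfl⟩ | ⟨rfl, h6, rfl⟩ | ⟨rfl, h6, rfl⟩ |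
    ⟨rfl, h6, rfl⟩
  · rw [h6]
    subst h7
    left
    constructor <;> (simp only [map_neg]; ring)
  · rw [h6]
    right; left
    constructor <;> (simp only [map_neg, map_mul, map_zero]; ring)
  · rw [h6]
    right; right; left
    constructor <;> (simp only [map_neg, map_mul, map_zero]; ring)
  · rw [h6]
    right; right; right
    exact ⟨⟨0, by simp only [map_zero]; ring⟩, ⟨2, by simp only [map_zero]; ring⟩⟩
  · rw [h6]
    right; right; right
    exact ⟨⟨1, by simp only [map_zero]; ring⟩, ⟨1, by simp only [map_zero]; ring⟩⟩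
  · rw [h6]
    right; right; right
    exact ⟨⟨2, by simp only [map_zero]; ring⟩, ⟨0, by simp only [map_zero]; ring⟩⟩

end Pool.Agent.H86.RU
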