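import Pool.Agent.H86.RU.LPoly
import Pool.Agent.H86.RT.ExT

/-!
# The modules used for ribbon number two
-/

set_option autoImplicit false

namespace Pool.Agent.H86.RU

open Pool.Agent.H86.RT Polynomial

theorem three0 : (3 : ZMod 3) = 0 := by decide

theorem t4 (v : Fin 4 → ZMod 3) :
    T4.toAddEquiv v = ![- v 0, - v 1 + v 0, - v 2 + v 1, - v 3 + v 2] := rfl

/-- the same on `(ZMod 3) ^ 2` -/
def T2 : (Fin 2 → ZMod 3) ≃+ (Fin 2 → ZMod 3) where
  toFun v := ![- v 0, - v 1 + v 0]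
  invFun v := ![- v 0, - v 1 - v 0]
  left_inv v := by
    ext i
    fin_cases i <;> simp
  right_inv v := by
    ext i
    fin_cases i <;> simp
  map_add' v w := by
    ext i
    fin_cases i <;> simp <;> ring

theorem t2 (v : Fin 2 → ZMod 3) : T2 v = ![- v 0, - v 1 + v 0] := rfl

/-- embedding of `(ZMod 3) ^ 2` -/
def io2 : (Fin 2 → ZMod 3) →+ (Fin 4 → ZMod 3) where
  toFun v := ![0, 0, v 0, v 1]
  map_zero' := by
    ext i
    fin_cases i <;> simp
  map_add' v w := by
    ext i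
    fin_cases i <;> simp

theorem io2_apply (v : Fin 2 → ZMod 3) : io2 v = ![0, 0, v 0, v 1] := rfl

theorem io2_T (v : Fin 2 → ZMod 3) : io2 (T2 v) = T4.toAddEquiv (io2 v) := by
  rw [t4, io2_apply, io2_apply, t2]
  ext i
  fin_cases i <;> simp

theorem io2_inj (v w : Fin 2 → ZMod 3) (h : io2 v = io2 w) : v = w := by
  rw [io2_apply, io2_apply] at h
  ext i
  fin_cases i
  · exact congrFun h 2
  · exact congrFun h 3

/-- the negation on `(ZMod 3) ^ 1` -/
def T1 : (Fin 1 → ZMod 3) ≃+ (Fin 1 → ZMod 3) := AddEquiv.neg (Fin 1 → ZMod 3)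

theorem t1 (v : Fin 1 → ZMod 3) : T1 v = (-1 : ℤ) • v := by
  show -v = _
  simp

/-- embedding of `(ZMod 3) ^ 1` -/
def io1 : (Fin 1 → ZMod 3) →+ (Fin 4 → ZMod 3) where
  toFun v := ![0, 0, 0, v 0]
  map_zero' := by
    ext i
    fin_cases i <;> simp
  map_add' v w := by
    ext i
    fin_cases i <;> simp

theorem io1_apply (v : Fin 1 → ZMod 3) : io1 v = ![0, 0, 0, v 0] := rfl

theorem io1_T (v : Fin 1 → ZMod 3) : io1 (T1 v) = T4.toAddEquiv (io1 v) := by
  rw [t4, io1_apply, io1_apply, t1]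
  ext i
  fin_cases i <;> simp

theorem io1_inj (v w : Fin 1 → ZMod 3) (h : io1 v = io1 w) : v = w := by
  rw [io1_apply, io1_apply] at h
  ext i
  fin_cases i
  exact congrFun h 3

/-- a polynomial acts on the first non-zero coordinate by its value at `-1` -/
theorem pev_T4 (p : ℤ[X]) (v : Fin 4 → ZMod 3) (i : Fin 4) (hv : ∀ j < i, v j = 0) :
    (∀ j < i, pev T4.toAddEquiv p v j = 0) ∧
      pev T4.toAddEquiv p v i = ((p.eval (-1) : ℤ) : ZMod 3) * v i := by
  induction p using Polynomial.induction_on generalizing v with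
  | C n =>
    rw [pev_C, eval_C]
    refine ⟨fun j hj => ?_, ?_⟩
    · rw [Pi.smul_apply, hv j hj, smul_zero]
    · rw [Pi.smul_apply, zsmul_eq_mul]
  | add p q hp hq =>
    obtain ⟨a1, a2⟩ := hp v hv
    obtain ⟨b1, b2⟩ := hq v hv
    rw [pev_add, eval_add]
    refine ⟨fun j hj => ?_, ?_⟩
    · rw [Pi.add_apply, a1 j hj, b1 j hj, add_zero]
    · rw [Pi.add_apply, a2, b2]
      push_cast
      ring
  | monomial n c h =>
    have e : C c * (X : ℤ[X]) ^ (n + 1) = (C c * X ^ n) * X := by rw [pow_succ, mul_assoc]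
    have h1 : (∀ j < i, T4.toAddEquiv v j = 0) ∧ T4.toAddEquiv v i = - v i := by
      rw [t4]
      fin_cases i
      · refine ⟨fun j hj => absurd hj (by simp), by simp⟩
      · have h0 := hv 0 (by decide)
        refine ⟨fun j hj => ?_, by simp [h0]⟩
        fin_cases j <;> simp_all
      · have h0 := hv 0 (by decide)
        have h1 := hv 1 (by decide)
        refine ⟨fun j hj => ?_, by simp [h1]⟩
        fin_cases j <;> simp_all
      · have h0 := hv 0 (by decide)
        have h1 := hv 1 (by decide)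
        have h2 := hv 2 (by decide)
        refine ⟨fun j hj => ?_, by simp [h2]⟩
        fin_cases j <;> simp_all
    obtain ⟨a1, a2⟩ := h (T4.toAddEquiv v) h1.1
    rw [e, pev_mul, pev_X]
    refine ⟨a1, ?_⟩
    rw [a2, h1.2, eval_mul (p := C c * X ^ n), eval_X]
    push_cast
    ring

theorem pev_T4_inj (p : ℤ[X]) (hp : ¬ (3 : ℤ) ∣ p.eval (-1)) (v : Fin 4 → ZMod 3)
    (h : pev T4.toAddEquiv p v = 0) : v = 0 := by
  have hu : ((p.eval (-1) : ℤ) : ZMod 3) ≠ 0 := by
    intro h0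
    rw [ZMod.intCast_zmod_eq_zero_iff_dvd] at h0
    exact hp h0
  have : Fact (Nat.Prime 3) := ⟨Nat.prime_three⟩
  have step : ∀ i : Fin 4, (∀ j < i, v j = 0) → v i = 0 := by
    intro i hi
    have h1 := (pev_T4 p v i hi).2
    rw [h, Pi.zero_apply, eq_comm, mul_eq_zero] at h1
    exact h1.resolve_left hu
  have h0 := step 0 (fun j hj => absurd hj (by simp))
  have h1 := step 1 (fun j hj => by fin_cases j <;> simp_all)
  have h2 := step 2 (fun j hj => by fin_cases j <;> simp_all)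
  have h3 := step 3 (fun j hj => by fin_cases j <;> simp_all)
  ext i
  fin_cases i
  · exact h0
  · exact h1
  · exact h2
  · exact h3

theorem pev_inj_of {A : Type} [AddCommGroup A] {T : A ≃+ A} {p : ℤ[X]}
    (h : ∀ v, pev T p v = 0 → v = 0) (v w : A) (hvw : pev T p v = pev T p w) : v = w := by
  rw [← sub_eq_zero]
  apply h
  rw [map_sub, hvw, sub_self]

/-- multiplication with an integer prime to 3 on a 3-group -/
theorem smul_inj3 {A : Type} [AddCommGroup A] (k : ℕ) (h3 : ∀ a : A, ((3 : ℤ) ^ k) • a = 0) (n : ℤ)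
    (hn : ¬ (3 : ℤ) ∣ n) (a : A) (h : n • a = 0) : a = 0 := by
  have h1 : IsCoprime ((3 : ℤ) ^ k) n := by
    apply IsCoprime.pow_left
    rw [Prime.coprime_iff_not_dvd Int.prime_three]
    exact hn
  obtain ⟨x, y, hxy⟩ := h1
  calc a = (1 : ℤ) • a := (one_smul _ _).symm
    _ = (x * 3 ^ k + y * n) • a := by rw [hxy]
    _ = 0 := by rw [add_smul, mul_smul, mul_smul, h3, h, smul_zero, smul_zero, add_zero]

theorem pev_I (ε : ℤ) (v : Fin 4 → ZMod 3) :
    pev T4.toAddEquiv (C ε * (X ^ 2 - X + 1)) v = ε • ![0, 0, v 0, v 1] := by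
  have e : C ε * ((X : ℤ[X]) ^ 2 - X + 1) = C ε * (X * X + C (-1) * X + C 1) := by
    simp only [map_neg, map_one]; ring
  rw [e, pev_mul, pev_C, pev_add, pev_add, pev_mul, pev_mul, pev_X, pev_C, pev_C, pev_X, t4, t4]
  congr 1
  ext i
  fin_cases i
  · simp
    linear_combination (v 0) * three0
  · simp
    linear_combination (v 1 - v 0) * three0
  · simp
    linear_combination (v 2 - v 1) * three0
  · simp
    linear_combination (v 3 - v 2) * three0

theorem pev_I2 (ε : ℤ) (v : Fin 2 → ZMod 3) : pev T2 (C ε * (X ^ 2 - X + 1)) v = 0 := by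
  have e : C ε * ((X : ℤ[X]) ^ 2 - X + 1) = C ε * (X * X + C (-1) * X + C 1) := by
    simp only [map_neg, map_one]; ring
  rw [e, pev_mul, pev_C, pev_add, pev_add, pev_mul, pev_mul, pev_X, pev_C, pev_C, pev_X, t2, t2]
  have : ((![- v 0, - v 1 + v 0] : Fin 2 → ZMod 3) = ![- v 0, - v 1 + v 0]) := rfl
  rw [show (![-(![-v 0, -v 1 + v 0] : Fin 2 → ZMod 3) 0, -(![-v 0, -v 1 + v 0] : Fin 2 → ZMod 3) 1 +
    (![-v 0, -v 1 + v 0] : Fin 2 → ZMod 3) 0] : Fin 2 → ZMod 3) +
      (-1 : ℤ) • ![-v 0, -v 1 + v 0] + (1 : ℤ) • v = 0 from by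
    ext i
    fin_cases i
    · simp
      linear_combination (v 0) * three0
    · simp
      linear_combination (v 1 - v 0) * three0, smul_zero]

theorem pev_II (ε : ℤ) (v : Fin 4 → ZMod 3) :
    pev T4.toAddEquiv (C ε * (C 2 * X - 1)) v = ε • ![0, - v 0, - v 1, - v 2] := by
  have e : C ε * (C 2 * (X : ℤ[X]) - 1) = C ε * (C 2 * X + C (-1)) := by
    simp only [map_neg, map_one]; ring
  rw [e, pev_mul, pev_C, pev_add, pev_mul, pev_C, pev_X, pev_C, t4]
  congr 1
  ext i
  fin_cases i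
  · simp
    linear_combination (- v 0) * three0
  · simp
    linear_combination (v 0 - v 1) * three0
  · simp
    linear_combination (v 1 - v 2) * three0
  · simp
    linear_combination (v 2 - v 3) * three0

theorem pev_III (ε : ℤ) (v : Fin 4 → ZMod 3) :
    pev T4.toAddEquiv (C ε * (C 2 * X - X ^ 2)) v = ε • ![0, v 0, v 1 - v 0, v 2 - v 1] := by
  have e : C ε * (C 2 * (X : ℤ[X]) - X ^ 2) = C ε * (C 2 * X + C (-1) * (X * X)) := by
    simp only [map_neg, map_one]; ring
  rw [e, pev_mul, pev_C, pev_add, pev_mul, pev_C, pev_X, pev_mul, pev_C, pev_mul, pev_X, pev_X, t4, t4]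
  congr 1
  ext i
  fin_cases i
  · simp
    linear_combination (- v 0) * three0
  · simp
    linear_combination (v 0 - v 1) * three0
  · simp
    linear_combination (v 1 - v 2) * three0
  · simp
    linear_combination (v 2 - v 3) * three0

end Pool.Agent.H86.RU
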