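import Pool.Agent.H86.RT.LDefs

/-!
# The adjugate of a pencil
-/

set_option autoImplicit false

namespace Pool.Agent.H86.RU

open Pool.Agent.H86.RT Polynomial

variable {A : Type} [AddCommGroup A]

/-- the action of an integer polynomial in `T` -/
noncomputable def pev (T : A ≃+ A) : ℤ[X] →+* AddMonoid.End A :=
  (Polynomial.aeval (R := ℤ) (A := AddMonoid.End A) T.toAddMonoidHom).toRingHom

/-- the matrix `P + X Q` -/
noncomputable def PX {m : ℕ} (P Q : Matrix (Fin m) (Fin m) ℤ) : Matrix (Fin m) (Fin m) ℤ[X] :=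
  fun i j => C (P i j) + X * C (Q i j)

theorem pev_C (T : A ≃+ A) (n : ℤ) (a : A) : pev T (C n) a = n • a := by
  have h : pev T (C n) = (n : AddMonoid.End A) := by
    have : (C n : ℤ[X]) = (n : ℤ[X]) := rfl
    rw [this, map_intCast]
  rw [h]
  simp

theorem pev_X (T : A ≃+ A) (a : A) : pev T X a = T a := by
  have h : pev T X = T.toAddMonoidHom := Polynomial.aeval_X _
  rw [h]
  rfl

theorem pev_mul (T : A ≃+ A) (p q : ℤ[X]) (a : A) : pev T (p * q) a = pev T p (pev T q a) := by
  rw [map_mul]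
  rfl

theorem pev_add (T : A ≃+ A) (p q : ℤ[X]) (a : A) : pev T (p + q) a = pev T p a + pev T q a := by
  rw [map_add]
  rfl

theorem pev_sum (T : A ≃+ A) {ι : Type} (s : Finset ι) (p : ι → ℤ[X]) (a : A) :
    pev T (∑ i ∈ s, p i) a = ∑ i ∈ s, pev T (p i) a := by
  classical
  induction s using Finset.induction_on with
  | empty => simp
  | insert i s hi ih => rw [Finset.sum_insert hi, Finset.sum_insert hi, pev_add, ih]

theorem pev_row (T : A ≃+ A) {m : ℕ} (P Q : Matrix (Fin m) (Fin m) ℤ) (u : Fin m → A) (i : Fin m) :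
    ∑ j, P i j • u j + T (∑ j, Q i j • u j) = ∑ j, pev T (PX P Q i j) (u j) := by
  rw [map_sum, ← Finset.sum_add_distrib]
  apply Finset.sum_congr rfl
  intro j _
  rw [PX, pev_add, pev_C, pev_mul, pev_X, pev_C]

theorem adj_solve (T : A ≃+ A) {m : ℕ} (P Q : Matrix (Fin m) (Fin m) ℤ) (b : Fin m → A) (i : Fin m) :
    ∑ j, P i j • (∑ k, pev T ((PX P Q).adjugate j k) (b k)) +
      T (∑ j, Q i j • (∑ k, pev T ((PX P Q).adjugate j k) (b k))) = pev T (PX P Q).det (b i) := by
  rw [pev_row T P Q (fun j => ∑ k, pev T ((PX P Q).adjugate j k) (b k)) i]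
  simp only [map_sum]
  rw [Finset.sum_comm]
  simp only [← pev_mul, ← pev_sum]
  have h1 : ∀ k, ∑ j, PX P Q i j * (PX P Q).adjugate j k = if i = k then (PX P Q).det else 0 := by
    intro k
    rw [← Matrix.mul_apply, Matrix.mul_adjugate, Matrix.smul_apply, Matrix.one_apply]
    split_ifs <;> simp
  simp only [h1]
  rw [Finset.sum_eq_single i]
  · rw [if_pos rfl]
  · intro k _ hk
    rw [if_neg (Ne.symm hk), map_zero]
    rfl
  · intro h
    exact absurd (Finset.mem_univ i) h

theorem adj_ann (T : A ≃+ A) {m : ℕ} (P Q : Matrix (Fin m) (Fin m) ℤ) (f : Fin m → A)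
    (hf : ∀ i, ∑ j, P i j • f j + T (∑ j, Q i j • f j) = 0) (i : Fin m) :
    pev T (PX P Q).det (f i) = 0 := by
  have h0 : ∑ k, pev T ((PX P Q).adjugate i k) (∑ j, pev T (PX P Q k j) (f j)) = 0 := by
    apply Finset.sum_eq_zero
    intro k _
    rw [← pev_row T P Q f k, hf k, map_zero]
  simp only [map_sum] at h0
  rw [Finset.sum_comm] at h0
  simp only [← pev_mul, ← pev_sum] at h0
  have h1 : ∀ j, ∑ k, (PX P Q).adjugate i k * PX P Q k j = if i = j then (PX P Q).det else 0 := by
    intro j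
    rw [← Matrix.mul_apply, Matrix.adjugate_mul, Matrix.smul_apply, Matrix.one_apply]
    split_ifs <;> simp
  simp only [h1] at h0
  rw [Finset.sum_eq_single i] at h0
  · rwa [if_pos rfl] at h0
  · intro k _ hk
    rw [if_neg (Ne.symm hk), map_zero]
    rfl
  · intro h
    exact absurd (Finset.mem_univ i) h

/-- a column of the adjugate -/
noncomputable def acol (T : A ≃+ A) {m : ℕ} (P Q : Matrix (Fin m) (Fin m) ℤ) (k : Fin m) (a : A) :
    Fin m → A := fun j => pev T ((PX P Q).adjugate j k) a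

theorem acol_row (T : A ≃+ A) {m : ℕ} (P Q : Matrix (Fin m) (Fin m) ℤ) (k : Fin m) (a : A)
    (ha : pev T (PX P Q).det a = 0) (i : Fin m) :
    ∑ j, P i j • acol T P Q k a j + T (∑ j, Q i j • acol T P Q k a j) = 0 := by
  classical
  have h1 := adj_solve T P Q (Pi.single k a) i
  have h2 : ∀ j, ∑ k', pev T ((PX P Q).adjugate j k') ((Pi.single k a : Fin m → A) k') =
      acol T P Q k a j := by
    intro j
    rw [Finset.sum_eq_single k]
    · rw [Pi.single_eq_same]
      rfl
    · intro k' _ hk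
      rw [Pi.single_eq_of_ne hk, map_zero]
    · intro h
      exact absurd (Finset.mem_univ k) h
  simp only [h2] at h1
  rw [h1]
  by_cases hik : i = k
  · rw [hik, Pi.single_eq_same, ha]
  · rw [Pi.single_eq_of_ne hik, map_zero]

theorem adj_card [Fintype A] [DecidableEq A] (T : A ≃+ A) {m : ℕ} (P Q : Matrix (Fin m) (Fin m) ℤ)
    (j k : Fin m) (Z : Finset A) (hZ : ∀ a ∈ Z, pev T (PX P Q).det a = 0)
    (hinj : ∀ a ∈ Z, ∀ b ∈ Z, pev T ((PX P Q).adjugate j k) a = pev T ((PX P Q).adjugate j k) b →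
      a = b) : Z.card ≤ (Kr T P Q).card := by
  apply Finset.card_le_card_of_injOn (fun a => acol T P Q k a)
  · intro a ha
    rw [Finset.mem_coe, Kr, Finset.mem_filter]
    exact ⟨Finset.mem_univ _, acol_row T P Q k a (hZ a ha)⟩
  · intro a ha b hb hab
    exact hinj a ha b hb (congrFun hab j)

/-- the action of polynomials commutes with equivariant homomorphisms -/
theorem pev_map {B : Type} [AddCommGroup B] {T : A ≃+ A} {T' : B ≃+ B} {g : A →+ B}
    (hg : ∀ a, g (T a) = T' (g a)) (p : ℤ[X]) (a : A) : g (pev T p a) = pev T' p (g a) := by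
  induction p using Polynomial.induction_on generalizing a with
  | C n => rw [pev_C, pev_C, map_zsmul]
  | add p q hp hq => rw [pev_add, pev_add, map_add, hp, hq]
  | monomial n c h =>
    have e : C c * (X : ℤ[X]) ^ (n + 1) = (C c * X ^ n) * X := by rw [pow_succ, mul_assoc]
    rw [e, pev_mul T, pev_mul T', h, pev_X, pev_X, hg]

/-- scalar action -/
theorem pev_scalar {T : A ≃+ A} {t : ℤ} (ht : ∀ a, T a = t • a) (p : ℤ[X]) (a : A) :
    pev T p a = (p.eval t) • a := by
  induction p using Polynomial.induction_on generalizing a with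
  | C n => rw [pev_C, Polynomial.eval_C]
  | add p q hp hq => rw [pev_add, hp, hq, Polynomial.eval_add, add_smul]
  | monomial n c h =>
    have e : C c * (X : ℤ[X]) ^ (n + 1) = (C c * X ^ n) * X := by rw [pow_succ, mul_assoc]
    rw [e, pev_mul T, h, pev_X, ht, Polynomial.eval_mul (p := C c * X ^ n), Polynomial.eval_X,
      mul_smul]

end Pool.Agent.H86.RU
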