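import Pool.Agent.H86.RU.RFin

/-!
# A lower bound for the number of colourings
-/

set_option autoImplicit false
set_option linter.unusedSectionVars false
set_option linter.unusedSimpArgs false

namespace Pool.Agent.H86.RU

open Pool.Agent.H86.RB Pool.Agent.H86.RT

variable {A : Type} [AddCommGroup A]

private theorem ps_new {T : A ≃+ A} {g : Bool} {u u' : ℕ → A} {a n b : ℕ}
    (h : rvl T g u (.ps a n b) = 0) (h' : rvl T g u' (.ps a n b) = 0) (ha : u a = u' a)
    (hb : u b = u' b) : u n = u' n := by
  cases g
  · simp only [rvl, Bool.false_eq_true, if_false] at h h'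
    rw [ha, hb, ← h'] at h
    have h1 := T.injective (add_left_cancel h)
    exact sub_right_injective h1
  · simp only [rvl, if_true] at h h'
    rw [ha, hb, ← h'] at h
    exact sub_right_injective (add_left_cancel h)

theorem ochw_inj (T : A ≃+ A) (x : ℕ → Bool) (S : List Bd) (k : ℕ) (vs : List ℕ) (φ : List Bool)
    (u u' : ℕ → A) (hk : 0 < k) (hv : ∀ v ∈ vs, v < k) (hu : ∀ v < k, u v = u' v)
    (hr : ∀ p ∈ (rows S k vs).zip (fgs S k x φ), rvl T p.2 u p.1 = 0)
    (hr' : ∀ p ∈ (rows S k vs).zip (fgs S k x φ), rvl T p.2 u' p.1 = 0)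
    (hc : ochw u S k vs = ochw u' S k vs) : ∀ v < k + births S + passes S, u v = u' v := by
  induction S generalizing k vs φ with
  | nil => simpa [births, passes] using hu
  | cons s S ih =>
    have hrs : rows (s :: S) k vs = (rst s k vs).1 ++ rows S (k + bq0 s) (rst s k vs).2.2 :=
      rows_cons s S k vs
    have hzip : (rows (s :: S) k vs).zip (fgs (s :: S) k x φ) =
        (rst s k vs).1.zip (fg1 s φ) ++
          (rows S (k + bq0 s) (rst s k vs).2.2).zip (fgs S (k + bq0 s) x (fs1 s (x k) φ)) := by
      rw [hrs, fgs, List.zip_append (fg1_len s _ k _).symm]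
    rw [hzip] at hr hr'
    have hlt := rst_lt s k vs hk hv
    rw [rst_cnt] at hlt
    have hbq : bq0 s = bp s := rfl
    have hg := getD_lt hk hv
    have hlc : (ochs u s k vs).length = (ochs u' s k vs).length := by cases s <;> rfl
    obtain ⟨c1, c2⟩ := List.append_inj hc hlc
    have hnew : ∀ v < k + bq0 s, u v = u' v := by
      intro v hvk
      rcases Nat.lt_or_ge v k with h1 | h1
      · exact hu v h1
      cases s with
      | birth j =>
        have h2 : bq0 (.birth j) = 1 := rfl
        obtain rfl : v = k := by omega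
        simpa [ochs] using c1
      | death j =>
        have h2 : bq0 (.death j) = 0 := rfl
        omega
      | split j =>
        have h2 : bq0 (.split j) = 0 := rfl
        omega
      | merge j =>
        have h2 : bq0 (.merge j) = 0 := rfl
        omega
      | twist p j =>
        have h2 : bq0 (.twist p j) = 0 := rfl
        omega
      | cross p j =>
        have h2 : bq0 (.cross p j) = 0 := rfl
        omega
      | passR p j =>
        have h2 : bq0 (.passR p j) = 1 := rfl
        obtain rfl : v = k := by omega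
        have hm : ((.ps (vs.getD (j + 1) 0) v (vs.getD (j + 2) 0) : Row),
            (if p then !(φ.getD (j + 2) true) else φ.getD (j + 2) true)) ∈
            (rst (.passR p j) v vs).1.zip (fg1 (.passR p j) φ) := by
          simp [rst, fg1]
        exact ps_new (hr _ (List.mem_append_left _ hm)) (hr' _ (List.mem_append_left _ hm))
          (hu _ (hg _)) (hu _ (hg _))
      | passL p j =>
        have h2 : bq0 (.passL p j) = 1 := rfl
        obtain rfl : v = k := by omega
        have hm : ((.ps (vs.getD (j + 2) 0) v (vs.getD (j + 1) 0) : Row),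
            (if p then φ.getD (j + 1) true else !(φ.getD (j + 1) true))) ∈
            (rst (.passL p j) v vs).1.zip (fg1 (.passL p j) φ) := by
          simp [rst, fg1]
        exact ps_new (hr _ (List.mem_append_left _ hm)) (hr' _ (List.mem_append_left _ hm))
          (hu _ (hg _)) (hu _ (hg _))
    have h3 := ih (k + bq0 s) (rst s k vs).2.2 (fs1 s (x k) φ) (by omega)
      (fun v hv' => by have := hlt v hv'; omega) hnew
      (fun p hp => hr p (List.mem_append_right _ hp)) (fun p hp => hr' p (List.mem_append_right _ hp)) c2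
    intro v hv'
    apply h3
    rw [births_cons s S, passes_cons s S] at hv'
    unfold bq0
    omega

private theorem sb_zero {x y : List A} (h : x.length = y.length) (hy : ∀ a ∈ y, a = 0) : sb x y = x := by
  induction x generalizing y with
  | nil =>
    cases y with
    | nil => rfl
    | cons b y => simp at h
  | cons a x ih =>
    cases y with
    | nil => simp at h
    | cons b y =>
      rw [sb_cons, ih (by simpa using h) (fun c hc => hy c (List.mem_cons_of_mem _ hc)),
        hy b (by simp), sub_zero]

private theorem sb_right {c x y : List A} (hx : c.length = x.length) (hy : c.length = y.length)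
    (h : sb c x = sb c y) : x = y := by
  induction c generalizing x y with
  | nil =>
    rw [List.length_nil, eq_comm, List.length_eq_zero_iff] at hx hy
    rw [hx, hy]
  | cons a c ih =>
    cases x with
    | nil => simp at hx
    | cons b x =>
      cases y with
      | nil => simp at hy
      | cons b' y =>
        rw [sb_cons, sb_cons, List.cons.injEq] at h
        rw [ih (by simpa using hx) (by simpa using hy) h.2, sub_right_injective h.1]

theorem cnt_ge [Fintype A] [DecidableEq A] (T : A ≃+ A) (x : ℕ → Bool) (S : List Bd)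
    (h : bty S 0 = some 0) (hb : births S = merges S) (hx : okk S 1 x [true]) {m : ℕ}
    (hm : (rows S 1 [0]).length = m) (F : ℕ → Bool)
    (hF : ∀ i, F i = (fgs S 1 x [true]).getD i true) (G : Finset (Fin m → A))
    (hG : ∀ f ∈ G, ∃ c st', OEv T x S 1 [(true, (0 : A), (0 : A))] c (List.ofFn f) st') :
    (Kr T (MP (rows S 1 [0]) F m) (MQ (rows S 1 [0]) F m)).card * G.card ≤
      Multiset.card (obrun T x S 1 [(true, (0 : A), (0 : A))]) := by
  classical
  obtain ⟨hbm, hle⟩ := rows_le S hb hm
  have hfl : (fgs S 1 x [true]).length = m := by rw [fgs_len S 1 x [true] [0], hm]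
  -- the row values of an element of the kernel
  have hrv : ∀ u ∈ Kr T (MP (rows S 1 [0]) F m) (MQ (rows S 1 [0]) F m),
      ∀ p ∈ (rows S 1 [0]).zip (fgs S 1 x [true]), rvl T p.2 (oex u) p.1 = 0 := by
    intro u hu p hp
    simp only [Kr, Finset.mem_filter, Finset.mem_univ, true_and] at hu
    obtain ⟨i, hi, rfl⟩ := List.mem_iff_getElem.1 hp
    have hi2 : i < m := by
      rw [List.length_zip] at hi
      omega
    have h1 := hu ⟨i, hi2⟩
    rw [rows_val T (rows S 1 [0]) hm F hle u ⟨i, hi2⟩] at h1
    have e1 : (rows S 1 [0]).getD i (.mg 0 0) = (rows S 1 [0])[i]'(by omega) :=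
      List.getD_eq_getElem _ _ (by omega)
    have e2 : (fgs S 1 x [true]).getD i true = (fgs S 1 x [true])[i]'(by omega) :=
      List.getD_eq_getElem _ _ (by omega)
    simp only [hF, e1, e2] at h1
    rw [List.getElem_zip]
    exact h1
  -- colourings without flow
  have hD : ∀ u ∈ Kr T (MP (rows S 1 [0]) F m) (MQ (rows S 1 [0]) F m), ∃ f0 st',
      (∀ y ∈ f0, y = 0) ∧ OEv T x S 1 [(true, (0 : A), (0 : A))] (ochw (oex u) S 1 [0]) f0 st' := by
    intro u hu
    obtain ⟨f0, z0, k1, k2⟩ := rev_diag T x S 0 0 1 h [(0, true)] rfl hx (oex u)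
    have h3 : zdg (oex u) [(0, true)] = [(true, (0 : A), (0 : A))] := by
      simp [zdg, oex_zero]
    rw [h3] at k2
    refine ⟨f0, _, k1, oev_of_rev k2 ?_⟩
    intro y hy
    obtain ⟨p, hp, rfl⟩ := List.mem_map.1 hy
    exact hrv u hu p hp
  choose! c hc using hG
  set Ku := Kr T (MP (rows S 1 [0]) F m) (MQ (rows S 1 [0]) F m) with hKu
  have key : ∀ u ∈ Ku, ∀ f ∈ G, (c f).length = (ochw (oex u) S 1 [0]).length ∧
      ∃ st', OEv T x S 1 [(true, (0 : A), (0 : A))] (sb (c f) (ochw (oex u) S 1 [0])) (List.ofFn f) st' := by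
    intro u hu f hf
    obtain ⟨f0, st1, g1, g2⟩ := hD u hu
    obtain ⟨st2, g3⟩ := hc f hf
    obtain ⟨l1, l2, l3, l4⟩ := oev_sub g3 g2 rfl
    rw [sb_zero l4 g1] at l1
    have h4 : osb [(true, (0 : A), (0 : A))] [(true, (0 : A), (0 : A))] = [(true, (0 : A), (0 : A))] := by
      simp [osb]
    rw [h4] at l1
    exact ⟨l3, _, l1⟩
  rw [← Finset.card_product]
  refine le_trans ?_ (Multiset.toFinset_card_le _)
  apply Finset.card_le_card_of_injOn
    (fun p => (sb (c p.2) (ochw (oex p.1) S 1 [0]), List.ofFn p.2))
  · rintro ⟨u, f⟩ hp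
    rw [Finset.mem_coe, Finset.mem_product] at hp
    obtain ⟨_, st', g1⟩ := key u hp.1 f hp.2
    rw [Finset.mem_coe, Multiset.mem_toFinset]
    exact mem_of_oev g1
  · rintro ⟨u, f⟩ hp ⟨u', f'⟩ hp' heq
    rw [Finset.mem_coe, Finset.mem_product] at hp hp'
    simp only [Prod.mk.injEq] at heq
    have hff : f = f' := List.ofFn_injective heq.2
    subst hff
    obtain ⟨g1, _⟩ := key u hp.1 f hp.2
    obtain ⟨g2, _⟩ := key u' hp'.1 f hp.2
    have h1 := sb_right g1 g2 heq.1
    have h2 := ochw_inj T x S 1 [0] [true] (oex u) (oex u') Nat.one_pos (by simp) (by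
      intro v hv
      obtain rfl : v = 0 := by omega
      rw [oex_zero, oex_zero]) (hrv u hp.1) (hrv u' hp'.1) h1
    have h3 : u = u' := by
      funext j
      have := h2 ((j : ℕ) + 1) (by have := j.2; omega)
      rwa [oex_succ, oex_succ] at this
    rw [h3]

end Pool.Agent.H86.RU
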