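import Pool.Agent.H86.RT.OOne
import Pool.Agent.H86.RB.Flat

/-!
# Fox colourings are the Alexander colourings for `T = -1`
-/

set_option autoImplicit false
set_option linter.unusedSimpArgs false

namespace Pool.Agent.H86.RU

open Pool.Agent.H86.RB Pool.Agent.H86.RT

variable {N : ℕ} [NeZero N]

private theorem stp_at (k : Kd) (x l : List (ZMod N)) :
    stp N ⟨k, x.length⟩ (x ++ l) = (loc N k l).map (fun r => x ++ r) := by
  simp [stp]

private theorem sstp_at {C : Type} [Fintype C] [DecidableEq C] (Q : Sq C) (k : Kd) (x l : List C) :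
    sstp Q ⟨k, x.length⟩ (x ++ l) = (sloc Q k l).map (fun r => x ++ r) := by
  simp [sstp]

private theorem arun_cons {A : Type} [AddCommGroup A] [Fintype A] [DecidableEq A] (T : A ≃+ A)
    (s : Sl) (w : Wd) (os : List Bool) (l : List (A × Bool)) :
    arun T (s :: w) os l = (astp T s (os.headD true) l).bind (arun T w (nxt s.k os)) := rfl

private theorem map_eq_app {A : Type} {st : List (A × Bool)} {x z : List Bool}
    (h : st.map Prod.snd = x ++ z) :
    ∃ xs zs, st = xs ++ zs ∧ xs.map Prod.snd = x ∧ zs.map Prod.snd = z :=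
  List.map_eq_append_iff.1 h

private theorem map_eq_two {A : Type} {st : List (A × Bool)} {x z : List Bool} {a b : Bool}
    (h : st.map Prod.snd = x ++ a :: b :: z) :
    ∃ xs ca cb zs, st = xs ++ (ca, a) :: (cb, b) :: zs ∧ xs.map Prod.snd = x ∧
      zs.map Prod.snd = z := by
  obtain ⟨xs, zs, rfl, h1, h2⟩ := map_eq_app h
  obtain ⟨p, zs, rfl, h3, h4⟩ := List.map_eq_cons_iff.1 h2
  obtain ⟨p', zs, rfl, h5, h6⟩ := List.map_eq_cons_iff.1 h4
  obtain ⟨ca, a'⟩ := p
  obtain ⟨cb, b'⟩ := p'
  simp only at h3 h5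
  subst h3 h5
  exact ⟨xs, ca, cb, zs, rfl, h1, h6⟩

private theorem ax_neg (o : Bool) (y : ZMod N) : ax (AddEquiv.neg (ZMod N)) o y = -y := by
  cases o
  · rfl
  · rfl

theorem arun_neg {w : Wd} {os l l' : List Bool} (h : Oe w os l l') (st : List (ZMod N × Bool))
    (hst : st.map Prod.snd = l) :
    Multiset.card (arun (AddEquiv.neg (ZMod N)) w os st) =
      Multiset.card (run N w (st.map Prod.fst)) := by
  induction h generalizing st with
  | nil l => simp [arun, run]
  | cup x z l' os o w h ih =>
    obtain ⟨xs, zs, rfl, hx, hz⟩ := map_eq_app hst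
    have hlen : xs.length = x.length := by rw [← hx, List.length_map]
    have e7 : astp (AddEquiv.neg (ZMod N)) ⟨.cup, x.length⟩ o (xs ++ zs) =
        (Finset.univ : Finset (ZMod N)).val.map (fun c => xs ++ (c, o) :: (c, !o) :: zs) := by
      simp only [astp]
      rw [List.take_left' hlen, List.drop_left' hlen]
    have e8 := stp_at (N := N) .cup (xs.map Prod.fst) (zs.map Prod.fst)
    rw [List.length_map, hlen] at e8
    rw [arun_cons, List.headD_cons, e7, List.map_append, run, e8]
    simp only [loc, Multiset.map_map, Multiset.bind_map, Multiset.card_bind, Function.comp_def, nxt,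
      List.tail_cons]
    congr 1
    apply Multiset.map_congr rfl
    intro c _
    rw [ih (xs ++ (c, o) :: (c, !o) :: zs) (by simp [hx, hz])]
    simp
  | cap x z l' os o w h ih =>
    obtain ⟨xs, a, b, zs, rfl, hx, hz⟩ := map_eq_two hst
    have hlen : xs.length = x.length := by rw [← hx, List.length_map]
    have e6 := sstp_at (aq (AddEquiv.neg (ZMod N))) .cap xs ((a, o) :: (b, !o) :: zs)
    rw [hlen] at e6
    have e7 : astp (AddEquiv.neg (ZMod N)) ⟨.cap, x.length⟩ (os.headD true)
        (xs ++ (a, o) :: (b, !o) :: zs) =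
      sstp (aq (AddEquiv.neg (ZMod N))) ⟨.cap, x.length⟩ (xs ++ (a, o) :: (b, !o) :: zs) := rfl
    have e8 := stp_at (N := N) .cap (xs.map Prod.fst) (a :: b :: zs.map Prod.fst)
    rw [List.length_map, hlen] at e8
    rw [arun_cons, e7, e6, List.map_append, List.map_cons, List.map_cons, run, e8]
    have f3 : (aq (AddEquiv.neg (ZMod N))).bar (a, o) = (a, !o) := rfl
    simp only [sloc, loc, f3]
    by_cases hab : a = b
    · subst hab
      simp only [if_true, Multiset.map_singleton, Multiset.singleton_bind]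
      rw [← List.map_append]
      exact ih (xs ++ zs) (by simp [hx, hz])
    · have hab' : ¬ (b, !o) = (a, !o) := by
        intro h
        exact hab (congrArg Prod.fst h).symm
      rw [if_neg hab, if_neg hab']
      simp
  | pos x z l' os a b w h ih =>
    obtain ⟨xs, ca, cb, zs, rfl, hx, hz⟩ := map_eq_two hst
    have hlen : xs.length = x.length := by rw [← hx, List.length_map]
    have e6 := sstp_at (aq (AddEquiv.neg (ZMod N))) .pos xs ((ca, a) :: (cb, b) :: zs)
    rw [hlen] at e6
    have e7 : astp (AddEquiv.neg (ZMod N)) ⟨.pos, x.length⟩ (os.headD true)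
        (xs ++ (ca, a) :: (cb, b) :: zs) =
      sstp (aq (AddEquiv.neg (ZMod N))) ⟨.pos, x.length⟩ (xs ++ (ca, a) :: (cb, b) :: zs) := rfl
    have e8 := stp_at (N := N) .pos (xs.map Prod.fst) (ca :: cb :: zs.map Prod.fst)
    rw [List.length_map, hlen] at e8
    rw [arun_cons, e7, e6, List.map_append, List.map_cons, List.map_cons, run, e8]
    have f3 : (aq (AddEquiv.neg (ZMod N))).op (ca, a) (cb, b) = (2 * ca - cb, b) := by
      show (ca + ax (AddEquiv.neg (ZMod N)) a (cb - ca), b) = _
      rw [ax_neg]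
      congr 1
      ring
    simp only [sloc, loc, f3, Multiset.map_singleton, Multiset.singleton_bind]
    have := ih (xs ++ (2 * ca - cb, b) :: (ca, a) :: zs) (by simp [hx, hz])
    rw [List.map_append, List.map_cons, List.map_cons] at this
    exact this
  | neg x z l' os a b w h ih =>
    obtain ⟨xs, ca, cb, zs, rfl, hx, hz⟩ := map_eq_two hst
    have hlen : xs.length = x.length := by rw [← hx, List.length_map]
    have e6 := sstp_at (aq (AddEquiv.neg (ZMod N))) .neg xs ((ca, a) :: (cb, b) :: zs)
    rw [hlen] at e6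
    have e7 : astp (AddEquiv.neg (ZMod N)) ⟨.neg, x.length⟩ (os.headD true)
        (xs ++ (ca, a) :: (cb, b) :: zs) =
      sstp (aq (AddEquiv.neg (ZMod N))) ⟨.neg, x.length⟩ (xs ++ (ca, a) :: (cb, b) :: zs) := rfl
    have e8 := stp_at (N := N) .neg (xs.map Prod.fst) (ca :: cb :: zs.map Prod.fst)
    rw [List.length_map, hlen] at e8
    rw [arun_cons, e7, e6, List.map_append, List.map_cons, List.map_cons, run, e8]
    have f3 : ((aq (AddEquiv.neg (ZMod N))).op (cb, b)).symm (ca, a) = (2 * cb - ca, a) := by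
      show (cb + ax (AddEquiv.neg (ZMod N)) (!b) (ca - cb), a) = _
      rw [ax_neg]
      congr 1
      ring
    simp only [sloc, loc, f3, Multiset.map_singleton, Multiset.singleton_bind]
    have := ih (xs ++ (cb, b) :: (2 * cb - ca, a) :: zs) (by simp [hx, hz])
    rw [List.map_append, List.map_cons, List.map_cons] at this
    exact this

theorem cola_neg_bdw (x : ℕ → Bool) (S : List Bd) (h : Dsk S) (hx : okk S 1 x [true]) :
    cola (AddEquiv.neg (ZMod N)) (bdw S) = col N (bdw S) := by
  have h1 : cola (AddEquiv.neg (ZMod N)) (bdw S) =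
      Multiset.card (srun (aq (AddEquiv.neg (ZMod N))) (up (bdw S)) [((0 : ZMod N), false), (0, true)]) := by
    have := srun_shift (aq (AddEquiv.neg (ZMod N))) (bdw S) [((0 : ZMod N), false)] [((0 : ZMod N), true)]
    have h2 : up (bdw S) =
        (bdw S).map (fun s => (⟨s.k, ([((0 : ZMod N), false)] : List (ZMod N × Bool)).length + s.i⟩ : Sl)) := rfl
    have h3 : ([((0 : ZMod N), false), (0, true)] : List (ZMod N × Bool)) =
      [((0 : ZMod N), false)] ++ [((0 : ZMod N), true)] := rfl
    rw [h2, h3, this, Multiset.card_map]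
    rfl
  have h2 := oe_bdw S 0 0 1 x [true] h.1 rfl hx
  have e : flo [true] = [false, true] := rfl
  rw [e] at h2
  have h3 : Multiset.card (srun bq (up (bdw S)) [false, true]) = 1 := by
    rw [oe_card h2]
    have h4 := run_shift (N := 2) (bdw S) [0] [0]
    have h5 : up (bdw S) = (bdw S).map (fun s => (⟨s.k, ([0] : List (ZMod 2)).length + s.i⟩ : Sl)) := rfl
    have h6 : List.replicate ([false, true] : List Bool).length (0 : ZMod 2) = [0] ++ [0] := rfl
    rw [h5, h6, h4, Multiset.card_map]
    exact (kn_bdw S h).2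
  rw [h1, arun_card (AddEquiv.neg (ZMod N)) h2 h3 [((0 : ZMod N), false), (0, true)] rfl,
    arun_neg h2 [((0 : ZMod N), false), (0, true)] rfl]
  have h4 := run_shift (N := N) (bdw S) [0] [0]
  have h5 : up (bdw S) = (bdw S).map (fun s => (⟨s.k, ([0] : List (ZMod N)).length + s.i⟩ : Sl)) := rfl
  have h6 : ([((0 : ZMod N), false), (0, true)] : List (ZMod N × Bool)).map Prod.fst = [0] ++ [0] := rfl
  rw [h5, h6, h4, Multiset.card_map]
  rfl

/-- for ribbon knots the Fox colourings are the Alexander colourings with `T = -1` -/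
theorem cola_neg (K : Wd) (hK : Rb K) : cola (AddEquiv.neg (ZMod N)) K = col N K := by
  obtain ⟨S, hS, hI⟩ := hK
  obtain ⟨x, hx⟩ := fac_ex S hS
  rw [← cola_iso _ hI, ← col_iso hI, cola_neg_bdw x S hS hx]

end Pool.Agent.H86.RU
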