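import Pool.Agent.H86.RT.OCnt

/-!
# Relaxed colourings

As the colourings of `RT/ODefs.lean`, but at a merge the two middle edges may have different colours and the band
that passes through another one may leave it with an arbitrary colour. The defects are recorded, one for each row.
-/

set_option autoImplicit false

namespace Pool.Agent.H86.RU

open Pool.Agent.H86.RB Pool.Agent.H86.RT

variable {A : Type} [AddCommGroup A]

/-- the recorded defect of a pass with flag `ρ`; `z` is the colour that the rule predicts minus the actual colour -/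
def dfe (T : A ≃+ A) (ρ : Bool) (z : A) : A := if ρ then z else T z

/-- one band slice, relaxed; `c` the chosen colours (birth, split), `f` the recorded flows, `r` the defects -/
inductive RSp (T : A ≃+ A) : Bd → Bool → List (Bool × A × A) → List A → List A → List A →
    List (Bool × A × A) → Prop
  | birth (j : ℕ) (b : Bool) (x y : List (Bool × A × A)) (c : A) (h : x.length = j + 1) :
      RSp T (.birth j) b (x ++ y) [c] [] [] (x ++ (b, c, c) :: y)
  | death (j : ℕ) (b φ : Bool) (x y : List (Bool × A × A)) (c : A) (h : x.length = j + 1) :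
      RSp T (.death j) b (x ++ (φ, c, c) :: y) [] [] [] (x ++ y)
  | split (j : ℕ) (b φ : Bool) (x y : List (Bool × A × A)) (a d c : A) (h : x.length = j) :
      RSp T (.split j) b (x ++ (φ, a, d) :: y) [c] [] [] (x ++ (φ, a, c) :: (φ, c, d) :: y)
  | merge (j : ℕ) (b0 φ : Bool) (x y : List (Bool × A × A)) (a b c d : A) (h : x.length = j) :
      RSp T (.merge j) b0 (x ++ (φ, a, b) :: (φ, c, d) :: y) [] [nf T φ (c - d)] [b - c]
        (x ++ (φ, a, b + (d - c)) :: y)
  | twt (j : ℕ) (b φ : Bool) (x y : List (Bool × A × A)) (a c : A) (h : x.length = j + 1) :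
      RSp T (.twist true j) b (x ++ (φ, a, c) :: y) [] [] []
        (x ++ (!φ, a + ax T (!φ) (c - a), a) :: y)
  | twf (j : ℕ) (b φ : Bool) (x y : List (Bool × A × A)) (a c : A) (h : x.length = j + 1) :
      RSp T (.twist false j) b (x ++ (φ, a, c) :: y) [] [] []
        (x ++ (!φ, c, c + ax T (!φ) (a - c)) :: y)
  | crt (j : ℕ) (b0 φ ψ : Bool) (x y : List (Bool × A × A)) (a b c d : A) (h : x.length = j + 1) :
      RSp T (.cross true j) b0 (x ++ (φ, a, b) :: (ψ, c, d) :: y) [] [] []
        (x ++ (ψ, c - ((b - a) - ax T (!φ) (b - a)), d - ((b - a) - ax T (!φ) (b - a))) ::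
          (φ, a, b) :: y)
  | crf (j : ℕ) (b0 φ ψ : Bool) (x y : List (Bool × A × A)) (a b c d : A) (h : x.length = j + 1) :
      RSp T (.cross false j) b0 (x ++ (φ, a, b) :: (ψ, c, d) :: y) [] [] []
        (x ++ (ψ, c, d) ::
          (φ, a + ((d - c) - ax T (!ψ) (d - c)), b + ((d - c) - ax T (!ψ) (d - c))) :: y)
  | prt (j : ℕ) (b0 φ ψ : Bool) (x y : List (Bool × A × A)) (a b c d e : A) (h : x.length = j + 1) :
      RSp T (.passR true j) b0 (x ++ (φ, a, b) :: (ψ, c, d) :: y) [] [pf T (!ψ) φ (b - a)]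
        [dfe T (!ψ) (d + ax T (!ψ) (a - d) - e)]
        (x ++ (ψ, c - ((b - a) - ax T (!φ) (b - a)), d) :: (φ, e, e + ax T (!ψ) (b - a)) :: y)
  | prf (j : ℕ) (b0 φ ψ : Bool) (x y : List (Bool × A × A)) (a b c d e : A) (h : x.length = j + 1) :
      RSp T (.passR false j) b0 (x ++ (φ, a, b) :: (ψ, c, d) :: y) [] [pf T ψ φ (b - a)]
        [dfe T ψ (c + ax T ψ (a - c) - e)]
        (x ++ (ψ, c, d - (ax T ψ (b - a) - ax T (!φ) (ax T ψ (b - a)))) ::
          (φ, e, e + ax T ψ (b - a)) :: y)
  | plt (j : ℕ) (b0 φ ψ : Bool) (x y : List (Bool × A × A)) (a b c d e : A) (h : x.length = j + 1) :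
      RSp T (.passL true j) b0 (x ++ (φ, a, b) :: (ψ, c, d) :: y) [] [pf T φ ψ (d - c)]
        [dfe T φ (b + ax T φ (c - b) - e)]
        (x ++ (ψ, e, e + ax T φ (d - c)) ::
          (φ, a + (ax T φ (d - c) - ax T (!ψ) (ax T φ (d - c))), b) :: y)
  | plf (j : ℕ) (b0 φ ψ : Bool) (x y : List (Bool × A × A)) (a b c d e : A) (h : x.length = j + 1) :
      RSp T (.passL false j) b0 (x ++ (φ, a, b) :: (ψ, c, d) :: y) [] [pf T (!φ) ψ (d - c)]
        [dfe T (!φ) (a + ax T (!φ) (c - a) - e)]
        (x ++ (ψ, e, e + ax T (!φ) (d - c)) ::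
          (φ, a, b + ((d - c) - ax T (!ψ) (d - c))) :: y)

/-- the same for a list of slices; `x k` is the facing of the piece `k` at its birth -/
inductive REv (T : A ≃+ A) (x : ℕ → Bool) : List Bd → ℕ → List (Bool × A × A) → List A → List A →
    List A → List (Bool × A × A) → Prop
  | nil (k : ℕ) (st : List (Bool × A × A)) : REv T x [] k st [] [] [] st
  | cons (s : Bd) (S : List Bd) (k : ℕ) (st st1 st2 : List (Bool × A × A))
      (c1 c2 f1 f2 r1 r2 : List A) (h1 : RSp T s (x k) st c1 f1 r1 st1)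
      (h2 : REv T x S (k + bq0 s) st1 c2 f2 r2 st2) :
      REv T x (s :: S) k st (c1 ++ c2) (f1 ++ f2) (r1 ++ r2) st2

/-- facings and flows of a state -/
def dst (st : List (Bool × A × A)) : List (Bool × A) := st.map (fun p => (p.1, p.2.2 - p.2.1))

/-- values of the rows -/
def rvw (T : A ≃+ A) (u : ℕ → A) (R : List Row) (g : List Bool) : List A :=
  (R.zip g).map (fun p => rvl T p.2 u p.1)

end Pool.Agent.H86.RU
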