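import Pool.Agent.H86.RU.RDefs

/-!
# The relaxed colouring without flow that is given by colours of the pieces
-/

set_option autoImplicit false
set_option linter.unusedSectionVars false
set_option linter.unusedSimpArgs false

namespace Pool.Agent.H86.RU

open Pool.Agent.H86.RB Pool.Agent.H86.RT

variable {A : Type} [AddCommGroup A]

/-- the state of a list of (name, facing) -/
def zdg (u : ℕ → A) (z : List (ℕ × Bool)) : List (Bool × A × A) :=
  z.map (fun p => (p.2, u p.1, u p.1))

theorem zdg_app (u : ℕ → A) (x y : List (ℕ × Bool)) : zdg u (x ++ y) = zdg u x ++ zdg u y := by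
  simp [zdg]

theorem zdg_cns (u : ℕ → A) (v : ℕ) (φ : Bool) (y : List (ℕ × Bool)) :
    zdg u ((v, φ) :: y) = (φ, u v, u v) :: zdg u y := rfl

theorem zdg_len (u : ℕ → A) (x : List (ℕ × Bool)) : (zdg u x).length = x.length := by simp [zdg]

private theorem split0 (z : List (ℕ × Bool)) (i : ℕ) (h : i ≤ z.length) :
    ∃ x y, z = x ++ y ∧ x.length = i :=
  ⟨z.take i, z.drop i, (List.take_append_drop i z).symm, by rw [List.length_take]; omega⟩

private theorem split1 (z : List (ℕ × Bool)) (i : ℕ) (h : i + 1 ≤ z.length) :
    ∃ x v φ y, z = x ++ (v, φ) :: y ∧ x.length = i := by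
  obtain ⟨x, y, rfl, hx⟩ := split0 z i (by omega)
  rw [List.length_append] at h
  match y, h with
  | (v, φ) :: y, _ => exact ⟨x, v, φ, y, rfl, hx⟩
  | [], h => simp at h; omega

private theorem split2 (z : List (ℕ × Bool)) (i : ℕ) (h : i + 2 ≤ z.length) :
    ∃ x v φ w ψ y, z = x ++ (v, φ) :: (w, ψ) :: y ∧ x.length = i := by
  obtain ⟨x, y, rfl, hx⟩ := split0 z i (by omega)
  rw [List.length_append] at h
  match y, h with
  | (v, φ) :: (w, ψ) :: y, _ => exact ⟨x, v, φ, w, ψ, y, rfl, hx⟩
  | [_], h => simp at h; omega
  | [], h => simp at h; omega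

private theorem nf_z (T : A ≃+ A) (φ : Bool) : nf T φ 0 = 0 := by cases φ <;> simp [nf]

private theorem pf_z (T : A ≃+ A) (ρ φ : Bool) : pf T ρ φ 0 = 0 := by
  cases ρ <;> simp [pf, nf_z]

private theorem rvw_nil (T : A ≃+ A) (u : ℕ → A) : rvw T u [] [] = [] := rfl

private theorem rvw_one (T : A ≃+ A) (u : ℕ → A) (r : Row) (g : Bool) :
    rvw T u [r] [g] = [rvl T g u r] := rfl

private theorem dfe_ps (T : A ≃+ A) (ρ : Bool) (u : ℕ → A) (a n b : ℕ) :
    dfe T ρ (u b + ax T ρ (u a - u b) - u n) = rvl T ρ u (.ps a n b) := by
  cases ρ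
  · simp only [dfe, rvl, Bool.false_eq_true, if_false, ax_false]
    rw [map_sub, map_add, T.apply_symm_apply, map_sub]
    abel
  · simp only [dfe, rvl, if_true, ax_true]
    abel

private theorem rsp_diag (T : A ≃+ A) (s : Bd) (b : Bool) (n m k : ℕ) (h : bt s n = some m)
    (z : List (ℕ × Bool)) (hz : z.length = n + 1) (hk : ok1 s (z.map Prod.snd)) (u : ℕ → A) :

    ∃ f z', (∀ y ∈ f, y = 0) ∧ RSp T s b (zdg u z) (ochs u s k (z.map Prod.fst)) f
      (rvw T u (rst s k (z.map Prod.fst)).1 (fg1 s (z.map Prod.snd))) (zdg u z') ∧
      z'.map Prod.fst = (rst s k (z.map Prod.fst)).2.2 ∧ z'.map Prod.snd = fs1 s b (z.map Prod.snd) ∧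
      z'.length = m + 1 := by
  cases s with
  | birth j =>
    simp only [bt] at h
    split_ifs at h with hj
    simp only [Option.some.injEq] at h
    obtain ⟨x, y, rfl, hx⟩ := split0 z (j + 1) (by omega)
    have h1 : (x.map Prod.fst).length = j + 1 := by rw [List.length_map, hx]
    have h2 : (x.map Prod.snd).length = j + 1 := by rw [List.length_map, hx]
    refine ⟨[], x ++ (k, b) :: y, by simp, ?_, ?_, ?_, ?_⟩
    · rw [List.map_append, rst_birth h1, zdg_app, zdg_app, zdg_cns]
      exact RSp.birth j b _ _ (u k) (by rw [zdg_len, hx])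
    · rw [List.map_append, List.map_append, rst_birth h1]
      rfl
    · rw [List.map_append, List.map_append, fs1_birth h2]
      rfl
    · simp only [List.length_append, List.length_cons] at hz ⊢
      omega
  | death j =>
    simp only [bt] at h
    split_ifs at h with hj
    simp only [Option.some.injEq] at h
    obtain ⟨x, v, φ, y, rfl, hx⟩ := split1 z (j + 1) (by omega)
    have h1 : (x.map Prod.fst).length = j + 1 := by rw [List.length_map, hx]
    have h2 : (x.map Prod.snd).length = j + 1 := by rw [List.length_map, hx]
    refine ⟨[], x ++ y, by simp, ?_, ?_, ?_, ?_⟩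
    · rw [List.map_append, List.map_cons, rst_death h1, zdg_app, zdg_app, zdg_cns]
      exact RSp.death j b φ _ _ (u v) (by rw [zdg_len, hx])
    · rw [List.map_append, List.map_append, List.map_cons, rst_death h1]
    · rw [List.map_append, List.map_append, List.map_cons, fs1_death h2]
    · simp only [List.length_append, List.length_cons] at hz ⊢
      omega
  | split j =>
    simp only [bt] at h
    split_ifs at h with hj
    simp only [Option.some.injEq] at h
    obtain ⟨x, v, φ, y, rfl, hx⟩ := split1 z j (by omega)
    have h1 : (x.map Prod.fst).length = j := by rw [List.length_map, hx]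
    have h2 : (x.map Prod.snd).length = j := by rw [List.length_map, hx]
    refine ⟨[], x ++ (v, φ) :: (v, φ) :: y, by simp, ?_, ?_, ?_, ?_⟩
    · rw [List.map_append, List.map_cons, rst_split h1, zdg_app, zdg_app, zdg_cns, zdg_cns, zdg_cns]
      have h3 : ochs u (.split j) k (x.map Prod.fst ++ (v, φ).1 :: y.map Prod.fst) = [u v] := by
        simp only [ochs]
        rw [getD_at h1]
      rw [h3]
      exact RSp.split j b φ _ _ (u v) (u v) (u v) (by rw [zdg_len, hx])
    · rw [List.map_append, List.map_append, List.map_cons, List.map_cons, rst_split h1]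
    · rw [List.map_append, List.map_append, List.map_cons, List.map_cons, fs1_split h2]
    · simp only [List.length_append, List.length_cons] at hz ⊢
      omega
  | merge j =>
    simp only [bt] at h
    split_ifs at h with hj
    simp only [Option.some.injEq] at h
    obtain ⟨x, v, φ, w, ψ, y, rfl, hx⟩ := split2 z j (by omega)
    have h1 : (x.map Prod.fst).length = j := by rw [List.length_map, hx]
    have h2 : (x.map Prod.snd).length = j := by rw [List.length_map, hx]
    have h3 : φ = ψ := by
      have := hk
      rw [List.map_append, List.map_cons, List.map_cons] at this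
      simp only [ok1, bgetD0 h2, bgetD1 h2] at this
      exact this
    subst h3
    refine ⟨[0], x ++ (v, φ) :: y, by simp, ?_, ?_, ?_, ?_⟩
    · rw [List.map_append, List.map_cons, List.map_cons, rst_merge h1, zdg_app, zdg_app, zdg_cns,
        zdg_cns, zdg_cns]
      have h4 := RSp.merge (T := T) j b φ (zdg u x) (zdg u y) (u v) (u v) (u w) (u w)
        (by rw [zdg_len, hx])
      rw [sub_self, nf_z, add_zero] at h4
      exact h4
    · rw [List.map_append, List.map_append, List.map_cons, List.map_cons, List.map_cons, rst_merge h1]
    · rw [List.map_append, List.map_append, List.map_cons, List.map_cons, List.map_cons, fs1_merge h2]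
    · simp only [List.length_append, List.length_cons] at hz ⊢
      omega
  | twist p j =>
    simp only [bt] at h
    split_ifs at h with hj
    simp only [Option.some.injEq] at h
    obtain ⟨x, v, φ, y, rfl, hx⟩ := split1 z (j + 1) (by omega)
    have h1 : (x.map Prod.fst).length = j + 1 := by rw [List.length_map, hx]
    have h2 : (x.map Prod.snd).length = j + 1 := by rw [List.length_map, hx]
    refine ⟨[], x ++ (v, !φ) :: y, by simp, ?_, ?_, ?_, ?_⟩
    · rw [zdg_app, zdg_app, zdg_cns, zdg_cns]
      cases p
      · have h4 := RSp.twf (T := T) j b φ (zdg u x) (zdg u y) (u v) (u v) (by rw [zdg_len, hx])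
        rw [sub_self, map_zero, add_zero] at h4
        exact h4
      · have h4 := RSp.twt (T := T) j b φ (zdg u x) (zdg u y) (u v) (u v) (by rw [zdg_len, hx])
        rw [sub_self, map_zero, add_zero] at h4
        exact h4
    · rw [rst_twist, List.map_append, List.map_append]
      rfl
    · rw [List.map_append, List.map_append, List.map_cons, List.map_cons, fs1_twist h2]
    · simp only [List.length_append, List.length_cons] at hz ⊢
      omega
  | cross p j =>
    simp only [bt] at h
    split_ifs at h with hj
    simp only [Option.some.injEq] at h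
    obtain ⟨x, v, φ, w, ψ, y, rfl, hx⟩ := split2 z (j + 1) (by omega)
    have h1 : (x.map Prod.fst).length = j + 1 := by rw [List.length_map, hx]
    have h2 : (x.map Prod.snd).length = j + 1 := by rw [List.length_map, hx]
    refine ⟨[], x ++ (w, ψ) :: (v, φ) :: y, by simp, ?_, ?_, ?_, ?_⟩
    · rw [List.map_append, List.map_cons, List.map_cons, rst_cross h1, zdg_app, zdg_app, zdg_cns,
        zdg_cns, zdg_cns, zdg_cns]
      cases p
      · have h4 := RSp.crf (T := T) j b φ ψ (zdg u x) (zdg u y) (u v) (u v) (u w) (u w)
          (by rw [zdg_len, hx])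
        simp only [sub_self, map_zero, add_zero] at h4
        exact h4
      · have h4 := RSp.crt (T := T) j b φ ψ (zdg u x) (zdg u y) (u v) (u v) (u w) (u w)
          (by rw [zdg_len, hx])
        simp only [sub_self, map_zero, sub_zero] at h4
        exact h4
    · rw [List.map_append, List.map_append, List.map_cons, List.map_cons, List.map_cons,
        List.map_cons, rst_cross h1]
    · rw [List.map_append, List.map_append, List.map_cons, List.map_cons, List.map_cons,
        List.map_cons, fs1_cross h2]
    · simp only [List.length_append, List.length_cons] at hz ⊢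
      omega
  | passR p j =>
    simp only [bt] at h
    split_ifs at h with hj
    simp only [Option.some.injEq] at h
    obtain ⟨x, v, φ, w, ψ, y, rfl, hx⟩ := split2 z (j + 1) (by omega)
    have h1 : (x.map Prod.fst).length = j + 1 := by rw [List.length_map, hx]
    have h2 : (x.map Prod.snd).length = j + 1 := by rw [List.length_map, hx]
    refine ⟨[0], x ++ (w, ψ) :: (k, φ) :: y, by simp, ?_, ?_, ?_, ?_⟩
    · rw [List.map_append, List.map_cons, List.map_cons, rst_passR h1, List.map_append,
        List.map_cons, List.map_cons, fg1_passR h2, zdg_app, zdg_app, zdg_cns, zdg_cns, zdg_cns,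
        zdg_cns, rvw_one]
      cases p
      · have h4 := RSp.prf (T := T) j b φ ψ (zdg u x) (zdg u y) (u v) (u v) (u w) (u w) (u k)
          (by rw [zdg_len, hx])
        simp only [sub_self, map_zero, sub_zero, add_zero, pf_z, dfe_ps] at h4
        exact h4
      · have h4 := RSp.prt (T := T) j b φ ψ (zdg u x) (zdg u y) (u v) (u v) (u w) (u w) (u k)
          (by rw [zdg_len, hx])
        simp only [sub_self, map_zero, sub_zero, add_zero, pf_z, dfe_ps] at h4
        exact h4
    · rw [List.map_append, List.map_append, List.map_cons, List.map_cons, List.map_cons,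
        List.map_cons, rst_passR h1]
    · rw [List.map_append, List.map_append, List.map_cons, List.map_cons, List.map_cons,
        List.map_cons, fs1_passR h2]
    · simp only [List.length_append, List.length_cons] at hz ⊢
      omega
  | passL p j =>
    simp only [bt] at h
    split_ifs at h with hj
    simp only [Option.some.injEq] at h
    obtain ⟨x, v, φ, w, ψ, y, rfl, hx⟩ := split2 z (j + 1) (by omega)
    have h1 : (x.map Prod.fst).length = j + 1 := by rw [List.length_map, hx]
    have h2 : (x.map Prod.snd).length = j + 1 := by rw [List.length_map, hx]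
    refine ⟨[0], x ++ (k, ψ) :: (v, φ) :: y, by simp, ?_, ?_, ?_, ?_⟩
    · rw [List.map_append, List.map_cons, List.map_cons, rst_passL h1, List.map_append,
        List.map_cons, List.map_cons, fg1_passL h2, zdg_app, zdg_app, zdg_cns, zdg_cns, zdg_cns,
        zdg_cns, rvw_one]
      cases p
      · have h4 := RSp.plf (T := T) j b φ ψ (zdg u x) (zdg u y) (u v) (u v) (u w) (u w) (u k)
          (by rw [zdg_len, hx])
        simp only [sub_self, map_zero, sub_zero, add_zero, pf_z, dfe_ps] at h4
        exact h4
      · have h4 := RSp.plt (T := T) j b φ ψ (zdg u x) (zdg u y) (u v) (u v) (u w) (u w) (u k)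
          (by rw [zdg_len, hx])
        simp only [sub_self, map_zero, sub_zero, add_zero, pf_z, dfe_ps] at h4
        exact h4
    · rw [List.map_append, List.map_append, List.map_cons, List.map_cons, List.map_cons,
        List.map_cons, rst_passL h1]
    · rw [List.map_append, List.map_append, List.map_cons, List.map_cons, List.map_cons,
        List.map_cons, fs1_passL h2]
    · simp only [List.length_append, List.length_cons] at hz ⊢
      omega

theorem rev_diag (T : A ≃+ A) (x : ℕ → Bool) (S : List Bd) (n m k : ℕ) (h : bty S n = some m)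
    (z : List (ℕ × Bool)) (hz : z.length = n + 1) (hk : okk S k x (z.map Prod.snd)) (u : ℕ → A) :
    ∃ f z', (∀ y ∈ f, y = 0) ∧ REv T x S k (zdg u z) (ochw u S k (z.map Prod.fst)) f
      (rvw T u (rows S k (z.map Prod.fst)) (fgs S k x (z.map Prod.snd))) (zdg u z') := by
  induction S generalizing n k z with
  | nil => exact ⟨[], z, by simp, REv.nil _ _⟩
  | cons s S ih =>
    simp only [bty] at h
    cases hs : bt s n with
    | none => rw [hs] at h; simp at h
    | some m1 =>
      rw [hs, Option.bind_some] at h
      obtain ⟨f1, z1, g1, g2, g3, g4, g5⟩ := rsp_diag T s (x k) n m1 k hs z hz hk.1 u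
      have hk2 := hk.2
      rw [← g4] at hk2
      obtain ⟨f2, z2, l1, l2⟩ := ih m1 (k + bq0 s) h z1 g5 hk2
      refine ⟨f1 ++ f2, z2, ?_, ?_⟩
      · intro y hy
        rcases List.mem_append.1 hy with hy | hy
        · exact g1 y hy
        · exact l1 y hy
      · rw [g3, g4] at l2
        have e1 : rows (s :: S) k (z.map Prod.fst) = (rst s k (z.map Prod.fst)).1 ++
            rows S (k + bq0 s) (rst s k (z.map Prod.fst)).2.2 := rows_cons s S k _
        have e2 : rvw T u (rows (s :: S) k (z.map Prod.fst)) (fgs (s :: S) k x (z.map Prod.snd)) =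
            rvw T u (rst s k (z.map Prod.fst)).1 (fg1 s (z.map Prod.snd)) ++
              rvw T u (rows S (k + bq0 s) (rst s k (z.map Prod.fst)).2.2)
                (fgs S (k + bq0 s) x (fs1 s (x k) (z.map Prod.snd))) := by
          rw [e1, fgs]
          unfold rvw
          rw [List.zip_append (fg1_len s _ k _).symm, List.map_append]
        rw [e2]
        exact REv.cons s S k _ _ _ _ _ _ _ _ _ g2 l2

end Pool.Agent.H86.RU
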