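import Pool.Agent.H86.RU.REx1
import Pool.Agent.H86.RT.FacX

/-!
# Existence of relaxed colourings with given flows
-/

set_option autoImplicit false
set_option linter.unusedSectionVars false
set_option linter.unusedSimpArgs false

namespace Pool.Agent.H86.RU

open Pool.Agent.H86.RB Pool.Agent.H86.RT

variable {A : Type} [AddCommGroup A]

private theorem orf_app (T : A ≃+ A) (e : ℕ) {R : List Row} {g : List Bool} {f : List A}
    (R' : List Row) (g' : List Bool) (f' : List A) (h : R.length = f.length)
    (hg : g.length = f.length) :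
    orf T e (R ++ R') (g ++ g') (f ++ f') = orf T e R g f + orf T e R' g' f' := by
  unfold orf
  rw [List.zip_append (by rw [h, hg]), List.zip_append (by rw [List.length_zip]; omega),
    List.map_append, List.sum_append]

/-- rows that do not contain the name -/
theorem orf_far (T : A ≃+ A) (e : ℕ) (R : List Row) (g : List Bool) (f : List A)
    (h : ∀ r ∈ R, r.x < e ∧ r.y < e ∧ r.z < e) : orf T e R g f = 0 := by
  unfold orf
  apply List.sum_eq_zero
  intro a ha
  obtain ⟨q, hq, rfl⟩ := List.mem_map.1 ha
  have h1 := h q.1.1 (List.of_mem_zip (List.of_mem_zip hq).1).1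
  have h2 : ∀ b, cP b e q.1.1 = 0 ∧ cQ b e q.1.1 = 0 := by
    intro b
    cases hr : q.1.1 with
    | mg x y =>
      rw [hr] at h1
      simp only [Row.x, Row.y] at h1
      have n1 : ¬ e = x := by omega
      have n2 : ¬ e = y := by omega
      simp [cP, cQ, n1, n2]
    | ps x n y =>
      rw [hr] at h1
      simp only [Row.x, Row.y, Row.z] at h1
      have n1 : ¬ e = x := by omega
      have n2 : ¬ e = n := by omega
      have n3 : ¬ e = y := by omega
      cases b <;> simp [cP, cQ, n1, n2, n3]
  rw [(h2 _).1, (h2 _).2]
  simp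

theorem rev_ex (T : A ≃+ A) (x : ℕ → Bool) (S : List Bd) (n k : ℕ) (h : bty S n = some 0)
    (vs : List ℕ) (hvs : vs.length = n + 1) (φ : List Bool) (hφ : φ.length = n + 1)
    (hk : okk S k x φ) (h0 : 0 < k) (hv : ∀ v ∈ vs, v < k) (f : List A)
    (hf : f.length = (rows S k vs).length)
    (hker : ∀ e, k ≤ e → orf T e (rows S k vs) (fgs S k x φ) f = 0) :
    ∃ z : List (Bool × A), z.map Prod.fst = φ ∧ ∀ st, dst st = z →
      ∃ c r st', REv T x S k st c f r st' ∧ ∃ b, dst st' = [(b, (0 : A))] := by
  induction S generalizing n k vs φ f with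
  | nil =>
    simp only [bty, Option.some.injEq] at h
    subst h
    obtain ⟨a, rfl⟩ := List.length_eq_one_iff.1 hφ
    obtain rfl : f = [] := List.length_eq_zero_iff.1 hf
    refine ⟨[(a, 0)], rfl, fun st hst => ⟨_, _, _, REv.nil k st, a, hst⟩⟩
  | cons s S ih =>
    simp only [bty] at h
    cases hs : bt s n with
    | none => rw [hs] at h; simp at h
    | some m =>
      rw [hs, Option.bind_some] at h
      have hr : rows (s :: S) k vs = (rst s k vs).1 ++ rows S (k + bq0 s) (rst s k vs).2.2 :=
        rows_cons s S k vs
      have hvs1 : (rst s k vs).2.2.length = m + 1 := rst_len s k n m vs hs hvs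
      have hvlt := rst_lt s k vs h0 hv
      have hrlt := rst_row_lt s k vs h0 hv
      rw [rst_cnt] at hvlt hrlt
      have hbq : bq0 s = bp s := rfl
      have hfg : (fg1 s φ).length = (rst s k vs).1.length := fg1_len s φ k vs
      -- the facings above
      have hφ1 : (fs1 s (x k) φ).length = m + 1 := fs1_len s n m hs (x k) φ hφ
      obtain ⟨f1, f2, rfl, hf1⟩ : ∃ f1 f2, f = f1 ++ f2 ∧ f1.length = (rst s k vs).1.length :=
        ⟨f.take (rst s k vs).1.length, f.drop (rst s k vs).1.length,
          (List.take_append_drop _ f).symm, by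
            rw [hr, List.length_append] at hf
            rw [List.length_take]; omega⟩
      have hf2 : f2.length = (rows S (k + bq0 s) (rst s k vs).2.2).length := by
        rw [hr, List.length_append, List.length_append] at hf
        omega
      have hsplit : ∀ e, orf T e (rows (s :: S) k vs) (fgs (s :: S) k x φ) (f1 ++ f2) =
          orf T e (rst s k vs).1 (fg1 s φ) f1 +
            orf T e (rows S (k + bq0 s) (rst s k vs).2.2) (fgs S (k + bq0 s) x (fs1 s (x k) φ)) f2 := by
        intro e
        rw [hr, fgs, orf_app T e _ _ _ hf1.symm (by rw [hfg, hf1])]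
      have hker2 : ∀ e, k + bq0 s ≤ e → orf T e (rows S (k + bq0 s) (rst s k vs).2.2)
          (fgs S (k + bq0 s) x (fs1 s (x k) φ)) f2 = 0 := by
        intro e he
        have h1 := hker e (by omega)
        rw [hsplit, orf_far T e _ _ _ (fun r hr => by
          have := hrlt r hr
          omega), zero_add] at h1
        exact h1
      obtain ⟨z1, hz1, hz1'⟩ := ih m (k + bq0 s) h (rst s k vs).2.2 hvs1 (fs1 s (x k) φ) hφ1 hk.2
        (by omega) (fun v hv' => by have := hvlt v hv'; omega) f2 hf2 hker2
      -- the flows above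
      have hflow : ∀ e, 0 < e → dpt T e (rst s k vs).2.2 z1 =
          orf T e (rows S (k + bq0 s) (rst s k vs).2.2) (fgs S (k + bq0 s) x (fs1 s (x k) φ)) f2 := by
        intro e he
        set st1 : List (Bool × A × A) := z1.map (fun p => (p.1, 0, p.2)) with hst1
        have hd : dst st1 = z1 := by
          rw [hst1, dst, List.map_map]
          conv_rhs => rw [← List.map_id z1]
          apply List.map_congr_left
          intro p _
          simp
        obtain ⟨c, r, st', g1, b, g2⟩ := hz1' st1 hd
        have hlen : (rst s k vs).2.2.length = st1.length := by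
          rw [hvs1, ← dst_len, hd, ← List.length_map (f := Prod.fst), hz1, hφ1]
        obtain ⟨_, _, g5, _, _, g6⟩ := rev_flow g1 (rst s k vs).2.2 hlen
        have h1 := g6 e
        rw [opt_dst, hd, fcs_dst, hd, hz1, opt_dst T e _ st', g2] at h1
        rw [h1]
        have h2 : dpt T e (nms S (k + bq0 s) (rst s k vs).2.2) [(b, (0 : A))] = 0 := by
          unfold dpt
          apply List.sum_eq_zero
          intro a ha
          obtain ⟨q, hq, rfl⟩ := List.mem_map.1 ha
          have h3 := (List.of_mem_zip hq).2
          rw [List.mem_singleton] at h3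
          rw [h3]
          cases b <;> simp [nf]
        rw [h2, add_zero]
      obtain ⟨z, hz, hz'⟩ := rsp_ex T s (x k) n m k hs vs hvs φ hφ hk.1 z1 hz1 f1 hf1 hv (by
        intro e he
        rw [hflow e (by omega), ← hsplit, hker e he])
      refine ⟨z, hz, fun st hst => ?_⟩
      obtain ⟨c1, r1, st1, g1, g2⟩ := hz' st hst
      obtain ⟨c2, r2, st', g3, g4⟩ := hz1' st1 g2
      exact ⟨_, _, _, REv.cons s S k _ _ _ _ _ _ _ _ _ g1 g3, g4⟩

end Pool.Agent.H86.RU
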