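import Pool.Agent.H86.RU.RFlo

/-!
# Existence of relaxed colourings with given flows: one slice
-/

set_option autoImplicit false
set_option linter.unusedSectionVars false
set_option linter.unusedSimpArgs false

namespace Pool.Agent.H86.RU

open Pool.Agent.H86.RB Pool.Agent.H86.RT

variable {A : Type} [AddCommGroup A]

theorem dpt_app (T : A ≃+ A) (e : ℕ) {v1 : List ℕ} {x : List (Bool × A)} (v2 : List ℕ)
    (y : List (Bool × A)) (h : v1.length = x.length) :
    dpt T e (v1 ++ v2) (x ++ y) = dpt T e v1 x + dpt T e v2 y := by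
  unfold dpt
  rw [List.zip_append h, List.map_append, List.sum_append]

theorem dpt_cons (T : A ≃+ A) (e v : ℕ) (vs : List ℕ) (φ : Bool) (d : A) (y : List (Bool × A)) :
    dpt T e (v :: vs) ((φ, d) :: y) = (if e = v then nf T φ d else 0) + dpt T e vs y := by
  simp [dpt]

theorem dpt_lt (T : A ≃+ A) (e : ℕ) (vs : List ℕ) (z : List (Bool × A)) (h : ∀ v ∈ vs, v < e) :
    dpt T e vs z = 0 := by
  unfold dpt
  apply List.sum_eq_zero
  intro a ha
  obtain ⟨q, hq, rfl⟩ := List.mem_map.1 ha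
  rw [if_neg]
  have := h q.1 (List.of_mem_zip hq).1
  omega

theorem orf_one' (T : A ≃+ A) (e : ℕ) (r : Row) (g : Bool) (a : A) :
    orf T e [r] [g] [a] = cP (!g) e r • a + T (cQ (!g) e r • a) := by
  simp [orf]

private theorem nf_eq_zero {T : A ≃+ A} {φ : Bool} {x : A} (h : nf T φ x = 0) : x = 0 := by
  cases φ
  · simpa [nf] using h
  · simpa [nf] using h

/-- the new piece of a pass -/
private theorem new_ps (T : A ≃+ A) (ρ α : Bool) (v k w : ℕ) (hv : v < k) (hw : w < k) (g d : A)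
    (h : 0 = (cP (!ρ) k (.ps v k w) • g + T (cQ (!ρ) k (.ps v k w) • g)) + nf T α d) :
    pf T ρ α (ax T (!ρ) d) = g := by
  have h1 : k ≠ v := by omega
  have h2 : k ≠ w := by omega
  cases ρ
  · simp only [Bool.not_false, cP, cQ, if_true, if_neg h1, if_neg h2, sub_zero, zero_sub, zero_smul,
      map_zero, add_zero, neg_smul, one_smul] at h
    have h3 : nf T α d = g := by
      have := h.symm
      rw [neg_add_eq_zero] at this
      exact this.symm
    rw [← h3]
    cases α
    · simp [pf, nf, ax_true]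
    · simp [pf, nf, ax_true]
  · simp only [Bool.not_true, cP, cQ, Bool.false_eq_true, if_false, if_true, if_neg h1, if_neg h2,
      sub_zero, zero_sub, zero_smul, zero_add, neg_smul, one_smul, map_neg] at h
    have h3 : nf T α d = T g := by
      have := h.symm
      rw [neg_add_eq_zero] at this
      exact this.symm
    have h4 : g = T.symm (nf T α d) := by rw [h3, T.symm_apply_apply]
    rw [h4]
    cases α
    · simp [pf, nf, ax_false]
    · simp [pf, nf, ax_false]

private theorem cut0 {α : Type} (z : List α) (i : ℕ) (h : i ≤ z.length) :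
    ∃ x y, z = x ++ y ∧ x.length = i :=
  ⟨z.take i, z.drop i, (List.take_append_drop i z).symm, by rw [List.length_take]; omega⟩

private theorem cut1 {α : Type} (z : List α) (i : ℕ) (h : i + 1 ≤ z.length) :
    ∃ x a y, z = x ++ a :: y ∧ x.length = i := by
  obtain ⟨x, y, rfl, hx⟩ := cut0 z i (by omega)
  rw [List.length_append] at h
  match y, h with
  | a :: y, _ => exact ⟨x, a, y, rfl, hx⟩
  | [], h => simp at h; omega

private theorem cut2 {α : Type} (z : List α) (i : ℕ) (h : i + 2 ≤ z.length) :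
    ∃ x a b y, z = x ++ a :: b :: y ∧ x.length = i := by
  obtain ⟨x, y, rfl, hx⟩ := cut0 z i (by omega)
  rw [List.length_append] at h
  match y, h with
  | a :: b :: y, _ => exact ⟨x, a, b, y, rfl, hx⟩
  | [_], h => simp at h; omega
  | [], h => simp at h; omega

private theorem zapp {z : List (Bool × A)} {x y : List Bool} (h : z.map Prod.fst = x ++ y) :
    ∃ zx zy, z = zx ++ zy ∧ zx.map Prod.fst = x ∧ zy.map Prod.fst = y :=
  List.map_eq_append_iff.1 h

private theorem zcons {z : List (Bool × A)} {a : Bool} {y : List Bool} (h : z.map Prod.fst = a :: y) :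
    ∃ d zy, z = (a, d) :: zy ∧ zy.map Prod.fst = y := by
  obtain ⟨⟨b, d⟩, zy, h1, h2, h3⟩ := List.map_eq_cons_iff.1 h
  simp only at h2
  subst h2
  exact ⟨d, zy, h1, h3⟩

private theorem sapp {st : List (Bool × A × A)} {x y : List (Bool × A)} (h : dst st = x ++ y) :
    ∃ sx sy, st = sx ++ sy ∧ dst sx = x ∧ dst sy = y :=
  List.map_eq_append_iff.1 h

private theorem scons {st : List (Bool × A × A)} {a : Bool} {d : A} {y : List (Bool × A)}
    (h : dst st = (a, d) :: y) : ∃ l sy, st = (a, l, l + d) :: sy ∧ dst sy = y := by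
  obtain ⟨⟨b, l, r⟩, sy, h1, h2, h3⟩ := List.map_eq_cons_iff.1 h
  simp only [Prod.mk.injEq] at h2
  obtain ⟨rfl, rfl⟩ := h2
  exact ⟨l, sy, by rw [h1]; congr 3; abel, h3⟩

theorem rsp_ex (T : A ≃+ A) (s : Bd) (b : Bool) (n m k : ℕ) (h : bt s n = some m) (vs : List ℕ)
    (hvs : vs.length = n + 1) (φ : List Bool) (hφ : φ.length = n + 1) (hk : ok1 s φ)
    (z1 : List (Bool × A)) (hz1 : z1.map Prod.fst = fs1 s b φ) (f1 : List A)
    (hf1 : f1.length = (rst s k vs).1.length) (hv : ∀ v ∈ vs, v < k)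
    (hnew : ∀ e, k ≤ e →
      0 = orf T e (rst s k vs).1 (fg1 s φ) f1 + dpt T e (rst s k vs).2.2 z1) :
    ∃ z : List (Bool × A), z.map Prod.fst = φ ∧ ∀ st, dst st = z →
      ∃ c r st1, RSp T s b st c f1 r st1 ∧ dst st1 = z1 := by
  cases s with
  | birth j =>
    simp only [bt] at h
    split_ifs at h with hj
    obtain ⟨x, y, rfl, hx⟩ := cut0 φ (j + 1) (by omega)
    obtain ⟨v1, v2, rfl, hv1⟩ := cut0 vs (j + 1) (by omega)
    rw [fs1_birth hx] at hz1
    obtain ⟨zx, zy', rfl, q1, q2⟩ := zapp hz1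
    obtain ⟨d, zy, rfl, q3⟩ := zcons q2
    have hzx : zx.length = j + 1 := by rw [← hx, ← q1, List.length_map]
    rw [rst_birth hv1] at hf1 hnew
    have hn := hnew k le_rfl
    obtain rfl : f1 = [] := List.length_eq_zero_iff.1 hf1
    have e0 : orf T k [] (fg1 (.birth j) (x ++ y)) [] = 0 := rfl
    rw [e0, zero_add, dpt_app T k _ _ (by rw [hv1, hzx]), dpt_cons, if_pos rfl,
      dpt_lt T k v1 _ (fun v hv' => hv v (List.mem_append_left _ hv')),
      dpt_lt T k v2 _ (fun v hv' => hv v (List.mem_append_right _ hv')), zero_add, add_zero] at hn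
    obtain rfl : d = 0 := nf_eq_zero hn.symm
    refine ⟨zx ++ zy, by rw [List.map_append, q1, q3], fun st hst => ?_⟩
    obtain ⟨sx, sy, rfl, r1, r2⟩ := sapp hst
    refine ⟨_, _, _, RSp.birth j b sx sy 0 (by rw [← dst_len, r1, hzx]), ?_⟩
    rw [dst_app, dst_cons, r1, r2, sub_self]
  | death j =>
    simp only [bt] at h
    split_ifs at h with hj
    obtain ⟨x, a, y, rfl, hx⟩ := cut1 φ (j + 1) (by omega)
    obtain ⟨v1, v, v2, rfl, hv1⟩ := cut1 vs (j + 1) (by omega)
    rw [fs1_death hx] at hz1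
    obtain ⟨zx, zy, rfl, q1, q2⟩ := zapp hz1
    have hzx : zx.length = j + 1 := by rw [← hx, ← q1, List.length_map]
    rw [rst_death hv1] at hf1
    obtain rfl : f1 = [] := List.length_eq_zero_iff.1 hf1
    refine ⟨zx ++ (a, 0) :: zy, by rw [List.map_append, List.map_cons, q1, q2], fun st hst => ?_⟩
    obtain ⟨sx, sy', rfl, r1, r2⟩ := sapp hst
    obtain ⟨l, sy, rfl, r3⟩ := scons r2
    rw [add_zero]
    refine ⟨_, _, _, RSp.death j b a sx sy l (by rw [← dst_len, r1, hzx]), ?_⟩
    rw [dst_app, r1, r3]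
  | split j =>
    simp only [bt] at h
    split_ifs at h with hj
    obtain ⟨x, a, y, rfl, hx⟩ := cut1 φ j (by omega)
    obtain ⟨v1, v, v2, rfl, hv1⟩ := cut1 vs j (by omega)
    rw [fs1_split hx] at hz1
    obtain ⟨zx, zy', rfl, q1, q2⟩ := zapp hz1
    obtain ⟨d1, zy'', rfl, q3⟩ := zcons q2
    obtain ⟨d2, zy, rfl, q4⟩ := zcons q3
    have hzx : zx.length = j := by rw [← hx, ← q1, List.length_map]
    rw [rst_split hv1] at hf1
    obtain rfl : f1 = [] := List.length_eq_zero_iff.1 hf1
    refine ⟨zx ++ (a, d1 + d2) :: zy, by rw [List.map_append, List.map_cons, q1, q4],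
      fun st hst => ?_⟩
    obtain ⟨sx, sy', rfl, r1, r2⟩ := sapp hst
    obtain ⟨l, sy, rfl, r3⟩ := scons r2
    refine ⟨_, _, _, RSp.split j b a sx sy l (l + (d1 + d2)) (l + d1) (by rw [← dst_len, r1, hzx]), ?_⟩
    rw [dst_app, dst_cons, dst_cons, r1, r3]
    congr 4 <;> abel
  | merge j =>
    simp only [bt] at h
    split_ifs at h with hj
    obtain ⟨x, a, a', y, rfl, hx⟩ := cut2 φ j (by omega)
    obtain ⟨v1, v, w, v2, rfl, hv1⟩ := cut2 vs j (by omega)
    have haa : a = a' := by
      simp only [ok1, bgetD0 hx, bgetD1 hx] at hk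
      exact hk
    subst haa
    rw [fs1_merge hx] at hz1
    obtain ⟨zx, zy', rfl, q1, q2⟩ := zapp hz1
    obtain ⟨d, zy, rfl, q3⟩ := zcons q2
    have hzx : zx.length = j := by rw [← hx, ← q1, List.length_map]
    rw [rst_merge hv1] at hf1
    obtain ⟨g, rfl⟩ := List.length_eq_one_iff.1 hf1
    obtain ⟨d2, hd2⟩ : ∃ d2, nf T a (-d2) = g := by
      cases a
      · exact ⟨T.symm g, by simp [nf]⟩
      · exact ⟨-g, by simp [nf]⟩
    refine ⟨zx ++ (a, d - d2) :: (a, d2) :: zy, by
      rw [List.map_append, List.map_cons, List.map_cons, q1, q3], fun st hst => ?_⟩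
    obtain ⟨sx, sy', rfl, r1, r2⟩ := sapp hst
    obtain ⟨l, sy'', rfl, r3⟩ := scons r2
    obtain ⟨l', sy, rfl, r4⟩ := scons r3
    have h1 := RSp.merge (T := T) j b a sx sy l (l + (d - d2)) l' (l' + d2)
      (by rw [← dst_len, r1, hzx])
    rw [show l' - (l' + d2) = -d2 by abel, hd2] at h1
    refine ⟨_, _, _, h1, ?_⟩
    rw [dst_app, dst_cons, r1, r4]
    congr 3; abel
  | twist p j =>
    simp only [bt] at h
    split_ifs at h with hj
    obtain ⟨x, a, y, rfl, hx⟩ := cut1 φ (j + 1) (by omega)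
    rw [fs1_twist hx] at hz1
    obtain ⟨zx, zy', rfl, q1, q2⟩ := zapp hz1
    obtain ⟨d, zy, rfl, q3⟩ := zcons q2
    have hzx : zx.length = j + 1 := by rw [← hx, ← q1, List.length_map]
    obtain rfl : f1 = [] := List.length_eq_zero_iff.1 hf1
    have e1 : ax T (!a) (-(ax T a d)) = -d := by rw [map_neg, ax_not']
    refine ⟨zx ++ (a, -(ax T a d)) :: zy, by rw [List.map_append, List.map_cons, q1, q3],
      fun st hst => ?_⟩
    obtain ⟨sx, sy', rfl, r1, r2⟩ := sapp hst
    obtain ⟨l, sy, rfl, r3⟩ := scons r2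
    cases p
    · have h1 := RSp.twf (T := T) j b a sx sy l (l + -(ax T a d)) (by rw [← dst_len, r1, hzx])
      refine ⟨_, _, _, h1, ?_⟩
      rw [dst_app, dst_cons, r1, r3,
        show l + -(ax T a d) + ax T (!a) (l - (l + -(ax T a d))) - (l + -(ax T a d)) =
          ax T (!a) (l - (l + -(ax T a d))) by abel,
        show l - (l + -(ax T a d)) = -(-(ax T a d)) by abel, map_neg, e1, neg_neg]
    · have h1 := RSp.twt (T := T) j b a sx sy l (l + -(ax T a d)) (by rw [← dst_len, r1, hzx])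
      refine ⟨_, _, _, h1, ?_⟩
      rw [dst_app, dst_cons, r1, r3, show l + -(ax T a d) - l = -(ax T a d) by abel, e1]
      congr 3; abel
  | cross p j =>
    simp only [bt] at h
    split_ifs at h with hj
    obtain ⟨x, a, c, y, rfl, hx⟩ := cut2 φ (j + 1) (by omega)
    obtain ⟨v1, v, w, v2, rfl, hv1⟩ := cut2 vs (j + 1) (by omega)
    rw [fs1_cross hx] at hz1
    obtain ⟨zx, zy', rfl, q1, q2⟩ := zapp hz1
    obtain ⟨dc, zy'', rfl, q3⟩ := zcons q2
    obtain ⟨da, zy, rfl, q4⟩ := zcons q3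
    have hzx : zx.length = j + 1 := by rw [← hx, ← q1, List.length_map]
    rw [rst_cross hv1] at hf1
    obtain rfl : f1 = [] := List.length_eq_zero_iff.1 hf1
    refine ⟨zx ++ (a, da) :: (c, dc) :: zy, by
      rw [List.map_append, List.map_cons, List.map_cons, q1, q4], fun st hst => ?_⟩
    obtain ⟨sx, sy', rfl, r1, r2⟩ := sapp hst
    obtain ⟨l, sy'', rfl, r3⟩ := scons r2
    obtain ⟨l', sy, rfl, r4⟩ := scons r3
    cases p
    · refine ⟨_, _, _, RSp.crf (T := T) j b a c sx sy l (l + da) l' (l' + dc)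
        (by rw [← dst_len, r1, hzx]), ?_⟩
      rw [dst_app, dst_cons, dst_cons, r1, r4]
      congr 4 <;> abel
    · refine ⟨_, _, _, RSp.crt (T := T) j b a c sx sy l (l + da) l' (l' + dc)
        (by rw [← dst_len, r1, hzx]), ?_⟩
      rw [dst_app, dst_cons, dst_cons, r1, r4]
      congr 4 <;> abel
  | passR p j =>
    simp only [bt] at h
    split_ifs at h with hj
    obtain ⟨x, a, c, y, rfl, hx⟩ := cut2 φ (j + 1) (by omega)
    obtain ⟨v1, v, w, v2, rfl, hv1⟩ := cut2 vs (j + 1) (by omega)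
    rw [fs1_passR hx] at hz1
    obtain ⟨zx, zy', rfl, q1, q2⟩ := zapp hz1
    obtain ⟨dc, zy'', rfl, q3⟩ := zcons q2
    obtain ⟨da, zy, rfl, q4⟩ := zcons q3
    have hzx : zx.length = j + 1 := by rw [← hx, ← q1, List.length_map]
    rw [rst_passR hv1] at hf1 hnew
    obtain ⟨g, rfl⟩ := List.length_eq_one_iff.1 hf1
    have hvk : v < k := hv v (by simp)
    have hwk : w < k := hv w (by simp)
    have hn := hnew k le_rfl
    have hkw : ¬ k = w := by omega
    rw [fg1_passR hx, orf_one', dpt_app T k _ _ (by rw [hv1, hzx]), dpt_cons, dpt_cons,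
      if_pos (rfl : k = k), if_neg hkw, dpt_lt T k v1 _ (fun u hu => hv u (by simp [hu])),
      dpt_lt T k v2 _ (fun u hu => hv u (by simp [hu])), zero_add, zero_add, add_zero] at hn
    have hg := new_ps T _ a v k w hvk hwk g da hn
    cases p
    · simp only [Bool.false_eq_true, if_false] at hg
      refine ⟨zx ++ (a, ax T (!c) da) :: (c, dc + (ax T c (ax T (!c) da) -
        ax T (!a) (ax T c (ax T (!c) da)))) :: zy, by
        rw [List.map_append, List.map_cons, List.map_cons, q1, q4], fun st hst => ?_⟩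
      obtain ⟨sx, sy', rfl, r1, r2⟩ := sapp hst
      obtain ⟨l, sy'', rfl, r3⟩ := scons r2
      obtain ⟨l', sy, rfl, r4⟩ := scons r3
      have h1 := RSp.prf (T := T) j b a c sx sy l (l + ax T (!c) da) l' (l' + (dc +
        (ax T c (ax T (!c) da) - ax T (!a) (ax T c (ax T (!c) da))))) 0 (by rw [← dst_len, r1, hzx])
      rw [show l + ax T (!c) da - l = ax T (!c) da by abel, hg] at h1
      refine ⟨_, _, _, h1, ?_⟩
      rw [dst_app, dst_cons, dst_cons, r1, r4, ax_not]
      congr 4 <;> abel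
    · simp only [if_true] at hg
      rw [Bool.not_not] at hg
      refine ⟨zx ++ (a, ax T c da) :: (c, dc - (ax T c da - ax T (!a) (ax T c da))) :: zy, by
        rw [List.map_append, List.map_cons, List.map_cons, q1, q4], fun st hst => ?_⟩
      obtain ⟨sx, sy', rfl, r1, r2⟩ := sapp hst
      obtain ⟨l, sy'', rfl, r3⟩ := scons r2
      obtain ⟨l', sy, rfl, r4⟩ := scons r3
      have h1 := RSp.prt (T := T) j b a c sx sy l (l + ax T c da) l' (l' + (dc -
        (ax T c da - ax T (!a) (ax T c da)))) 0 (by rw [← dst_len, r1, hzx])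
      rw [show l + ax T c da - l = ax T c da by abel, hg] at h1
      refine ⟨_, _, _, h1, ?_⟩
      rw [dst_app, dst_cons, dst_cons, r1, r4, ax_not']
      congr 4 <;> abel
  | passL p j =>
    simp only [bt] at h
    split_ifs at h with hj
    obtain ⟨x, a, c, y, rfl, hx⟩ := cut2 φ (j + 1) (by omega)
    obtain ⟨v1, v, w, v2, rfl, hv1⟩ := cut2 vs (j + 1) (by omega)
    rw [fs1_passL hx] at hz1
    obtain ⟨zx, zy', rfl, q1, q2⟩ := zapp hz1
    obtain ⟨dc, zy'', rfl, q3⟩ := zcons q2
    obtain ⟨da, zy, rfl, q4⟩ := zcons q3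
    have hzx : zx.length = j + 1 := by rw [← hx, ← q1, List.length_map]
    rw [rst_passL hv1] at hf1 hnew
    obtain ⟨g, rfl⟩ := List.length_eq_one_iff.1 hf1
    have hvk : v < k := hv v (by simp)
    have hwk : w < k := hv w (by simp)
    have hn := hnew k le_rfl
    have hkv : ¬ k = v := by omega
    rw [fg1_passL hx, orf_one', dpt_app T k _ _ (by rw [hv1, hzx]), dpt_cons, dpt_cons,
      if_pos (rfl : k = k), if_neg hkv, dpt_lt T k v1 _ (fun u hu => hv u (by simp [hu])),
      dpt_lt T k v2 _ (fun u hu => hv u (by simp [hu])), zero_add, add_zero, add_zero] at hn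
    have hg := new_ps T _ c w k v hwk hvk g dc hn
    cases p
    · simp only [Bool.false_eq_true, if_false] at hg
      rw [Bool.not_not] at hg
      refine ⟨zx ++ (a, da - (ax T a dc - ax T (!c) (ax T a dc))) :: (c, ax T a dc) :: zy, by
        rw [List.map_append, List.map_cons, List.map_cons, q1, q4], fun st hst => ?_⟩
      obtain ⟨sx, sy', rfl, r1, r2⟩ := sapp hst
      obtain ⟨l, sy'', rfl, r3⟩ := scons r2
      obtain ⟨l', sy, rfl, r4⟩ := scons r3
      have h1 := RSp.plf (T := T) j b a c sx sy l (l + (da - (ax T a dc - ax T (!c) (ax T a dc)))) l'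
        (l' + ax T a dc) 0 (by rw [← dst_len, r1, hzx])
      rw [show l' + ax T a dc - l' = ax T a dc by abel, hg] at h1
      refine ⟨_, _, _, h1, ?_⟩
      rw [dst_app, dst_cons, dst_cons, r1, r4, ax_not']
      congr 4 <;> abel
    · simp only [if_true] at hg
      refine ⟨zx ++ (a, da + (ax T a (ax T (!a) dc) - ax T (!c) (ax T a (ax T (!a) dc)))) ::
        (c, ax T (!a) dc) :: zy, by
        rw [List.map_append, List.map_cons, List.map_cons, q1, q4], fun st hst => ?_⟩
      obtain ⟨sx, sy', rfl, r1, r2⟩ := sapp hst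
      obtain ⟨l, sy'', rfl, r3⟩ := scons r2
      obtain ⟨l', sy, rfl, r4⟩ := scons r3
      have h1 := RSp.plt (T := T) j b a c sx sy l (l + (da + (ax T a (ax T (!a) dc) -
        ax T (!c) (ax T a (ax T (!a) dc))))) l' (l' + ax T (!a) dc) 0 (by rw [← dst_len, r1, hzx])
      rw [show l' + ax T (!a) dc - l' = ax T (!a) dc by abel, hg] at h1
      refine ⟨_, _, _, h1, ?_⟩
      rw [dst_app, dst_cons, dst_cons, r1, r4, ax_not]
      congr 4 <;> abel

end Pool.Agent.H86.RU
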