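import Pool.Agent.H86.RU.RDefs

/-!
# Relaxed colourings and homomorphisms
-/

set_option autoImplicit false

namespace Pool.Agent.H86.RU

open Pool.Agent.H86.RB Pool.Agent.H86.RT

variable {A B : Type} [AddCommGroup A] [AddCommGroup B]

/-- image of a state -/
def omp (g : A →+ B) (st : List (Bool × A × A)) : List (Bool × B × B) :=
  st.map (fun p => (p.1, g p.2.1, g p.2.2))

private theorem omp_app (g : A →+ B) (x y : List (Bool × A × A)) : omp g (x ++ y) = omp g x ++ omp g y := by
  simp [omp]

private theorem omp_cons (g : A →+ B) (φ : Bool) (a b : A) (y : List (Bool × A × A)) :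
    omp g ((φ, a, b) :: y) = (φ, g a, g b) :: omp g y := rfl

private theorem omp_len (g : A →+ B) (x : List (Bool × A × A)) : (omp g x).length = x.length := by
  simp [omp]

private theorem rsp_map {T : A ≃+ A} {T' : B ≃+ B} {g : A →+ B} (hg : ∀ a, g (T a) = T' (g a))
    {s : Bd} {b0 : Bool} {st st' : List (Bool × A × A)} {c f r : List A}
    (h : RSp T s b0 st c f r st') :
    RSp T' s b0 (omp g st) (c.map g) (f.map g) (r.map g) (omp g st') := by
  have hs : ∀ a, g (T.symm a) = T'.symm (g a) := by
    intro a
    rw [AddEquiv.eq_symm_apply, ← hg, T.apply_symm_apply]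
  have hax : ∀ o a, g (ax T o a) = ax T' o (g a) := by
    intro o a
    cases o
    · exact hs a
    · exact hg a
  have hnf : ∀ φ a, g (nf T φ a) = nf T' φ (g a) := by
    intro φ a
    cases φ
    · simp [nf, hg]
    · simp [nf]
  have hpf : ∀ ρ φ a, g (pf T ρ φ a) = pf T' ρ φ (g a) := by
    intro ρ φ a
    cases ρ
    · simp [pf, hnf, hs]
    · simp [pf, hnf]
  have hdf : ∀ ρ a, g (dfe T ρ a) = dfe T' ρ (g a) := by
    intro ρ a
    cases ρ
    · simp [dfe, hg]
    · simp [dfe]
  cases h with
  | birth j b x y c hx =>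
    rw [omp_app, omp_app, omp_cons]
    exact RSp.birth j _ _ _ _ (by rw [omp_len]; exact hx)
  | death j b φ x y c hx =>
    rw [omp_app, omp_app, omp_cons]
    exact RSp.death j _ _ _ _ _ (by rw [omp_len]; exact hx)
  | split j b φ x y a d c hx =>
    simp only [omp_app, omp_cons]
    exact RSp.split j _ _ _ _ _ _ _ (by rw [omp_len]; exact hx)
  | merge j b0 φ x y a b c d hx =>
    simp only [omp_app, omp_cons, List.map_cons, List.map_nil, hnf, map_sub, map_add]
    exact RSp.merge j _ _ _ _ _ _ _ _ (by rw [omp_len]; exact hx)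
  | twt j b φ x y a c hx =>
    simp only [omp_app, omp_cons, List.map_nil, hax, map_sub, map_add]
    have := RSp.twt (T := T') j b0 φ (omp g x) (omp g y) (g a) (g c) (by rw [omp_len]; exact hx)
    simpa only [map_sub] using this
  | twf j b φ x y a c hx =>
    simp only [omp_app, omp_cons, List.map_nil, hax, map_sub, map_add]
    have := RSp.twf (T := T') j b0 φ (omp g x) (omp g y) (g a) (g c) (by rw [omp_len]; exact hx)
    simpa only [map_sub] using this
  | crt j b0 φ ψ x y a b c d hx =>
    simp only [omp_app, omp_cons, List.map_nil, hax, map_sub, map_add]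
    have := RSp.crt (T := T') j b0 φ ψ (omp g x) (omp g y) (g a) (g b) (g c) (g d) (by rw [omp_len]; exact hx)
    simpa only [map_sub] using this
  | crf j b0 φ ψ x y a b c d hx =>
    simp only [omp_app, omp_cons, List.map_nil, hax, map_sub, map_add]
    have := RSp.crf (T := T') j b0 φ ψ (omp g x) (omp g y) (g a) (g b) (g c) (g d) (by rw [omp_len]; exact hx)
    simpa only [map_sub] using this
  | prt j b0 φ ψ x y a b c d e hx =>
    simp only [omp_app, omp_cons, List.map_cons, List.map_nil, hpf, hdf, hax, map_sub, map_add]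
    have := RSp.prt (T := T') j b0 φ ψ (omp g x) (omp g y) (g a) (g b) (g c) (g d) (g e)
      (by rw [omp_len]; exact hx)
    simpa only [map_sub] using this
  | prf j b0 φ ψ x y a b c d e hx =>
    simp only [omp_app, omp_cons, List.map_cons, List.map_nil, hpf, hdf, hax, map_sub, map_add]
    have := RSp.prf (T := T') j b0 φ ψ (omp g x) (omp g y) (g a) (g b) (g c) (g d) (g e)
      (by rw [omp_len]; exact hx)
    simpa only [map_sub] using this
  | plt j b0 φ ψ x y a b c d e hx =>
    simp only [omp_app, omp_cons, List.map_cons, List.map_nil, hpf, hdf, hax, map_sub, map_add]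
    have := RSp.plt (T := T') j b0 φ ψ (omp g x) (omp g y) (g a) (g b) (g c) (g d) (g e)
      (by rw [omp_len]; exact hx)
    simpa only [map_sub] using this
  | plf j b0 φ ψ x y a b c d e hx =>
    simp only [omp_app, omp_cons, List.map_cons, List.map_nil, hpf, hdf, hax, map_sub, map_add]
    have := RSp.plf (T := T') j b0 φ ψ (omp g x) (omp g y) (g a) (g b) (g c) (g d) (g e)
      (by rw [omp_len]; exact hx)
    simpa only [map_sub] using this

theorem rev_map {T : A ≃+ A} {T' : B ≃+ B} {g : A →+ B} (hg : ∀ a, g (T a) = T' (g a))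
    {x : ℕ → Bool} {S : List Bd} {k : ℕ} {st st' : List (Bool × A × A)} {c f r : List A}
    (h : REv T x S k st c f r st') :
    REv T' x S k (omp g st) (c.map g) (f.map g) (r.map g) (omp g st') := by
  induction h with
  | nil k st => exact REv.nil k _
  | cons s S k st st1 st2 c1 c2 f1 f2 r1 r2 h1 h2 ih =>
    rw [List.map_append, List.map_append, List.map_append]
    exact REv.cons s S k _ _ _ _ _ _ _ _ _ (rsp_map hg h1) ih

end Pool.Agent.H86.RU
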