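import Pool.Agent.H86.RU.RDefs

/-!
# Differences of relaxed colourings
-/

set_option autoImplicit false
set_option linter.unusedSectionVars false
set_option linter.unusedSimpArgs false

namespace Pool.Agent.H86.RU

open Pool.Agent.H86.RB Pool.Agent.H86.RT

variable {A : Type} [AddCommGroup A]

private theorem dfe_sub (T : A ≃+ A) (ρ : Bool) (x y : A) :
    dfe T ρ (x - y) = dfe T ρ x - dfe T ρ y := by
  cases ρ
  · simp only [dfe, Bool.false_eq_true, if_false, map_sub]
  · simp only [dfe, if_true]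

private theorem osb_app {x x' : List (Bool × A × A)} (y y' : List (Bool × A × A))
    (h : x.length = x'.length) : osb (x ++ y) (x' ++ y') = osb x x' ++ osb y y' := by
  unfold osb
  exact List.zipWith_append h

private theorem osb_cons (φ φ' : Bool) (a b a' b' : A) (y y' : List (Bool × A × A)) :
    osb ((φ, a, b) :: y) ((φ', a', b') :: y') = (φ, a - a', b - b') :: osb y y' := rfl

private theorem osb_len {x x' : List (Bool × A × A)} (h : x.length = x'.length) :
    (osb x x').length = x.length := by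
  simp [osb, h]

private theorem nf_sub (T : A ≃+ A) (φ : Bool) (x y : A) : nf T φ (x - y) = nf T φ x - nf T φ y := by
  cases φ
  · simp only [nf, Bool.false_eq_true, if_false, map_sub]; abel
  · simp [nf]

private theorem pf_sub (T : A ≃+ A) (ρ φ : Bool) (x y : A) :
    pf T ρ φ (x - y) = pf T ρ φ x - pf T ρ φ y := by
  cases ρ
  · simp only [pf, Bool.false_eq_true, if_false, nf_sub, map_sub]
  · simp only [pf, if_true, nf_sub]

private theorem fcs_app0 {x y x' y' : List (Bool × A × A)} (hx : x.length = x'.length)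
    (h : fcs (x ++ y) = fcs (x' ++ y')) : fcs x = fcs x' ∧ fcs y = fcs y' := by
  unfold fcs at h ⊢
  rw [List.map_append, List.map_append] at h
  exact List.append_inj h (by rw [List.length_map, List.length_map, hx])

private theorem fcs_app1 {x y x' y' : List (Bool × A × A)} {φ φ' : Bool} {a b a' b' : A}
    (hx : x.length = x'.length)
    (h : fcs (x ++ (φ, a, b) :: y) = fcs (x' ++ (φ', a', b') :: y')) :
    fcs x = fcs x' ∧ φ' = φ ∧ fcs y = fcs y' := by
  obtain ⟨h1, h2⟩ := fcs_app0 hx h
  simp only [fcs, List.map_cons, List.cons.injEq] at h2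
  exact ⟨h1, h2.1.symm, h2.2⟩

private theorem fcs_app2 {x y x' y' : List (Bool × A × A)} {φ φ' ψ ψ' : Bool}
    {a b a' b' c d c' d' : A} (hx : x.length = x'.length)
    (h : fcs (x ++ (φ, a, b) :: (ψ, c, d) :: y) = fcs (x' ++ (φ', a', b') :: (ψ', c', d') :: y')) :
    fcs x = fcs x' ∧ φ' = φ ∧ ψ' = ψ ∧ fcs y = fcs y' := by
  obtain ⟨h1, h2⟩ := fcs_app0 hx h
  simp only [fcs, List.map_cons, List.cons.injEq] at h2
  exact ⟨h1, h2.1.symm, h2.2.1.symm, h2.2.2⟩

private theorem fcs_mk {x y x' y' : List (Bool × A × A)} (h1 : fcs x = fcs x')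
    (h2 : fcs y = fcs y') : fcs (x ++ y) = fcs (x' ++ y') := by
  unfold fcs at *
  rw [List.map_append, List.map_append, h1, h2]

private theorem fcs_mkc {y y' : List (Bool × A × A)} (φ : Bool) (a b a' b' : A)
    (h2 : fcs y = fcs y') : fcs ((φ, a, b) :: y) = fcs ((φ, a', b') :: y') := by
  unfold fcs at *
  rw [List.map_cons, List.map_cons, h2]

private theorem rsp_sub {T : A ≃+ A} {s : Bd} {b0 : Bool} {st st' st2 st2' : List (Bool × A × A)}
    {c f r c2 f2 r2 : List A} (h : RSp T s b0 st c f r st') (h2 : RSp T s b0 st2 c2 f2 r2 st2')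
    (hl : fcs st = fcs st2) :
    RSp T s b0 (osb st st2) (sb c c2) (sb f f2) (sb r r2) (osb st' st2') ∧ fcs st' = fcs st2' ∧
      c.length = c2.length ∧ f.length = f2.length ∧ r.length = r2.length := by
  cases h with
  | birth j b x y c hx =>
    cases h2 with
    | birth _ _ x' y' c' hx' =>
      have hxx : x.length = x'.length := by omega
      obtain ⟨l1, l2⟩ := fcs_app0 hxx hl
      refine ⟨?_, fcs_mk l1 (fcs_mkc _ _ _ _ _ l2), rfl, rfl, rfl⟩
      rw [osb_app _ _ hxx, osb_app _ _ hxx]
      exact RSp.birth j b0 (osb x x') (osb y y') (c - c') (by rw [osb_len hxx, hx])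
  | death j b φ x y c hx =>
    cases h2 with
    | death _ _ φ' x' y' c' hx' =>
      have hxx : x.length = x'.length := by omega
      obtain ⟨l1, rfl, l2⟩ := fcs_app1 hxx hl
      refine ⟨?_, fcs_mk l1 l2, rfl, rfl, rfl⟩
      rw [osb_app _ _ hxx, osb_app _ _ hxx]
      exact RSp.death j b0 _ (osb x x') (osb y y') (c - c') (by rw [osb_len hxx, hx])
  | split j b φ x y a d c hx =>
    cases h2 with
    | split _ _ φ' x' y' a' d' c' hx' =>
      have hxx : x.length = x'.length := by omega
      obtain ⟨l1, rfl, l2⟩ := fcs_app1 hxx hl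
      refine ⟨?_, fcs_mk l1 (fcs_mkc _ _ _ _ _ (fcs_mkc _ _ _ _ _ l2)), rfl, rfl, rfl⟩
      rw [osb_app _ _ hxx, osb_app _ _ hxx]
      exact RSp.split j b0 _ (osb x x') (osb y y') (a - a') (d - d') (c - c')
        (by rw [osb_len hxx, hx])
  | merge j b φ x y a b c d hx =>
    cases h2 with
    | merge _ _ φ' x' y' a' b' c' d' hx' =>
      have hxx : x.length = x'.length := by omega
      obtain ⟨l1, rfl, _, l2⟩ := fcs_app2 hxx hl
      refine ⟨?_, fcs_mk l1 (fcs_mkc _ _ _ _ _ l2), rfl, rfl, rfl⟩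
      rw [osb_app _ _ hxx, osb_app _ _ hxx]
      have := RSp.merge (T := T) j b0 φ' (osb x x') (osb y y') (a - a') (b - b') (c - c') (d - d')
        (by rw [osb_len hxx, hx])
      rw [show nf T φ' ((c - c') - (d - d')) = nf T φ' (c - d) - nf T φ' (c' - d') by
        rw [← nf_sub]; congr 1; abel,
        show (b - b') - (c - c') = (b - c) - (b' - c') by abel,
        show (b - b') + ((d - d') - (c - c')) = (b + (d - c)) - (b' + (d' - c')) by abel] at this
      exact this
  | twt j b φ x y a c hx =>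
    cases h2 with
    | twt _ _ φ' x' y' a' c' hx' =>
      have hxx : x.length = x'.length := by omega
      obtain ⟨l1, rfl, l2⟩ := fcs_app1 hxx hl
      refine ⟨?_, fcs_mk l1 (fcs_mkc _ _ _ _ _ l2), rfl, rfl, rfl⟩
      rw [osb_app _ _ hxx, osb_app _ _ hxx]
      have := RSp.twt (T := T) j b0 φ' (osb x x') (osb y y') (a - a') (c - c')
        (by rw [osb_len hxx, hx])
      rw [show (a - a') + ax T (!φ') ((c - c') - (a - a')) =
        (a + ax T (!φ') (c - a)) - (a' + ax T (!φ') (c' - a')) by
        simp only [map_sub]; abel] at this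
      exact this
  | twf j b φ x y a c hx =>
    cases h2 with
    | twf _ _ φ' x' y' a' c' hx' =>
      have hxx : x.length = x'.length := by omega
      obtain ⟨l1, rfl, l2⟩ := fcs_app1 hxx hl
      refine ⟨?_, fcs_mk l1 (fcs_mkc _ _ _ _ _ l2), rfl, rfl, rfl⟩
      rw [osb_app _ _ hxx, osb_app _ _ hxx]
      have := RSp.twf (T := T) j b0 φ' (osb x x') (osb y y') (a - a') (c - c')
        (by rw [osb_len hxx, hx])
      rw [show (c - c') + ax T (!φ') ((a - a') - (c - c')) =
        (c + ax T (!φ') (a - c)) - (c' + ax T (!φ') (a' - c')) by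
        simp only [map_sub]; abel] at this
      exact this
  | crt j b φ ψ x y a b c d hx =>
    cases h2 with
    | crt _ _ φ' ψ' x' y' a' b' c' d' hx' =>
      have hxx : x.length = x'.length := by omega
      obtain ⟨l1, rfl, rfl, l2⟩ := fcs_app2 hxx hl
      refine ⟨?_, fcs_mk l1 (fcs_mkc _ _ _ _ _ (fcs_mkc _ _ _ _ _ l2)), rfl, rfl, rfl⟩
      rw [osb_app _ _ hxx, osb_app _ _ hxx]
      have := RSp.crt (T := T) j b0 φ' ψ' (osb x x') (osb y y') (a - a') (b - b') (c - c') (d - d')
        (by rw [osb_len hxx, hx])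
      rw [show (c - c') - (((b - b') - (a - a')) - ax T (!φ') ((b - b') - (a - a'))) =
        (c - ((b - a) - ax T (!φ') (b - a))) - (c' - ((b' - a') - ax T (!φ') (b' - a'))) by
          simp only [map_sub]; abel,
        show (d - d') - (((b - b') - (a - a')) - ax T (!φ') ((b - b') - (a - a'))) =
        (d - ((b - a) - ax T (!φ') (b - a))) - (d' - ((b' - a') - ax T (!φ') (b' - a'))) by
          simp only [map_sub]; abel] at this
      exact this
  | crf j b φ ψ x y a b c d hx =>
    cases h2 with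
    | crf _ _ φ' ψ' x' y' a' b' c' d' hx' =>
      have hxx : x.length = x'.length := by omega
      obtain ⟨l1, rfl, rfl, l2⟩ := fcs_app2 hxx hl
      refine ⟨?_, fcs_mk l1 (fcs_mkc _ _ _ _ _ (fcs_mkc _ _ _ _ _ l2)), rfl, rfl, rfl⟩
      rw [osb_app _ _ hxx, osb_app _ _ hxx]
      have := RSp.crf (T := T) j b0 φ' ψ' (osb x x') (osb y y') (a - a') (b - b') (c - c') (d - d')
        (by rw [osb_len hxx, hx])
      rw [show (a - a') + (((d - d') - (c - c')) - ax T (!ψ') ((d - d') - (c - c'))) =
        (a + ((d - c) - ax T (!ψ') (d - c))) - (a' + ((d' - c') - ax T (!ψ') (d' - c'))) by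
          simp only [map_sub]; abel,
        show (b - b') + (((d - d') - (c - c')) - ax T (!ψ') ((d - d') - (c - c'))) =
        (b + ((d - c) - ax T (!ψ') (d - c))) - (b' + ((d' - c') - ax T (!ψ') (d' - c'))) by
          simp only [map_sub]; abel] at this
      exact this
  | prt j b φ ψ x y a b c d e hx =>
    cases h2 with
    | prt _ _ φ' ψ' x' y' a' b' c' d' e' hx' =>
      have hxx : x.length = x'.length := by omega
      obtain ⟨l1, rfl, rfl, l2⟩ := fcs_app2 hxx hl
      refine ⟨?_, fcs_mk l1 (fcs_mkc _ _ _ _ _ (fcs_mkc _ _ _ _ _ l2)), rfl, rfl, rfl⟩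
      rw [osb_app _ _ hxx, osb_app _ _ hxx]
      have := RSp.prt (T := T) j b0 φ' ψ' (osb x x') (osb y y') (a - a') (b - b') (c - c') (d - d') (e - e')
        (by rw [osb_len hxx, hx])
      rw [show (c - c') - (((b - b') - (a - a')) - ax T (!φ') ((b - b') - (a - a'))) =
        (c - ((b - a) - ax T (!φ') (b - a))) - (c' - ((b' - a') - ax T (!φ') (b' - a'))) by
          simp only [map_sub]; abel,
        show dfe T (!ψ') ((d - d') + ax T (!ψ') ((a - a') - (d - d')) - (e - e')) = dfe T (!ψ') (d + ax T (!ψ') (a - d) - e) - dfe T (!ψ') (d' + ax T (!ψ') (a' - d') - e') by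
          rw [← dfe_sub]; congr 1; simp only [map_sub]; abel,
        show (e - e') + ax T (!ψ') ((b - b') - (a - a')) =
        (e + ax T (!ψ') (b - a)) - (e' + ax T (!ψ') (b' - a')) by
          simp only [map_sub]; abel,
        show pf T (!ψ') φ' ((b - b') - (a - a')) = pf T (!ψ') φ' (b - a) - pf T (!ψ') φ' (b' - a') by
          rw [← pf_sub]; congr 1; abel] at this
      exact this
  | prf j b φ ψ x y a b c d e hx =>
    cases h2 with
    | prf _ _ φ' ψ' x' y' a' b' c' d' e' hx' =>
      have hxx : x.length = x'.length := by omega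
      obtain ⟨l1, rfl, rfl, l2⟩ := fcs_app2 hxx hl
      refine ⟨?_, fcs_mk l1 (fcs_mkc _ _ _ _ _ (fcs_mkc _ _ _ _ _ l2)), rfl, rfl, rfl⟩
      rw [osb_app _ _ hxx, osb_app _ _ hxx]
      have := RSp.prf (T := T) j b0 φ' ψ' (osb x x') (osb y y') (a - a') (b - b') (c - c') (d - d') (e - e')
        (by rw [osb_len hxx, hx])
      rw [show (d - d') - (ax T ψ' ((b - b') - (a - a')) - ax T (!φ') (ax T ψ' ((b - b') - (a - a')))) =
        (d - (ax T ψ' (b - a) - ax T (!φ') (ax T ψ' (b - a)))) -
          (d' - (ax T ψ' (b' - a') - ax T (!φ') (ax T ψ' (b' - a')))) by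
          simp only [map_sub]; abel,
        show dfe T ψ' ((c - c') + ax T ψ' ((a - a') - (c - c')) - (e - e')) = dfe T ψ' (c + ax T ψ' (a - c) - e) - dfe T ψ' (c' + ax T ψ' (a' - c') - e') by
          rw [← dfe_sub]; congr 1; simp only [map_sub]; abel,
        show (e - e') + ax T ψ' ((b - b') - (a - a')) =
        (e + ax T ψ' (b - a)) - (e' + ax T ψ' (b' - a')) by
          simp only [map_sub]; abel,
        show pf T ψ' φ' ((b - b') - (a - a')) = pf T ψ' φ' (b - a) - pf T ψ' φ' (b' - a') by
          rw [← pf_sub]; congr 1; abel] at this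
      exact this
  | plt j b φ ψ x y a b c d e hx =>
    cases h2 with
    | plt _ _ φ' ψ' x' y' a' b' c' d' e' hx' =>
      have hxx : x.length = x'.length := by omega
      obtain ⟨l1, rfl, rfl, l2⟩ := fcs_app2 hxx hl
      refine ⟨?_, fcs_mk l1 (fcs_mkc _ _ _ _ _ (fcs_mkc _ _ _ _ _ l2)), rfl, rfl, rfl⟩
      rw [osb_app _ _ hxx, osb_app _ _ hxx]
      have := RSp.plt (T := T) j b0 φ' ψ' (osb x x') (osb y y') (a - a') (b - b') (c - c') (d - d') (e - e')
        (by rw [osb_len hxx, hx])
      rw [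
        show dfe T φ' ((b - b') + ax T φ' ((c - c') - (b - b')) - (e - e')) = dfe T φ' (b + ax T φ' (c - b) - e) - dfe T φ' (b' + ax T φ' (c' - b') - e') by
          rw [← dfe_sub]; congr 1; simp only [map_sub]; abel,
        show (e - e') + ax T φ' ((d - d') - (c - c')) =
        (e + ax T φ' (d - c)) - (e' + ax T φ' (d' - c')) by
          simp only [map_sub]; abel,
        show (a - a') + (ax T φ' ((d - d') - (c - c')) - ax T (!ψ') (ax T φ' ((d - d') - (c - c')))) =
        (a + (ax T φ' (d - c) - ax T (!ψ') (ax T φ' (d - c)))) -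
          (a' + (ax T φ' (d' - c') - ax T (!ψ') (ax T φ' (d' - c')))) by
          simp only [map_sub]; abel,
        show pf T φ' ψ' ((d - d') - (c - c')) = pf T φ' ψ' (d - c) - pf T φ' ψ' (d' - c') by
          rw [← pf_sub]; congr 1; abel] at this
      exact this
  | plf j b φ ψ x y a b c d e hx =>
    cases h2 with
    | plf _ _ φ' ψ' x' y' a' b' c' d' e' hx' =>
      have hxx : x.length = x'.length := by omega
      obtain ⟨l1, rfl, rfl, l2⟩ := fcs_app2 hxx hl
      refine ⟨?_, fcs_mk l1 (fcs_mkc _ _ _ _ _ (fcs_mkc _ _ _ _ _ l2)), rfl, rfl, rfl⟩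
      rw [osb_app _ _ hxx, osb_app _ _ hxx]
      have := RSp.plf (T := T) j b0 φ' ψ' (osb x x') (osb y y') (a - a') (b - b') (c - c') (d - d') (e - e')
        (by rw [osb_len hxx, hx])
      rw [
        show dfe T (!φ') ((a - a') + ax T (!φ') ((c - c') - (a - a')) - (e - e')) = dfe T (!φ') (a + ax T (!φ') (c - a) - e) - dfe T (!φ') (a' + ax T (!φ') (c' - a') - e') by
          rw [← dfe_sub]; congr 1; simp only [map_sub]; abel,
        show (e - e') + ax T (!φ') ((d - d') - (c - c')) =
        (e + ax T (!φ') (d - c)) - (e' + ax T (!φ') (d' - c')) by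
          simp only [map_sub]; abel,
        show (b - b') + (((d - d') - (c - c')) - ax T (!ψ') ((d - d') - (c - c'))) =
        (b + ((d - c) - ax T (!ψ') (d - c))) - (b' + ((d' - c') - ax T (!ψ') (d' - c'))) by
          simp only [map_sub]; abel,
        show pf T (!φ') ψ' ((d - d') - (c - c')) = pf T (!φ') ψ' (d - c) - pf T (!φ') ψ' (d' - c') by
          rw [← pf_sub]; congr 1; abel] at this
      exact this

theorem rev_sub {T : A ≃+ A} {x : ℕ → Bool} {S : List Bd} {k : ℕ}
    {st st' st2 st2' : List (Bool × A × A)} {c f r c2 f2 r2 : List A} (h : REv T x S k st c f r st')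
    (h2 : REv T x S k st2 c2 f2 r2 st2') (hl : fcs st = fcs st2) :
    REv T x S k (osb st st2) (sb c c2) (sb f f2) (sb r r2) (osb st' st2') ∧ fcs st' = fcs st2' ∧
      c.length = c2.length ∧ f.length = f2.length ∧ r.length = r2.length := by
  induction h generalizing st2 st2' c2 f2 r2 with
  | nil k st =>
    cases h2 with
    | nil _ _ => exact ⟨REv.nil _ _, hl, rfl, rfl, rfl⟩
  | cons s S k st st1 st3 c1 c3 f1 f3 r1 r3 g1 g2 ih =>
    cases h2 with
    | cons _ _ _ _ st1' _ c1' c3' f1' f3' r1' r3' g1' g2' =>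
      obtain ⟨k1, k2, k3, k4, k5⟩ := rsp_sub g1 g1' hl
      obtain ⟨l1, l2, l3, l4, l5⟩ := ih g2' k2
      rw [sb_append _ _ k3, sb_append _ _ k4, sb_append _ _ k5]
      refine ⟨REv.cons s S k _ _ _ _ _ _ _ _ _ k1 l1, l2, ?_, ?_, ?_⟩
      · rw [List.length_append, List.length_append, k3, l3]
      · rw [List.length_append, List.length_append, k4, l4]
      · rw [List.length_append, List.length_append, k5, l5]

end Pool.Agent.H86.RU
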