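import Pool.Agent.H86.RU.RDefs

/-!
# A relaxed colouring without defects is a colouring
-/

set_option autoImplicit false

namespace Pool.Agent.H86.RU

open Pool.Agent.H86.RB Pool.Agent.H86.RT

variable {A : Type} [AddCommGroup A]

private theorem dfe_zero {T : A ≃+ A} {ρ : Bool} {z : A} (h : dfe T ρ z = 0) : z = 0 := by
  cases ρ
  · simpa [dfe] using h
  · simpa [dfe] using h

private theorem osp_of {T : A ≃+ A} {s : Bd} {b0 : Bool} {st st' : List (Bool × A × A)}
    {c f r : List A} (h : RSp T s b0 st c f r st') (hr : ∀ y ∈ r, y = 0) : OSp T s b0 st c f st' := by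
  cases h with
  | birth j b x y c hx => exact OSp.birth j _ x y c hx
  | death j b φ x y c hx => exact OSp.death j _ φ x y c hx
  | split j b φ x y a d c hx => exact OSp.split j _ φ x y a d c hx
  | merge j b0 φ x y a b c d hx =>
    have h1 : b = c := sub_eq_zero.1 (hr _ (List.mem_singleton.2 rfl))
    subst h1
    rw [add_sub_cancel]
    exact OSp.merge j _ φ x y a b d hx
  | twt j b φ x y a c hx => exact OSp.twt j _ φ x y a c hx
  | twf j b φ x y a c hx => exact OSp.twf j _ φ x y a c hx
  | crt j b0 φ ψ x y a b c d hx => exact OSp.crt j _ φ ψ x y a b c d hx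
  | crf j b0 φ ψ x y a b c d hx => exact OSp.crf j _ φ ψ x y a b c d hx
  | prt j b0 φ ψ x y a b c d e hx =>
    have h1 := sub_eq_zero.1 (dfe_zero (hr _ (List.mem_singleton.2 rfl)))
    rw [← h1, show d + ax T (!ψ) (a - d) + ax T (!ψ) (b - a) = d + ax T (!ψ) (b - d) by
      rw [add_assoc, ← map_add]; congr 2; abel]
    exact OSp.prt j _ φ ψ x y a b c d hx
  | prf j b0 φ ψ x y a b c d e hx =>
    have h1 := sub_eq_zero.1 (dfe_zero (hr _ (List.mem_singleton.2 rfl)))
    rw [← h1, show c + ax T ψ (a - c) + ax T ψ (b - a) = c + ax T ψ (b - c) by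
      rw [add_assoc, ← map_add]; congr 2; abel]
    exact OSp.prf j _ φ ψ x y a b c d hx
  | plt j b0 φ ψ x y a b c d e hx =>
    have h1 := sub_eq_zero.1 (dfe_zero (hr _ (List.mem_singleton.2 rfl)))
    rw [← h1, show b + ax T φ (c - b) + ax T φ (d - c) = b + ax T φ (d - b) by
      rw [add_assoc, ← map_add]; congr 2; abel]
    exact OSp.plt j _ φ ψ x y a b c d hx
  | plf j b0 φ ψ x y a b c d e hx =>
    have h1 := sub_eq_zero.1 (dfe_zero (hr _ (List.mem_singleton.2 rfl)))
    rw [← h1, show a + ax T (!φ) (c - a) + ax T (!φ) (d - c) = a + ax T (!φ) (d - a) by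
      rw [add_assoc, ← map_add]; congr 2; abel]
    exact OSp.plf j _ φ ψ x y a b c d hx

theorem oev_of_rev {T : A ≃+ A} {x : ℕ → Bool} {S : List Bd} {k : ℕ} {st st' : List (Bool × A × A)}
    {c f r : List A} (h : REv T x S k st c f r st') (hr : ∀ y ∈ r, y = 0) : OEv T x S k st c f st' := by
  induction h with
  | nil k st => exact OEv.nil k st
  | cons s S k st st1 st2 c1 c2 f1 f2 r1 r2 h1 h2 ih =>
    exact OEv.cons s S k st st1 st2 c1 c2 f1 f2
      (osp_of h1 fun y hy => hr y (List.mem_append_left _ hy))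
      (ih fun y hy => hr y (List.mem_append_right _ hy))

end Pool.Agent.H86.RU
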