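import Pool.Agent.H86.RU.REx
import Pool.Agent.H86.RU.RSubt
import Pool.Agent.H86.RU.RMap
import Pool.Agent.H86.RU.RDiag
import Pool.Agent.H86.RU.RZero
import Pool.Agent.H86.RB.OddD

/-!
# Colourings with given flows
-/

set_option autoImplicit false
set_option linter.unusedSectionVars false
set_option linter.unusedSimpArgs false

namespace Pool.Agent.H86.RU

open Pool.Agent.H86.RB Pool.Agent.H86.RT

section

variable {A : Type} [AddCommGroup A]

theorem zind_sum' {m : ℕ} (u : ℕ → A) (h0 : u 0 = 0) (a : ℕ) (ha : a ≤ m) :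
    ∑ j : Fin m, (if (j : ℕ) + 1 = a then (1 : ℤ) else 0) • u (j + 1) = u a := by
  rcases Nat.eq_zero_or_pos a with rfl | hp
  · rw [h0]
    apply Finset.sum_eq_zero
    intro j _
    simp
  · rw [Finset.sum_eq_single (⟨a - 1, by omega⟩ : Fin m)]
    · have : a - 1 + 1 = a := by omega
      simp [this]
    · intro b _ hb
      rw [if_neg, zero_smul]
      intro h
      apply hb
      apply Fin.ext
      simp only
      omega
    · intro h
      exact absurd (Finset.mem_univ _) h

theorem zdif_sum' {m : ℕ} (u : ℕ → A) (h0 : u 0 = 0) (a b : ℕ) (ha : a ≤ m) (hb : b ≤ m) :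
    ∑ j : Fin m, ((if (j : ℕ) + 1 = a then (1 : ℤ) else 0) - (if (j : ℕ) + 1 = b then 1 else 0)) •
      u (j + 1) = u a - u b := by
  simp only [sub_smul, Finset.sum_sub_distrib]
  rw [zind_sum' u h0 a ha, zind_sum' u h0 b hb]

theorem row_rvl' {m : ℕ} (T : A ≃+ A) (g : Bool) (u : ℕ → A) (h0 : u 0 = 0) (r : Row)
    (hr : r.x ≤ m ∧ r.y ≤ m ∧ r.z ≤ m) :
    ∑ j : Fin m, cP g ((j : ℕ) + 1) r • u (j + 1) +
      T (∑ j : Fin m, cQ g ((j : ℕ) + 1) r • u (j + 1)) = rvl T g u r := by
  cases r with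
  | mg a b =>
    simp only [Row.x, Row.y, Row.z] at hr
    simp only [cP, cQ, rvl, zero_smul, Finset.sum_const_zero, map_zero, add_zero]
    exact zdif_sum' u h0 a b hr.1 hr.2.1
  | ps a n b =>
    simp only [Row.x, Row.y, Row.z] at hr
    cases g
    · simp only [cP, cQ, rvl, Bool.false_eq_true, if_false]
      rw [zdif_sum' u h0 a b hr.1 hr.2.2, zdif_sum' u h0 b n hr.2.2 hr.2.1]
    · simp only [cP, cQ, rvl, if_true]
      rw [zdif_sum' u h0 b n hr.2.2 hr.2.1, zdif_sum' u h0 a b hr.1 hr.2.2, add_comm]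

private theorem orf_cons (T : A ≃+ A) (e : ℕ) (r : Row) (R : List Row) (g0 : Bool) (g : List Bool)
    (a : A) (f : List A) :
    orf T e (r :: R) (g0 :: g) (a :: f) =
      (cP (!g0) e r • a + T (cQ (!g0) e r • a)) + orf T e R g f := by
  simp [orf]

private theorem orf_range (T : A ≃+ A) (e : ℕ) (R : List Row) (g : List Bool) (f : List A)
    (h : R.length = f.length) (hg : g.length = f.length) :
    orf T e R g f = ∑ i ∈ Finset.range R.length,
      (cP (!(g.getD i true)) e (R.getD i (.mg 0 0)) • f.getD i 0 +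
        T (cQ (!(g.getD i true)) e (R.getD i (.mg 0 0)) • f.getD i 0)) := by
  induction R generalizing f g with
  | nil =>
    cases f with
    | nil => simp [orf]
    | cons a f => simp at h
  | cons r R ih =>
    cases f with
    | nil => simp at h
    | cons a f =>
      cases g with
      | nil => simp at hg
      | cons g0 g =>
        rw [orf_cons, ih g f (by simpa using h) (by simpa using hg), List.length_cons,
          Finset.sum_range_succ', add_comm]
        simp

theorem orf_sum' {m : ℕ} (T : A ≃+ A) (e : ℕ) (R : List Row) (g : List Bool) (f : List A)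
    (hR : R.length = m) (h : R.length = f.length) (hg : g.length = f.length) :
    ∑ i : Fin m, cP (!(g.getD i true)) e (R.getD i (.mg 0 0)) • f.getD i 0 +
      T (∑ i : Fin m, cQ (!(g.getD i true)) e (R.getD i (.mg 0 0)) • f.getD i 0) =
      orf T e R g f := by
  rw [orf_range T e R g f h hg, map_sum, ← Finset.sum_add_distrib, hR]
  exact (Finset.sum_range (fun i => (cP (!(g.getD i true)) e (R.getD i (.mg 0 0)) • f.getD i 0 +
        T (cQ (!(g.getD i true)) e (R.getD i (.mg 0 0)) • f.getD i 0)))).symm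

end

variable {A : Type} [AddCommGroup A]

/-- extension of a vector by zero to all names -/
def oex {m : ℕ} (w : Fin m → A) (v : ℕ) : A :=
  if h : v - 1 < m ∧ v ≠ 0 then w ⟨v - 1, h.1⟩ else 0

theorem oex_zero {m : ℕ} (w : Fin m → A) : oex w 0 = 0 := by simp [oex]

theorem oex_succ {m : ℕ} (w : Fin m → A) (j : Fin m) : oex w ((j : ℕ) + 1) = w j := by
  simp [oex]

private theorem sb_zero {x y : List A} (h : x.length = y.length) (hy : ∀ a ∈ y, a = 0) : sb x y = x := by
  induction x generalizing y with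
  | nil =>
    cases y with
    | nil => rfl
    | cons b y => simp at h
  | cons a x ih =>
    cases y with
    | nil => simp at h
    | cons b y =>
      rw [sb_cons, ih (by simpa using h) (fun c hc => hy c (List.mem_cons_of_mem _ hc)),
        hy b (by simp), sub_zero]

/-- values of the rows of a vector -/
theorem rows_val {m : ℕ} (T : A ≃+ A) (R : List Row) (hR : R.length = m) (F : ℕ → Bool)
    (hlt : ∀ r ∈ R, r.x ≤ m ∧ r.y ≤ m ∧ r.z ≤ m) (u : Fin m → A) (i : Fin m) :
    ∑ j, MP R F m i j • u j + T (∑ j, MQ R F m i j • u j) =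
      rvl T (F i) (oex u) (R.getD i (.mg 0 0)) := by
  have hi : (i : ℕ) < R.length := by rw [hR]; exact i.2
  have hmem : R.getD i (.mg 0 0) ∈ R := by
    rw [List.getD_eq_getElem _ _ hi]
    exact List.getElem_mem hi
  have h1 := row_rvl' (m := m) T (F i) (oex u) (oex_zero u) (R.getD i (.mg 0 0)) (hlt _ hmem)
  simp only [oex_succ] at h1
  exact h1

theorem lift (T : A ≃+ A) (x : ℕ → Bool) (S : List Bd) (h : bty S 0 = some 0)
    (hb : births S = merges S) (hx : okk S 1 x [true]) {m : ℕ}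
    (hm : (rows S 1 [0]).length = m) (F : ℕ → Bool)
    (hF : ∀ i, F i = (fgs S 1 x [true]).getD i true) (f : Fin m → A)
    (hf : ∀ j, ∑ i, (MP (rows S 1 [0]) (fun i => !(F i)) m).transpose j i • f i +
      T (∑ i, (MQ (rows S 1 [0]) (fun i => !(F i)) m).transpose j i • f i) = 0) :
    ∃ ρ : Fin m → A, ∀ (B : Type) [AddCommGroup B] (T' : B ≃+ B) (g : A →+ B),
      (∀ a, g (T a) = T' (g a)) → ∀ u : Fin m → B,
      (∀ i, ∑ j, MP (rows S 1 [0]) F m i j • u j + T' (∑ j, MQ (rows S 1 [0]) F m i j • u j) =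
        g (ρ i)) →
      ∃ c st', OEv T' x S 1 [(true, (0 : B), (0 : B))] c (List.ofFn fun i => g (f i)) st' := by
  obtain ⟨hbm, hle⟩ := rows_le S hb hm
  have hfl : (fgs S 1 x [true]).length = m := by rw [fgs_len S 1 x [true] [0], hm]
  have hker : ∀ e, 1 ≤ e → orf T e (rows S 1 [0]) (fgs S 1 x [true]) (List.ofFn f) = 0 := by
    intro e he
    by_cases hem : e ≤ m
    · obtain ⟨j, rfl⟩ : ∃ j : Fin m, (j : ℕ) + 1 = e := ⟨⟨e - 1, by omega⟩, by simp; omega⟩
      rw [← orf_sum' (m := m) T ((j : ℕ) + 1) (rows S 1 [0]) (fgs S 1 x [true]) (List.ofFn f) hm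
        (by rw [hm, List.length_ofFn]) (by rw [hfl, List.length_ofFn])]
      have h1 := hf j
      have h2 : ∀ i : Fin m, (List.ofFn f).getD i 0 = f i := by
        intro i
        rw [List.getD_eq_getElem _ _ (by rw [List.length_ofFn]; exact i.2), List.getElem_ofFn]
      simp only [h2]
      simpa only [Matrix.transpose_apply, MP, MQ, hF] using h1
    · exact orf_far T e _ _ _ fun r hr => by
        have := hle r hr
        omega
  obtain ⟨z, hz, hz'⟩ := rev_ex T x S 0 1 h [0] rfl [true] rfl hx Nat.one_pos (by simp)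
    (List.ofFn f) (by rw [List.length_ofFn, hm]) hker
  obtain ⟨δ, rfl⟩ : ∃ δ, z = [(true, δ)] := by
    obtain ⟨⟨b, δ⟩, z2, h1, h2, h3⟩ := List.map_eq_cons_iff.1 hz
    simp only at h2
    rw [List.map_eq_nil_iff] at h3
    exact ⟨δ, by rw [h1, h2, h3]⟩
  have hδ : δ = 0 := by
    obtain ⟨c, r, st', g1, b, g2⟩ := hz' [(true, 0, δ)] (by simp [dst])
    obtain ⟨_, _, _, _, g3, _⟩ := rev_flow g1 [0] rfl
    rw [otot_dst, otot_dst, g2] at g3
    have h1 : nf T b 0 = 0 := by cases b <;> simp [nf]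
    simpa [dst, nf, h1] using g3.symm
  subst hδ
  obtain ⟨c, r, st', g1, b, g2⟩ := hz' [(true, 0, 0)] (by simp [dst])
  obtain ⟨_, _, _, hr, _, _⟩ := rev_flow g1 [0] rfl
  rw [List.length_ofFn] at hr
  refine ⟨fun i => r.getD i 0, fun B _ T' g hg u hu => ?_⟩
  have h1 := rev_map hg g1
  have h2 : omp g [(true, (0 : A), (0 : A))] = [(true, (0 : B), (0 : B))] := by simp [omp]
  rw [h2] at h1
  obtain ⟨f0, z0, k1, k2⟩ := rev_diag T' x S 0 0 1 h [(0, true)] rfl hx (oex u)
  have h3 : zdg (oex u) [(0, true)] = [(true, (0 : B), (0 : B))] := by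
    simp [zdg, oex_zero]
  rw [h3] at k2
  obtain ⟨l1, l2, l3, l4, l5⟩ := rev_sub h1 k2 rfl
  rw [sb_zero l4 k1] at l1
  have h4 : osb [(true, (0 : B), (0 : B))] [(true, (0 : B), (0 : B))] = [(true, (0 : B), (0 : B))] := by
    simp [osb]
  rw [h4] at l1
  have h5 : (List.ofFn f).map g = List.ofFn fun i => g (f i) := by
    rw [List.map_ofFn]
    rfl
  rw [h5] at l1
  refine ⟨_, _, oev_of_rev l1 ?_⟩
  intro y hy
  unfold sb at hy
  obtain ⟨i, hi, rfl⟩ := List.mem_iff_getElem.1 hy
  rw [List.getElem_zipWith, sub_eq_zero, List.getElem_map]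
  have hi2 : i < m := by
    rw [List.length_zipWith, List.length_map] at hi
    omega
  have h6 := hu ⟨i, hi2⟩
  rw [rows_val T' (rows S 1 [0]) hm F hle u ⟨i, hi2⟩] at h6
  have h7 : r.getD i 0 = r[i]'(by omega) := List.getD_eq_getElem _ _ (by omega)
  simp only [h7] at h6
  rw [← h6]
  simp only [rvw, List.getElem_map, List.getElem_zip]
  have e1 : (rows S 1 [0]).getD i (.mg 0 0) = (rows S 1 [0])[i]'(by omega) :=
    List.getD_eq_getElem _ _ (by omega)
  have e2 : (fgs S 1 x [true]).getD i true = (fgs S 1 x [true])[i]'(by omega) :=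
    List.getD_eq_getElem _ _ (by omega)
  rw [hF, e1, e2]
  rfl

end Pool.Agent.H86.RU
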