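import Pool.Agent.H86.RU.RDefs

/-!
# The flows of a relaxed colouring
-/

set_option autoImplicit false
set_option linter.unusedSectionVars false
set_option linter.unusedSimpArgs false

namespace Pool.Agent.H86.RU

open Pool.Agent.H86.RB Pool.Agent.H86.RT

variable {A : Type} [AddCommGroup A]

theorem dst_app (x y : List (Bool × A × A)) : dst (x ++ y) = dst x ++ dst y := by
  simp [dst]

theorem dst_cons (φ : Bool) (a b : A) (y : List (Bool × A × A)) :
    dst ((φ, a, b) :: y) = (φ, b - a) :: dst y := rfl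

theorem dst_len (x : List (Bool × A × A)) : (dst x).length = x.length := by simp [dst]

theorem fcs_dst (st : List (Bool × A × A)) : fcs st = (dst st).map Prod.fst := by
  simp [fcs, dst]

/-- total normalized flow of the bands of the piece `e`, in terms of the flows -/
def dpt (T : A ≃+ A) (e : ℕ) (vs : List ℕ) (z : List (Bool × A)) : A :=
  ((vs.zip z).map (fun q => if e = q.1 then nf T q.2.1 q.2.2 else 0)).sum

theorem opt_dst (T : A ≃+ A) (e : ℕ) (vs : List ℕ) (st : List (Bool × A × A)) :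
    opt T e vs st = dpt T e vs (dst st) := by
  unfold opt dpt dst
  rw [List.zip_map_right, List.map_map]
  rfl

theorem otot_dst (T : A ≃+ A) (st : List (Bool × A × A)) :
    otot T st = ((dst st).map (fun p => nf T p.1 p.2)).sum := by
  unfold otot dst
  rw [List.map_map]
  rfl

private theorem fcs_app (x y : List (Bool × A × A)) : fcs (x ++ y) = fcs x ++ fcs y := by
  simp [fcs]

private theorem fcs_cons (φ : Bool) (a b : A) (x : List (Bool × A × A)) :
    fcs ((φ, a, b) :: x) = φ :: fcs x := rfl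

private theorem fcs_len (x : List (Bool × A × A)) : (fcs x).length = x.length := by simp [fcs]

/-- a relaxed slice has the flows of a slice -/
private theorem rsp_osp {T : A ≃+ A} {s : Bd} {b0 : Bool} {st st' : List (Bool × A × A)}
    {c f r : List A} (h : RSp T s b0 st c f r st') :
    ∃ st2 st2', OSp T s b0 st2 c f st2' ∧ dst st2 = dst st ∧ dst st2' = dst st' ∧
      r.length = f.length ∧ fcs st' = fs1 s b0 (fcs st) := by
  cases h with
  | birth j b x y c hx =>
    refine ⟨_, _, OSp.birth j _ x y c hx, rfl, rfl, rfl, ?_⟩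
    rw [fcs_app, fcs_app, fcs_cons, fs1_birth (by rw [fcs_len, hx])]
  | death j b φ x y c hx =>
    refine ⟨_, _, OSp.death j _ φ x y c hx, rfl, rfl, rfl, ?_⟩
    rw [fcs_app, fcs_app, fcs_cons, fs1_death (by rw [fcs_len, hx])]
  | split j b φ x y a d c hx =>
    refine ⟨_, _, OSp.split j _ φ x y a d c hx, rfl, rfl, rfl, ?_⟩
    rw [fcs_app, fcs_app, fcs_cons, fcs_cons, fcs_cons, fs1_split (by rw [fcs_len, hx])]
  | merge j b0 φ x y a b c d hx =>
    have h1 := OSp.merge (T := T) j b0 φ x y a b (b + (d - c)) hx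
    rw [show b - (b + (d - c)) = c - d by abel] at h1
    refine ⟨_, _, h1, ?_, rfl, rfl, ?_⟩
    · rw [dst_app, dst_app, dst_cons, dst_cons, dst_cons, dst_cons,
        show b + (d - c) - b = d - c by abel]
    · rw [fcs_app, fcs_app, fcs_cons, fcs_cons, fcs_cons, fs1_merge (by rw [fcs_len, hx])]
  | twt j b φ x y a c hx =>
    refine ⟨_, _, OSp.twt j _ φ x y a c hx, rfl, rfl, rfl, ?_⟩
    rw [fcs_app, fcs_app, fcs_cons, fcs_cons, fs1_twist (by rw [fcs_len, hx])]
  | twf j b φ x y a c hx =>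
    refine ⟨_, _, OSp.twf j _ φ x y a c hx, rfl, rfl, rfl, ?_⟩
    rw [fcs_app, fcs_app, fcs_cons, fcs_cons, fs1_twist (by rw [fcs_len, hx])]
  | crt j b0 φ ψ x y a b c d hx =>
    refine ⟨_, _, OSp.crt j _ φ ψ x y a b c d hx, rfl, rfl, rfl, ?_⟩
    rw [fcs_app, fcs_app, fcs_cons, fcs_cons, fcs_cons, fcs_cons, fs1_cross (by rw [fcs_len, hx])]
  | crf j b0 φ ψ x y a b c d hx =>
    refine ⟨_, _, OSp.crf j _ φ ψ x y a b c d hx, rfl, rfl, rfl, ?_⟩
    rw [fcs_app, fcs_app, fcs_cons, fcs_cons, fcs_cons, fcs_cons, fs1_cross (by rw [fcs_len, hx])]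
  | prt j b0 φ ψ x y a b c d e hx =>
    refine ⟨_, _, OSp.prt j _ φ ψ x y a b c d hx, rfl, ?_, rfl, ?_⟩
    · rw [dst_app, dst_app, dst_cons, dst_cons, dst_cons, dst_cons,
        show d + ax T (!ψ) (b - d) - (d + ax T (!ψ) (a - d)) = e + ax T (!ψ) (b - a) - e by
          simp only [map_sub]; abel]
    · rw [fcs_app, fcs_app, fcs_cons, fcs_cons, fcs_cons, fcs_cons, fs1_passR (by rw [fcs_len, hx])]
  | prf j b0 φ ψ x y a b c d e hx =>
    refine ⟨_, _, OSp.prf j _ φ ψ x y a b c d hx, rfl, ?_, rfl, ?_⟩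
    · rw [dst_app, dst_app, dst_cons, dst_cons, dst_cons, dst_cons,
        show c + ax T ψ (b - c) - (c + ax T ψ (a - c)) = e + ax T ψ (b - a) - e by
          simp only [map_sub]; abel]
    · rw [fcs_app, fcs_app, fcs_cons, fcs_cons, fcs_cons, fcs_cons, fs1_passR (by rw [fcs_len, hx])]
  | plt j b0 φ ψ x y a b c d e hx =>
    refine ⟨_, _, OSp.plt j _ φ ψ x y a b c d hx, rfl, ?_, rfl, ?_⟩
    · rw [dst_app, dst_app, dst_cons, dst_cons, dst_cons, dst_cons,
        show b + ax T φ (d - b) - (b + ax T φ (c - b)) = e + ax T φ (d - c) - e by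
          simp only [map_sub]; abel]
    · rw [fcs_app, fcs_app, fcs_cons, fcs_cons, fcs_cons, fcs_cons, fs1_passL (by rw [fcs_len, hx])]
  | plf j b0 φ ψ x y a b c d e hx =>
    refine ⟨_, _, OSp.plf j _ φ ψ x y a b c d hx, rfl, ?_, rfl, ?_⟩
    · rw [dst_app, dst_app, dst_cons, dst_cons, dst_cons, dst_cons,
        show a + ax T (!φ) (d - a) - (a + ax T (!φ) (c - a)) = e + ax T (!φ) (d - c) - e by
          simp only [map_sub]; abel]
    · rw [fcs_app, fcs_app, fcs_cons, fcs_cons, fcs_cons, fcs_cons, fs1_passL (by rw [fcs_len, hx])]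

private theorem rsp_flow {T : A ≃+ A} {s : Bd} {b0 : Bool} {st st' : List (Bool × A × A)}
    {c f r : List A} (h : RSp T s b0 st c f r st') (k : ℕ) (vs : List ℕ) (hl : vs.length = st.length) :
    (rst s k vs).1.length = f.length ∧ (fg1 s (fcs st)).length = f.length ∧
      (rst s k vs).2.2.length = st'.length ∧ fcs st' = fs1 s b0 (fcs st) ∧ r.length = f.length ∧
      otot T st' = otot T st ∧
      ∀ e, opt T e vs st = orf T e (rst s k vs).1 (fg1 s (fcs st)) f + opt T e (rst s k vs).2.2 st' := by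
  obtain ⟨st2, st2', h1, h2, h3, h4, h5⟩ := rsp_osp h
  have hv : OEv T (fun _ => b0) [s] k st2 (c ++ []) (f ++ []) st2' :=
    OEv.cons s [] k st2 st2' st2' c [] f [] h1 (OEv.nil _ _)
  have hl2 : vs.length = st2.length := by rw [hl, ← dst_len, ← h2, dst_len]
  obtain ⟨g1, g2, g3, g4⟩ := oev_flow hv vs hl2
  have g5 := oev_tot hv
  have e1 : rows [s] k vs = (rst s k vs).1 := by rw [rows_cons]; simp [rows]
  have e2 : nms [s] k vs = (rst s k vs).2.2 := by rw [nms_cons]; rfl
  have e3 : ∀ φ, fgs [s] k (fun _ => b0) φ = fg1 s φ := by intro φ; simp [fgs]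
  have e4 : fcs st2 = fcs st := by rw [fcs_dst, h2, ← fcs_dst]
  rw [e1, List.append_nil] at g1
  rw [e3, List.append_nil, e4] at g2
  rw [e2] at g3
  refine ⟨g1, g2, ?_, h5, h4, ?_, fun e => ?_⟩
  · rw [g3, ← dst_len, h3, dst_len]
  · rw [otot_dst, ← h3, ← otot_dst, g5, otot_dst, h2, ← otot_dst]
  · have g6 := g4 e
    rw [e1, e2, e3, e4, List.append_nil, opt_dst, h2, ← opt_dst, opt_dst T e _ st2', h3, ← opt_dst] at g6
    exact g6

private theorem orf_app (T : A ≃+ A) (e : ℕ) {R : List Row} {g : List Bool} {f : List A}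
    (R' : List Row) (g' : List Bool) (f' : List A) (h : R.length = f.length)
    (hg : g.length = f.length) :
    orf T e (R ++ R') (g ++ g') (f ++ f') = orf T e R g f + orf T e R' g' f' := by
  unfold orf
  rw [List.zip_append (by rw [h, hg]), List.zip_append (by rw [List.length_zip]; omega),
    List.map_append, List.sum_append]

theorem rev_flow {T : A ≃+ A} {x : ℕ → Bool} {S : List Bd} {k : ℕ} {st st' : List (Bool × A × A)}
    {c f r : List A} (h : REv T x S k st c f r st') (vs : List ℕ) (hl : vs.length = st.length) :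
    (rows S k vs).length = f.length ∧ (fgs S k x (fcs st)).length = f.length ∧
      (nms S k vs).length = st'.length ∧ r.length = f.length ∧ otot T st' = otot T st ∧
      ∀ e, opt T e vs st = orf T e (rows S k vs) (fgs S k x (fcs st)) f + opt T e (nms S k vs) st' := by
  induction h generalizing vs with
  | nil k st =>
    refine ⟨rfl, rfl, hl, rfl, rfl, fun e => ?_⟩
    simp [rows, nms, fgs, orf]
  | cons s S k st st1 st2 c1 c2 f1 f2 r1 r2 h1 h2 ih =>
    obtain ⟨g1, g2, g3, g4, g5, g6, g7⟩ := rsp_flow h1 k vs hl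
    obtain ⟨l1, l2, l3, l4, l5, l6⟩ := ih (rst s k vs).2.2 g3
    have hr : rows (s :: S) k vs = (rst s k vs).1 ++ rows S (k + bq0 s) (rst s k vs).2.2 :=
      rows_cons s S k vs
    have hn : nms (s :: S) k vs = nms S (k + bq0 s) (rst s k vs).2.2 := nms_cons s S k vs
    rw [hr, hn, fgs, ← g4]
    refine ⟨by rw [List.length_append, List.length_append, g1, l1],
      by rw [List.length_append, List.length_append, g2, l2], l3,
      by rw [List.length_append, List.length_append, g5, l4], l5.trans g6, fun e => ?_⟩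
    rw [orf_app T e _ _ _ g1 g2, g7 e, l6 e, add_assoc]

end Pool.Agent.H86.RU
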