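import Pool.Agent.H86.RU.RCnt
import Pool.Agent.H86.RU.LPoly
import Pool.Agent.H86.RT.OOne

/-!
# Lower bounds for the number of colourings, with polynomials
-/

set_option autoImplicit false

namespace Pool.Agent.H86.RU

open Pool.Agent.H86.RT

theorem PX_transpose {m : ℕ} (P Q : Matrix (Fin m) (Fin m) ℤ) :
    PX P.transpose Q.transpose = (PX P Q).transpose := rfl

theorem gen_lower {A A' : Type} [AddCommGroup A] [Fintype A] [DecidableEq A] [AddCommGroup A']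
    [DecidableEq A'] (T : A ≃+ A) (T' : A' ≃+ A') (g : A' →+ A) (hg : ∀ a, g (T' a) = T (g a))
    (x : ℕ → Bool) (S : List Pool.Agent.H86.RB.Bd) (hS : Pool.Agent.H86.RB.Dsk S)
    (hx : okk S 1 x [true]) {m : ℕ} (hm : (Pool.Agent.H86.RB.rows S 1 [0]).length = m) (F : ℕ → Bool)
    (hF : ∀ i, F i = (fgs S 1 x [true]).getD i true)
    (hD : ∀ y : A', ∃ b : A, pev T (PX (MP (Pool.Agent.H86.RB.rows S 1 [0]) F m)
      (MQ (Pool.Agent.H86.RB.rows S 1 [0]) F m)).det b = g y)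
    (j1 k1 j2 k2 : Fin m) (Z1 : Finset A) (Z2 : Finset A')
    (h1 : ∀ a ∈ Z1, pev T (PX (MP (Pool.Agent.H86.RB.rows S 1 [0]) F m)
      (MQ (Pool.Agent.H86.RB.rows S 1 [0]) F m)).det a = 0)
    (i1 : ∀ a ∈ Z1, ∀ b ∈ Z1, pev T ((PX (MP (Pool.Agent.H86.RB.rows S 1 [0]) F m)
      (MQ (Pool.Agent.H86.RB.rows S 1 [0]) F m)).adjugate j1 k1) a =
      pev T ((PX (MP (Pool.Agent.H86.RB.rows S 1 [0]) F m)
        (MQ (Pool.Agent.H86.RB.rows S 1 [0]) F m)).adjugate j1 k1) b → a = b)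
    (h2 : ∀ a ∈ Z2, pev T' (PX (MP (Pool.Agent.H86.RB.rows S 1 [0]) (fun i => !(F i)) m)
      (MQ (Pool.Agent.H86.RB.rows S 1 [0]) (fun i => !(F i)) m)).det a = 0)
    (i2 : ∀ a ∈ Z2, ∀ b ∈ Z2, g (pev T' ((PX (MP (Pool.Agent.H86.RB.rows S 1 [0]) (fun i => !(F i)) m)
      (MQ (Pool.Agent.H86.RB.rows S 1 [0]) (fun i => !(F i)) m)).adjugate j2 k2) a) =
      g (pev T' ((PX (MP (Pool.Agent.H86.RB.rows S 1 [0]) (fun i => !(F i)) m)
        (MQ (Pool.Agent.H86.RB.rows S 1 [0]) (fun i => !(F i)) m)).adjugate j2 k2) b) → a = b) :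
    Z1.card * Z2.card ≤ cola T (Pool.Agent.H86.RB.bdw S) := by
  classical
  obtain ⟨R, hR⟩ : ∃ R, Pool.Agent.H86.RB.rows S 1 [0] = R := ⟨_, rfl⟩
  simp only [hR] at hD h1 i1 h2 i2
  set P2 := (MP R (fun i => !(F i)) m).transpose with hP2
  set Q2 := (MQ R (fun i => !(F i)) m).transpose with hQ2
  have hdet : (PX P2 Q2).det = (PX (MP R (fun i => !(F i)) m) (MQ R (fun i => !(F i)) m)).det := by
    rw [hP2, hQ2, PX_transpose, Matrix.det_transpose]
  have hadj : (PX P2 Q2).adjugate k2 j2 =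
      (PX (MP R (fun i => !(F i)) m) (MQ R (fun i => !(F i)) m)).adjugate j2 k2 := by
    rw [hP2, hQ2, PX_transpose, ← Matrix.adjugate_transpose, Matrix.transpose_apply]
  rw [← hdet] at h2
  simp only [← hadj] at i2
  set G : Finset (Fin m → A) := Z2.image (fun a i => g (acol T' P2 Q2 j2 a i)) with hG
  have hGc : G.card = Z2.card := by
    rw [hG]
    apply Finset.card_image_of_injOn
    intro a ha b hb hab
    exact i2 a ha b hb (congrFun hab k2)
  rw [cola_bdw T x S hS hx]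
  have h3 := cnt_ge T x S hS.1 hS.2.2 hx hm F hF G (by
    intro f hf
    obtain ⟨a, ha, rfl⟩ := Finset.mem_image.1 hf
    obtain ⟨ρ, hρ⟩ := lift T' x S hS.1 hS.2.2 hx hm F hF (acol T' P2 Q2 j2 a) (by
      intro j
      rw [hR]
      exact acol_row T' P2 Q2 j2 a (h2 a ha) j)
    choose b hb using hD
    have h4 := hρ A T g hg (fun j => ∑ k, pev T ((PX (MP R F m) (MQ R F m)).adjugate j k) (b (ρ k))) (by
      intro i
      rw [hR, adj_solve T (MP R F m) (MQ R F m) (fun k => b (ρ k)) i, hb])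
    exact h4)
  rw [hR] at h3
  refine le_trans ?_ h3
  rw [hGc]
  exact Nat.mul_le_mul_right _ (adj_card T (MP R F m) (MQ R F m) j1 k1 Z1 h1 i1)

end Pool.Agent.H86.RU
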