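import Pool.Agent.H86.RU.RShift
import Pool.Agent.H86.RU.RCol

/-!
# Sums of knots with ribbon number two
-/

set_option autoImplicit false

namespace Pool.Agent.H86.RU

open Pool.Agent.H86.RB Pool.Agent.H86.RT

/-- `K` has a non-trivial Alexander colouring: more than one colouring with lower end `0` by some finite abelian group
with an automorphism -/
def Nt (K : Wd) : Prop :=
  ∃ (A : Type) (_ : AddCommGroup A) (_ : Fintype A) (_ : DecidableEq A) (T : A ≃+ A), 1 < cola T K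

theorem exists_two : ∃ Tk : ∀ k : ℕ, (Fin 1 → ZMod (3 ^ k)) ≃+ (Fin 1 → ZMod (3 ^ k)),
    (∀ k v a, Tk k v a = 2 * v a) ∧ (∀ K : Wd, Kn K → Rb K → rib K = 2 → Nt K → Cn 3 3 Tk K) := by
  obtain ⟨Tk, hT⟩ := exists_T3
  refine ⟨Tk, fun k v a => ?_, fun K h1 h2 h3 h4 => ?_⟩
  · rw [hT, Fin.sum_univ_one]
    have ha : a = 0 := Subsingleton.elim _ _
    subst ha
    norm_num
  · obtain ⟨A, _, _, _, T, h5⟩ := h4
    exact two_cn Tk hT K h1 h2 h3 T h5

theorem rib_sum (L : List Wd) (h : ∀ K ∈ L, Kn K ∧ Rb K ∧ rib K = 2 ∧ Nt K) :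
    rib L.flatten = 2 * L.length := by
  obtain ⟨Tk, hT⟩ := exists_T3
  have : Fact (Nat.Prime 3) := ⟨Nat.prime_three⟩
  have : Fact (Nat.Prime 2) := ⟨Nat.prime_two⟩
  have hΘ : ∀ a b : Fin 1, a ≤ b → ((2 : ℕ) : ℤ) ∣ (fun _ _ => 2 : Matrix (Fin 1) (Fin 1) ℤ) a b :=
    fun a b _ => dvd_refl _
  have h1 := (cn_flatten 3 3 Tk 2 Nat.one_pos (fun _ _ => 2) hΘ (by norm_num) hT L (by
    intro K hK
    obtain ⟨g1, g2, g3, A, _, _, _, T, g4⟩ := h K hK
    exact two_cn Tk hT K g1 g2 g3 T g4)).1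
  rw [h1]
  have h2 : ∀ K ∈ L, rib K = 2 := fun K hK => (h K hK).2.2.1
  clear h h1
  induction L with
  | nil => rfl
  | cons K L ih =>
    rw [List.map_cons, List.sum_cons, List.length_cons, h2 K (by simp),
      ih fun K' hK' => h2 K' (by simp [hK'])]
    ring

theorem nt_kpz (p : Bool) (n : ℕ) : Nt (kpz p n) := by
  refine ⟨Fin 4 → ZMod 3, inferInstance, inferInstance, inferInstance, T4.toAddEquiv, ?_⟩
  rcases Nat.even_or_odd' n with ⟨j, rfl | rfl⟩
  · have := cola_even p j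
    omega
  · have := cola_odd p j
    omega

/-- a non-trivial tricolouring is a non-trivial Alexander colouring -/
theorem nt_col (K : Wd) (hK : Rb K) (h : 1 < col 3 K) : Nt K := by
  refine ⟨ZMod 3, inferInstance, inferInstance, inferInstance, AddEquiv.neg (ZMod 3), ?_⟩
  rw [cola_neg K hK]
  exact h

end Pool.Agent.H86.RU
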