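import Pool.Agent.H86.RT.Alx

/-!
# Colourings and injective homomorphisms
-/

set_option autoImplicit false

namespace Pool.Agent.H86.RU

open Pool.Agent.H86.RB Pool.Agent.H86.RT

section

variable {C C' : Type} [Fintype C] [DecidableEq C] [Fintype C'] [DecidableEq C'] (Q : Sq C) (Q' : Sq C')
  (φ : C' → C) (hφ : Function.Injective φ) (hb : ∀ a, φ (Q'.bar a) = Q.bar (φ a))
  (ho : ∀ a b, φ (Q'.op a b) = Q.op (φ a) (φ b))

include hφ hb ho

private theorem sloc_map (k : Kd) (l : List C') :
    (sloc Q' k l).map (List.map φ) ≤ sloc Q k (l.map φ) := by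
  have hs : ∀ a b, φ ((Q'.op b).symm a) = (Q.op (φ b)).symm (φ a) := by
    intro a b
    rw [Equiv.eq_symm_apply, ← ho, Equiv.apply_symm_apply]
  cases k with
  | cup =>
    have h1 : ((Finset.univ : Finset C').val.map φ) ≤ (Finset.univ : Finset C).val := by
      rw [Multiset.le_iff_subset (Multiset.Nodup.map hφ Finset.univ.nodup)]
      intro x _
      exact Finset.mem_univ x
    have h2 : (sloc Q' .cup l).map (List.map φ) =
        ((Finset.univ : Finset C').val.map φ).map (fun c => c :: Q.bar c :: l.map φ) := by
      simp only [sloc, Multiset.map_map]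
      apply Multiset.map_congr rfl
      intro c _
      simp [hb]
    rw [h2]
    exact Multiset.map_le_map h1
  | cap =>
    cases l with
    | nil => simp [sloc]
    | cons a l =>
      cases l with
      | nil => simp [sloc]
      | cons b r =>
        simp only [sloc, List.map_cons]
        by_cases h : b = Q'.bar a
        · rw [if_pos h, if_pos (by rw [h, hb]), Multiset.map_singleton]
        · rw [if_neg h, Multiset.map_zero]
          exact Multiset.zero_le _
  | pos =>
    cases l with
    | nil => simp [sloc]
    | cons a l =>
      cases l with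
      | nil => simp [sloc]
      | cons b r => simp [sloc, ho]
  | neg =>
    cases l with
    | nil => simp [sloc]
    | cons a l =>
      cases l with
      | nil => simp [sloc]
      | cons b r => simp [sloc, hs]

theorem srun_mono (w : Wd) (l : List C') :
    Multiset.card (srun Q' w l) ≤ Multiset.card (srun Q w (l.map φ)) := by
  induction w generalizing l with
  | nil => simp [srun_nil]
  | cons s w ih =>
    have h1 : (sstp Q' s l).map (List.map φ) ≤ sstp Q s (l.map φ) := by
      have h2 := Multiset.map_le_map (f := fun r => (l.map φ).take s.i ++ r)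
        (sloc_map Q Q' φ hφ hb ho s.k (l.drop s.i))
      rw [List.map_drop] at h2
      refine le_trans (le_of_eq ?_) h2
      simp only [sstp, Multiset.map_map]
      apply Multiset.map_congr rfl
      intro r _
      simp [List.map_take]
    rw [srun_cons, srun_cons, Multiset.card_bind, Multiset.card_bind]
    obtain ⟨t, ht⟩ := Multiset.le_iff_exists_add.1 h1
    rw [ht, Multiset.map_add, Multiset.sum_add, Multiset.map_map]
    refine le_trans (Multiset.sum_map_le_sum_map _ _ fun r _ => ?_) (Nat.le_add_right _ _)
    exact ih r

end

/-- an injective homomorphism of modules does not decrease the number of colourings -/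
theorem cola_mono {A A' : Type} [AddCommGroup A] [Fintype A] [DecidableEq A] [AddCommGroup A']
    [Fintype A'] [DecidableEq A'] (T : A ≃+ A) (T' : A' ≃+ A') (g : A' →+ A)
    (hi : Function.Injective g) (hg : ∀ a, g (T' a) = T (g a)) (w : Wd) : cola T' w ≤ cola T w := by
  have hs : ∀ a, g (T'.symm a) = T.symm (g a) := by
    intro a
    rw [AddEquiv.eq_symm_apply, ← hg, AddEquiv.apply_symm_apply]
  have h := srun_mono (aq T) (aq T') (fun p : A' × Bool => (g p.1, p.2))
    (fun p q hpq => by
      simp only [Prod.mk.injEq] at hpq
      exact Prod.ext (hi hpq.1) hpq.2)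
    (fun p => rfl)
    (fun p q => by
      show (g (p.1 + ax T' p.2 (q.1 - p.1)), q.2) = (g p.1 + ax T p.2 (g q.1 - g p.1), q.2)
      rw [map_add, ← map_sub]
      congr 2
      cases p.2
      · exact hs _
      · exact hg _) w [((0 : A'), true)]
  have e : [((0 : A'), true)].map (fun p : A' × Bool => (g p.1, p.2)) = [((0 : A), true)] := by
    simp
  rw [e] at h
  exact h

end Pool.Agent.H86.RU
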