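import Pool.Agent.H86.RU.RTwoB
import Pool.Agent.H86.RT.Addv

/-!
# Colourings of knots with ribbon number two by the powers of three
-/

set_option autoImplicit false

namespace Pool.Agent.H86.RU

open Pool.Agent.H86.RT Polynomial

private theorem ev_two (p : ℤ[X]) (h : ¬ (3 : ℤ) ∣ p.eval (-1)) : ¬ (3 : ℤ) ∣ p.eval 2 := by
  intro h2
  apply h
  have h3 : (3 : ℤ) ∣ p.eval 2 - p.eval (-1) := by
    have := Polynomial.sub_dvd_eval_sub (2 : ℤ) (-1) p
    norm_num at this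
    exact this
  have := dvd_sub h2 h3
  simpa using this

private theorem pow_zero3 (k : ℕ) (a : Fin 1 → ZMod (3 ^ k)) : ((3 : ℤ) ^ k) • a = 0 := by
  ext i
  rw [Pi.smul_apply, Pi.zero_apply, zsmul_eq_mul]
  have : (((3 : ℤ) ^ k : ℤ) : ZMod (3 ^ k)) = 0 := by
    have := ZMod.natCast_self (3 ^ k)
    push_cast at this ⊢
    exact this
  rw [this, zero_mul]

/-- multiplication by three -/
private def g3 (A : Type) [AddCommGroup A] : A →+ A where
  toFun a := (3 : ℤ) • a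
  map_zero' := smul_zero _
  map_add' _ _ := smul_add _ _ _

private theorem nat_inj {k a b : ℕ} (ha : a < 3 ^ k) (hb : b < 3 ^ k)
    (h : (fun _ : Fin 1 => ((a : ℕ) : ZMod (3 ^ k))) = fun _ => ((b : ℕ) : ZMod (3 ^ k))) : a = b := by
  have h1 : ((a : ℕ) : ZMod (3 ^ k)) = ((b : ℕ) : ZMod (3 ^ k)) := congrFun h 0
  rw [ZMod.natCast_eq_natCast_iff'] at h1
  rwa [Nat.mod_eq_of_lt ha, Nat.mod_eq_of_lt hb] at h1

section

variable (x : ℕ → Bool) (S : List Pool.Agent.H86.RB.Bd) (hS : Pool.Agent.H86.RB.Dsk S)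
  (hx : okk S 1 x [true]) {m : ℕ} (hm : (Pool.Agent.H86.RB.rows S 1 [0]).length = m) (F : ℕ → Bool)
  (hF : ∀ i, F i = (fgs S 1 x [true]).getD i true)

include hS hx hm hF

theorem case_III (ε : ℤ) (j1 k1 j2 k2 : Fin m)
    (n1 : ¬ (3 : ℤ) ∣ ((PX (MP (Pool.Agent.H86.RB.rows S 1 [0]) F m)
      (MQ (Pool.Agent.H86.RB.rows S 1 [0]) F m)).adjugate j1 k1).eval (-1))
    (d1 : (PX (MP (Pool.Agent.H86.RB.rows S 1 [0]) F m)
      (MQ (Pool.Agent.H86.RB.rows S 1 [0]) F m)).det = C ε * (C 2 * X - X ^ 2))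
    (k : ℕ) (T : (Fin 1 → ZMod (3 ^ k)) ≃+ (Fin 1 → ZMod (3 ^ k))) (hT : ∀ a, T a = (2 : ℤ) • a) :
    3 ^ k ≤ cola T (Pool.Agent.H86.RB.bdw S) := by
  have h := gen_lower T T (0 : (Fin 1 → ZMod (3 ^ k)) →+ (Fin 1 → ZMod (3 ^ k))) (fun a => by simp)
    x S hS hx hm F hF (fun y => ⟨0, by rw [map_zero]; rfl⟩) j1 k1 j2 k2 Finset.univ {0}
    (fun a _ => by
      rw [d1, pev_scalar hT]
      simp)
    (fun a _ b _ hab => by
      refine pev_inj_of (T := T) (fun v hv => ?_) a b hab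
      rw [pev_scalar hT] at hv
      exact smul_inj3 k (pow_zero3 k) _ (ev_two _ n1) _ hv)
    (fun a ha => by rw [Finset.mem_singleton] at ha; rw [ha, map_zero])
    (fun a ha b hb _ => by
      rw [Finset.mem_singleton] at ha hb
      rw [ha, hb])
  refine le_trans ?_ h
  rw [Finset.card_singleton, mul_one, Finset.card_univ, Fintype.card_fun, ZMod.card]
  simp

theorem case_II (ε : ℤ) (hε : ε = 1 ∨ ε = -1) (j1 k1 j2 k2 : Fin m)
    (n1 : ¬ (3 : ℤ) ∣ ((PX (MP (Pool.Agent.H86.RB.rows S 1 [0]) F m)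
      (MQ (Pool.Agent.H86.RB.rows S 1 [0]) F m)).adjugate j1 k1).eval (-1))
    (n2 : ¬ (3 : ℤ) ∣ ((PX (MP (Pool.Agent.H86.RB.rows S 1 [0]) (fun i => !(F i)) m)
      (MQ (Pool.Agent.H86.RB.rows S 1 [0]) (fun i => !(F i)) m)).adjugate j2 k2).eval (-1))
    (d1 : (PX (MP (Pool.Agent.H86.RB.rows S 1 [0]) F m)
      (MQ (Pool.Agent.H86.RB.rows S 1 [0]) F m)).det = C ε * (C 2 * X - 1))
    (d2 : (PX (MP (Pool.Agent.H86.RB.rows S 1 [0]) (fun i => !(F i)) m)
      (MQ (Pool.Agent.H86.RB.rows S 1 [0]) (fun i => !(F i)) m)).det = C ε * (C 2 * X - X ^ 2))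
    (k : ℕ) (T : (Fin 1 → ZMod (3 ^ k)) ≃+ (Fin 1 → ZMod (3 ^ k))) (hT : ∀ a, T a = (2 : ℤ) • a) :
    3 ^ k ≤ cola T (Pool.Agent.H86.RB.bdw S) := by
  have hεε : ε * ε = 1 := by rcases hε with rfl | rfl <;> norm_num
  cases k with
  | zero => exact cola_one_le x S hS hx hm F hF T j1 k1
  | succ k =>
    have h3 : 3 ^ k < 3 ^ (k + 1) := Nat.pow_lt_pow_right (by norm_num) (Nat.lt_succ_self k)
    have hlt1 : ∀ c : ℕ, c < 3 → c * 3 ^ k < 3 ^ (k + 1) := by
      intro c hc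
      rw [pow_succ, mul_comm (3 ^ k) 3]
      exact Nat.mul_lt_mul_of_pos_right hc (pow_pos (by norm_num) k)
    have h := gen_lower T T (g3 (Fin 1 → ZMod (3 ^ (k + 1)))) (fun a => by
        show (3 : ℤ) • T a = T ((3 : ℤ) • a)
        rw [map_zsmul]) x S hS hx hm F hF
      (fun y => ⟨ε • y, by
        show _ = (3 : ℤ) • y
        rw [d1, pev_scalar hT, smul_smul]
        congr 1
        simp only [eval_mul, eval_C, eval_sub, eval_X, eval_one]
        linear_combination 3 * hεε⟩) j1 k1 j2 k2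
      ((Finset.range 3).image (fun c => fun _ => ((c * 3 ^ k : ℕ) : ZMod (3 ^ (k + 1)))))
      ((Finset.range (3 ^ k)).image (fun c => fun _ => ((c : ℕ) : ZMod (3 ^ (k + 1)))))
      (fun a ha => by
        obtain ⟨c, _, rfl⟩ := Finset.mem_image.1 ha
        rw [d1, pev_scalar hT]
        have e1 : (C ε * (C 2 * (X : ℤ[X]) - 1)).eval 2 = ε * 3 := by
          simp only [eval_mul, eval_C, eval_sub, eval_X, eval_one]
          norm_num
        rw [e1, mul_smul]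
        have e2 : (3 : ℤ) • (fun _ : Fin 1 => ((c * 3 ^ k : ℕ) : ZMod (3 ^ (k + 1)))) = 0 := by
          ext i
          rw [Pi.smul_apply, Pi.zero_apply, zsmul_eq_mul]
          have e3 : ((3 : ℤ) : ZMod (3 ^ (k + 1))) * ((c * 3 ^ k : ℕ) : ZMod (3 ^ (k + 1))) =
              ((c * 3 ^ (k + 1) : ℕ) : ZMod (3 ^ (k + 1))) := by
            push_cast
            ring
          rw [e3, ZMod.natCast_eq_zero_iff]
          exact dvd_mul_left _ _
        rw [e2, smul_zero])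
      (fun a _ b _ hab => by
        refine pev_inj_of (T := T) (fun v hv => ?_) a b hab
        rw [pev_scalar hT] at hv
        exact smul_inj3 (k + 1) (pow_zero3 (k + 1)) _ (ev_two _ n1) _ hv)
      (fun a _ => by
        rw [d2, pev_scalar hT]
        simp)
      (fun a ha b hb hab => by
        obtain ⟨c, hc, rfl⟩ := Finset.mem_image.1 ha
        obtain ⟨d, hd, rfl⟩ := Finset.mem_image.1 hb
        rw [Finset.mem_range] at hc hd
        rw [pev_scalar hT, pev_scalar hT, map_zsmul, map_zsmul, ← sub_eq_zero, ← smul_sub] at hab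
        have h4 := smul_inj3 (k + 1) (pow_zero3 (k + 1)) _ (ev_two _ n2) _ hab
        have h5 : (3 : ℤ) • (fun _ : Fin 1 => ((c : ℕ) : ZMod (3 ^ (k + 1)))) =
          (3 : ℤ) • (fun _ : Fin 1 => ((d : ℕ) : ZMod (3 ^ (k + 1)))) := sub_eq_zero.1 h4
        have h6 : (fun _ : Fin 1 => ((3 * c : ℕ) : ZMod (3 ^ (k + 1)))) =
            fun _ => ((3 * d : ℕ) : ZMod (3 ^ (k + 1))) := by
          ext i
          have h7 := congrFun h5 i
          simp only [Pi.smul_apply, zsmul_eq_mul] at h7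
          push_cast at h7 ⊢
          exact h7
        have h8 : 3 * c = 3 * d := by
          refine nat_inj ?_ ?_ h6
          · rw [pow_succ, mul_comm]
            exact Nat.mul_lt_mul_of_pos_right hc (by norm_num)
          · rw [pow_succ, mul_comm]
            exact Nat.mul_lt_mul_of_pos_right hd (by norm_num)
        have h9 : c = d := by omega
        rw [h9])
    refine le_trans ?_ h
    rw [Finset.card_image_of_injOn, Finset.card_image_of_injOn, Finset.card_range, Finset.card_range,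
      pow_succ, mul_comm]
    · intro c hc d hd hcd
      rw [Finset.coe_range, Set.mem_Iio] at hc hd
      exact nat_inj (hc.trans h3) (hd.trans h3) hcd
    · intro c hc d hd hcd
      rw [Finset.coe_range, Set.mem_Iio] at hc hd
      have := nat_inj (hlt1 c hc) (hlt1 d hd) hcd
      exact Nat.eq_of_mul_eq_mul_right (pow_pos (by norm_num) k) this

end

/-- a ribbon knot with ribbon number two and a non-trivial Alexander colouring is in the class -/
theorem two_cl (Tk : ∀ k : ℕ, (Fin 1 → ZMod (3 ^ k)) ≃+ (Fin 1 → ZMod (3 ^ k)))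
    (hT : ∀ k v a, Tk k v a = ∑ b : Fin 1, (((fun _ _ => 2 : Matrix (Fin 1) (Fin 1) ℤ) a b : ℤ) :
      ZMod (3 ^ k)) * v b) (K : Pool.Agent.H86.RB.Wd) (hn : Pool.Agent.H86.RB.Kn K)
    (hK : Pool.Agent.H86.RB.Rb K) (h2 : Pool.Agent.H86.RB.rib K = 2)
    {A : Type} [AddCommGroup A] [Fintype A] [DecidableEq A] (T : A ≃+ A) (h3 : 1 < cola T K) :
    Cl (l := 3) T4 3 Tk K := by
  obtain ⟨S, hS, hp, hI⟩ := Pool.Agent.H86.RB.rib_spec K hK
  obtain ⟨x, hx⟩ := fac_ex S hS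
  obtain ⟨m, hm⟩ : ∃ m, (Pool.Agent.H86.RB.rows S 1 [0]).length = m := ⟨_, rfl⟩
  obtain ⟨F, hF⟩ : ∃ F : ℕ → Bool, ∀ i, F i = (fgs S 1 x [true]).getD i true := ⟨_, fun _ => rfl⟩
  have hps : (Pool.Agent.H86.RB.rows S 1 [0]).countP Pool.Agent.H86.RB.Row.isps = 2 := by
    rw [Pool.Agent.H86.RB.count_ps, hp, h2]
  rw [← cola_iso T hI] at h3
  obtain ⟨ε, hε, hc⟩ := cases3 S hS x hx hm F hF hps T h3
  have hd : (3 : ℤ) ∣ (PX (MP (Pool.Agent.H86.RB.rows S 1 [0]) F m)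
      (MQ (Pool.Agent.H86.RB.rows S 1 [0]) F m)).det.eval (-1) := by
    rcases hc with ⟨d1, _⟩ | ⟨d1, _⟩ | ⟨d1, _⟩
    · rw [d1]
      refine ⟨ε, ?_⟩
      simp only [eval_mul, eval_C, eval_add, eval_sub, eval_pow, eval_X, eval_one]
      ring
    · rw [d1]
      refine ⟨-ε, ?_⟩
      simp only [eval_mul, eval_C, eval_sub, eval_X, eval_one]
      ring
    · rw [d1]
      refine ⟨-ε, ?_⟩
      simp only [eval_mul, eval_C, eval_sub, eval_pow, eval_X]
      ring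
  have hd' := hd
  rw [← det_m1 _ F m hm hps] at hd'
  obtain ⟨j1, k1, n1⟩ := cof_ne S hS hm F hps hd
  obtain ⟨j2, k2, n2⟩ := cof_ne S hS hm (fun i => !(F i)) hps hd'
  have hT2 : ∀ k a, Tk k a = (2 : ℤ) • a := by
    intro k a
    ext i
    rw [hT, Pi.smul_apply, zsmul_eq_mul]
    have hi : i = 0 := Subsingleton.elim _ _
    subst hi
    rw [Fin.sum_univ_one]
  refine ⟨hn, hK, ?_⟩
  rw [h2, ← cola_iso T4.toAddEquiv hI]
  rcases hc with ⟨d1, d2⟩ | ⟨d1, d2⟩ | ⟨d1, d2⟩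
  · refine ⟨4, 0, case_I x S hS hx hm F hF ε hε j1 k1 j2 k2 n1 n2 d1 d2, fun k => ?_, by norm_num⟩
    rw [mul_zero, pow_zero, ← cola_iso (Tk k) hI]
    exact cola_one_le x S hS hx hm F hF (Tk k) j1 k1
  · refine ⟨2, 1, case_T4 x S hS hx hm F hF ε hε j1 k1 j2 k2 n1 n2 (Or.inl d1) hd', fun k => ?_,
      by norm_num⟩
    rw [mul_one, ← cola_iso (Tk k) hI]
    exact case_II x S hS hx hm F hF ε hε j1 k1 j2 k2 n1 n2 d1 d2 k (Tk k) (hT2 k)
  · refine ⟨2, 1, case_T4 x S hS hx hm F hF ε hε j1 k1 j2 k2 n1 n2 (Or.inr d1) hd', fun k => ?_,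
      by norm_num⟩
    rw [mul_one, ← cola_iso (Tk k) hI]
    exact case_III x S hS hx hm F hF ε j1 k1 j2 k2 n1 d1 k (Tk k) (hT2 k)

end Pool.Agent.H86.RU
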