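import Pool.Agent.H86.RU.RMono
import Pool.Agent.H86.RU.RTwoC

/-!
# Colourings by the cyclic shifts, and the additivity of the ribbon number
-/

set_option autoImplicit false

namespace Pool.Agent.H86.RU

open Pool.Agent.H86.RB Pool.Agent.H86.RT

/-- the cyclic shift of the sequences with period `n + 1` over `ZMod l` -/
def sh (l n : ℕ) : (ZMod (n + 1) → ZMod l) ≃ₗ[ZMod l] (ZMod (n + 1) → ZMod l) where
  toFun v i := v (i + 1)
  map_add' _ _ := rfl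
  map_smul' _ _ := rfl
  invFun v i := v (i - 1)
  left_inv v := by
    funext i
    simp
  right_inv v := by
    funext i
    simp

theorem sh_apply (l n : ℕ) (v : ZMod (n + 1) → ZMod l) (i : ZMod (n + 1)) : sh l n v i = v (i + 1) := rfl

theorem sh_pow (l n k : ℕ) (v : ZMod (n + 1) → ZMod l) (i : ZMod (n + 1)) :
    (sh l n ^ k) v i = v (i + k) := by
  induction k generalizing v with
  | zero => simp
  | succ k ih =>
    rw [pow_succ]
    show (sh l n ^ k) (sh l n v) i = _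
    rw [ih, sh_apply]
    congr 1
    push_cast
    ring

theorem sh_pow_one (l n : ℕ) : sh l n ^ (n + 1) = 1 := by
  ext v i
  rw [sh_pow, ZMod.natCast_self, add_zero]
  rfl

/-- the coordinate zero -/
def pr0 (l n : ℕ) : (ZMod (n + 1) → ZMod l) →ₗ[ZMod l] ZMod l := LinearMap.proj 0

theorem sh_sep (l n : ℕ) (v : ZMod (n + 1) → ZMod l) (h : ∀ i : ℕ, pr0 l n ((sh l n ^ i) v) = 0) :
    v = 0 := by
  funext i
  have h1 := h i.val
  have h2 : pr0 l n ((sh l n ^ i.val) v) = (sh l n ^ i.val) v 0 := rfl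
  rw [h2, sh_pow, zero_add, ZMod.natCast_zmod_val] at h1
  exact h1

section

variable {l : ℕ} {V : Type} [AddCommGroup V] [Module (ZMod l) V] (T : V ≃ₗ[ZMod l] V)
  (lam : V →ₗ[ZMod l] ZMod l)

/-- the sequences of a module with a linear form -/
def seqv (n : ℕ) : V →+ (ZMod (n + 1) → ZMod l) where
  toFun v j := lam ((T ^ j.val) v)
  map_zero' := by
    funext j
    simp
  map_add' v w := by
    funext j
    simp

theorem seqv_T (n : ℕ) (hn : T ^ (n + 1) = 1) (v : V) :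
    seqv T lam n (T.toAddEquiv v) = (sh l n).toAddEquiv (seqv T lam n v) := by
  funext j
  show lam ((T ^ j.val) (T v)) = lam ((T ^ (j + 1).val) v)
  have h1 : (T ^ j.val) (T v) = (T ^ (j.val + 1)) v := by rw [pow_succ]; rfl
  have h2 : T ^ (j + 1).val = T ^ (j.val + 1) := by
    rw [ZMod.val_add, ZMod.val_one_eq_one_mod, Nat.add_mod_mod, ← pow_eq_pow_mod _ hn]
  rw [h1, h2]

theorem seqv_inj (n : ℕ) (hn : T ^ (n + 1) = 1)
    (hsep : ∀ v : V, (∀ i : ℕ, lam ((T ^ i) v) = 0) → v = 0) : Function.Injective (seqv T lam n) := by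
  rw [injective_iff_map_eq_zero]
  intro v hv
  apply hsep
  intro i
  have h1 : lam ((T ^ ((i : ZMod (n + 1))).val) v) = 0 := congrFun hv (i : ZMod (n + 1))
  rwa [ZMod.val_natCast, ← pow_eq_pow_mod _ hn] at h1

theorem exists_order [Finite V] : ∃ n, T ^ (n + 1) = 1 := by
  have : Finite (V ≃ₗ[ZMod l] V) :=
    Finite.of_injective (fun f : V ≃ₗ[ZMod l] V => (f : V → V)) DFunLike.coe_injective
  have h := orderOf_pos T
  refine ⟨orderOf T - 1, ?_⟩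
  rw [Nat.sub_add_cancel h, pow_orderOf_eq_one]

end

theorem cola_sh_le (l n n' : ℕ) [Fact l.Prime] [NeZero l] (h : (n + 1) ∣ (n' + 1)) (K : Wd) :
    cola (sh l n).toAddEquiv K ≤ cola (sh l n').toAddEquiv K := by
  obtain ⟨c, hc⟩ := h
  have h1 : sh l n ^ (n' + 1) = 1 := by rw [hc, pow_mul, sh_pow_one, one_pow]
  exact cola_mono _ _ (seqv (sh l n) (pr0 l n) n') (seqv_inj _ _ _ h1 (sh_sep l n))
    (seqv_T _ _ _ h1) K

section

variable (l : ℕ) [Fact l.Prime] [NeZero l] {s : ℕ} (N : ℕ) [NeZero N]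
  (Tk : ∀ k : ℕ, (Fin s → ZMod (N ^ k)) ≃+ (Fin s → ZMod (N ^ k)))

/-- `K` is a ribbon knot with at least `l ^ e` colourings by a cyclic shift over `ZMod l` and at least `N ^ (k d)`
colourings by `((ZMod (N ^ k)) ^ s, Tk k)` for all `k`, where `s * e + 2 * d = 2 * s * rib K` -/
def Cn (K : Wd) : Prop :=
  Kn K ∧ Rb K ∧ ∃ n e d : ℕ, l ^ e ≤ cola (sh l n).toAddEquiv K ∧ (∀ k, N ^ (k * d) ≤ cola (Tk k) K) ∧
    s * e + 2 * d = 2 * s * rib K

/-- the bound -/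
theorem bnd_sh (K : Wd) (hK : Rb K) (q : ℕ) [Fact q.Prime] (Θ : Matrix (Fin s) (Fin s) ℤ)
    (hΘ : ∀ a b, a ≤ b → (q : ℤ) ∣ Θ a b) (hN : 1 < N)
    (hT : ∀ k v a, Tk k v a = ∑ b, ((Θ a b : ℤ) : ZMod (N ^ k)) * v b) (n e d : ℕ)
    (he : l ^ e ≤ cola (sh l n).toAddEquiv K) (hd : ∀ k, N ^ (k * d) ≤ cola (Tk k) K) :
    s * e + 2 * d ≤ 2 * s * rib K := by
  have : NeZero q := ⟨(Fact.out : q.Prime).ne_zero⟩
  exact bnd K hK (sh l n) (pr0 l n) (sh_sep l n) q Θ hΘ N hN Tk hT e d he hd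

/-- any module with a separating linear form gives members of the class -/
theorem cn_of_cl {V : Type} [AddCommGroup V] [Module (ZMod l) V] [Fintype V] [DecidableEq V]
    (T : V ≃ₗ[ZMod l] V) (lam : V →ₗ[ZMod l] ZMod l)
    (hsep : ∀ v : V, (∀ i : ℕ, lam ((T ^ i) v) = 0) → v = 0) (K : Wd) (h : Cl T N Tk K) :
    Cn l N Tk K := by
  obtain ⟨h1, h2, e, d, h3, h4, h5⟩ := h
  obtain ⟨n, hn⟩ := exists_order T
  exact ⟨h1, h2, n, e, d, h3.trans (cola_mono _ _ (seqv T lam n) (seqv_inj T lam n hn hsep)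
    (seqv_T T lam n hn) K), h4, h5⟩

theorem cn_common (L : List Wd) (h : ∀ K ∈ L, Cn l N Tk K) :
    ∃ n, ∀ K ∈ L, Cl (sh l n) N Tk K := by
  induction L with
  | nil => exact ⟨0, fun K hK => by simp at hK⟩
  | cons K L ih =>
    obtain ⟨n, hn⟩ := ih fun K' hK' => h K' (by simp [hK'])
    obtain ⟨g1, g2, n', e, d, g3, g4, g5⟩ := h K (by simp)
    have hm : (n + 1) * (n' + 1) = (n * n' + n + n') + 1 := by ring
    refine ⟨n * n' + n + n', fun K' hK' => ?_⟩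
    rcases List.mem_cons.1 hK' with rfl | hK'
    · exact ⟨g1, g2, e, d, g3.trans (cola_sh_le l n' _ ⟨n + 1, by rw [← hm, mul_comm]⟩ _), g4, g5⟩
    · obtain ⟨f1, f2, e', d', f3, f4, f5⟩ := hn K' hK'
      exact ⟨f1, f2, e', d', f3.trans (cola_sh_le l n _ ⟨n' + 1, by rw [← hm]⟩ _), f4, f5⟩

theorem cn_flatten (q : ℕ) [Fact q.Prime] (hs : 0 < s) (Θ : Matrix (Fin s) (Fin s) ℤ)
    (hΘ : ∀ a b, a ≤ b → (q : ℤ) ∣ Θ a b) (hN : 1 < N)
    (hT : ∀ k v a, Tk k v a = ∑ b, ((Θ a b : ℤ) : ZMod (N ^ k)) * v b)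
    (L : List Wd) (h : ∀ K ∈ L, Cn l N Tk K) :
    rib L.flatten = (L.map rib).sum ∧ Cn l N Tk L.flatten := by
  have : NeZero q := ⟨(Fact.out : q.Prime).ne_zero⟩
  obtain ⟨n, hn⟩ := cn_common l N Tk L h
  obtain ⟨h1, h2⟩ := cl_flatten (sh l n) N Tk (pr0 l n) (sh_sep l n) q hs Θ hΘ hN hT L hn
  exact ⟨h1, cn_of_cl l N Tk (sh l n) (pr0 l n) (sh_sep l n) _ h2⟩

end

theorem two_cn (Tk : ∀ k : ℕ, (Fin 1 → ZMod (3 ^ k)) ≃+ (Fin 1 → ZMod (3 ^ k)))
    (hT : ∀ k v a, Tk k v a = ∑ b : Fin 1, (((fun _ _ => 2 : Matrix (Fin 1) (Fin 1) ℤ) a b : ℤ) :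
      ZMod (3 ^ k)) * v b) (K : Wd) (hn : Kn K) (hK : Rb K) (h2 : rib K = 2)
    {A : Type} [AddCommGroup A] [Fintype A] [DecidableEq A] (T : A ≃+ A) (h3 : 1 < cola T K) :
    Cn 3 3 Tk K := by
  have : Fact (Nat.Prime 3) := ⟨Nat.prime_three⟩
  exact cn_of_cl 3 3 Tk T4 lam4 hsep4 K (two_cl Tk hT K hn hK h2 T h3)

end Pool.Agent.H86.RU
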