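import Pool.Agent.H86.RU.RGen
import Pool.Agent.H86.RU.LDet
import Pool.Agent.H86.RU.LAdjn
import Pool.Agent.H86.RU.LMod
import Pool.Agent.H86.RB.K3

/-!
# The pencil of a disk with two ribbon singularities, modulo three
-/

set_option autoImplicit false

namespace Pool.Agent.H86.RU

open Pool.Agent.H86.RT Polynomial

private theorem co_pm (f : Bool) (r : Pool.Agent.H86.RB.Row) :
    ∃ e : ℤ, (e = 1 ∨ e = -1) ∧ ∀ v, cP f v r + (-1) * cQ f v r = e * r.co v := by
  cases r with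
  | mg a b =>
    refine ⟨1, Or.inl rfl, fun v => ?_⟩
    unfold cP cQ Pool.Agent.H86.RB.Row.co
    ring
  | ps a n b =>
    cases f
    · refine ⟨1, Or.inl rfl, fun v => ?_⟩
      unfold cP cQ Pool.Agent.H86.RB.Row.co
      simp only [Bool.false_eq_true, if_false]
      ring
    · refine ⟨-1, Or.inr rfl, fun v => ?_⟩
      unfold cP cQ Pool.Agent.H86.RB.Row.co
      simp only [if_true]
      ring

/-- the kernel of the pencil at `-1` -/
theorem kf_pm (R : List Pool.Agent.H86.RB.Row) (F : ℕ → Bool) (m N : ℕ) [NeZero N] :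
    Pool.Agent.H86.RB.Kf N (MP R F m + (-1 : ℤ) • MQ R F m) =
      Pool.Agent.H86.RB.Kf N (Pool.Agent.H86.RB.Mt R m) := by
  ext v
  simp only [Pool.Agent.H86.RB.Kf, Finset.mem_filter, Finset.mem_univ, true_and]
  apply forall_congr'
  intro i
  obtain ⟨e, he, h⟩ := co_pm (F i) (R.getD i (.mg 0 0))
  have h1 : ∀ j, (MP R F m + (-1 : ℤ) • MQ R F m) i j = e * Pool.Agent.H86.RB.Mt R m i j := by
    intro j
    rw [Matrix.add_apply, Matrix.smul_apply, smul_eq_mul]
    exact h _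
  simp only [h1]
  rcases he with rfl | rfl
  · simp
  · simp

theorem eval_adj {m : ℕ} (P Q : Matrix (Fin m) (Fin m) ℤ) (t : ℤ) (i j : Fin m) :
    ((PX P Q).adjugate i j).eval t = (P + t • Q).adjugate i j := by
  have h1 : ((PX P Q).adjugate i j).eval t =
      (Polynomial.evalRingHom t).mapMatrix (PX P Q).adjugate i j := rfl
  rw [h1, RingHom.map_adjugate]
  congr 2
  ext i j
  rw [Matrix.add_apply, Matrix.smul_apply, smul_eq_mul]
  show (Polynomial.evalRingHom t) (C (P i j) + X * C (Q i j)) = P i j + t * Q i j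
  simp

theorem det_m1 (R : List Pool.Agent.H86.RB.Row) (F : ℕ → Bool) (m : ℕ) (hm : R.length = m)
    (h2 : R.countP Pool.Agent.H86.RB.Row.isps = 2) :
    (PX (MP R (fun i => !(F i)) m) (MQ R (fun i => !(F i)) m)).det.eval (-1) =
      (PX (MP R F m) (MQ R F m)).det.eval (-1) := by
  have hnn : (fun i => !((fun i => !(F i)) i)) = F := by funext i; simp
  obtain ⟨β, hβ⟩ := two_det R F m hm h2
  obtain ⟨β', hβ'⟩ := two_det R (fun i => !(F i)) m hm h2
  rw [hnn] at hβ'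
  have hs : MP R (fun i => !(F i)) m + MQ R (fun i => !(F i)) m = MP R F m + MQ R F m := by
    ext i j
    simp only [Matrix.add_apply, MP, MQ]
    cases R.getD i (.mg 0 0) with
    | mg a b => rfl
    | ps a n b =>
      cases F i
      · unfold cP cQ
        simp only [Bool.not_false, Bool.false_eq_true, if_false, if_true]
        split_ifs <;> omega
      · unfold cP cQ
        simp only [Bool.not_true, Bool.false_eq_true, if_false, if_true]
        split_ifs <;> omega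
  have q1 := eval_PX (MP R F m) (MQ R F m) 1
  have q2 := eval_PX (MP R (fun i => !(F i)) m) (MQ R (fun i => !(F i)) m) 1
  rw [one_smul] at q1 q2
  rw [hs, hβ'] at q2
  rw [hβ] at q1
  rw [hβ, hβ']
  simp only [eval_add, eval_mul, eval_C, eval_X, eval_pow] at q1 q2 ⊢
  linarith

private theorem pev_unit {A : Type} [AddCommGroup A] (T : A ≃+ A) (ε : ℤ) (hε : ε = 1 ∨ ε = -1) (i : ℕ)
    (a : A) (h : pev T (C ε * X ^ i) a = 0) : a = 0 := by
  have hεε : ε * ε = 1 := by rcases hε with rfl | rfl <;> norm_num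
  rw [pev_mul, pev_C] at h
  have h1 : pev T (X ^ i) a = 0 := by
    calc pev T (X ^ i) a = (ε * ε) • pev T (X ^ i) a := by rw [hεε, one_smul]
      _ = 0 := by rw [mul_smul, h, smul_zero]
  clear h
  induction i generalizing a with
  | zero =>
    rw [pow_zero, map_one] at h1
    exact h1
  | succ i ih =>
    rw [pow_succ, pev_mul, pev_X] at h1
    have := ih (T a) h1
    exact T.injective (by rw [this, map_zero])

/-- a kernel is trivial if the determinant is a unit -/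
private theorem ker_one {A : Type} [AddCommGroup A] [Fintype A] [DecidableEq A] (T : A ≃+ A) {m : ℕ}
    (P Q : Matrix (Fin m) (Fin m) ℤ) (ε : ℤ) (hε : ε = 1 ∨ ε = -1) (i : ℕ)
    (h : (PX P Q).det = C ε * X ^ i) : (Kr T P Q).card ≤ 1 := by
  have : (Kr T P Q) ⊆ {0} := fun f hf => by
    rw [Finset.mem_singleton]
    rw [Kr, Finset.mem_filter] at hf
    funext j
    have h1 := adj_ann T P Q f hf.2 j
    rw [h] at h1
    exact pev_unit T ε hε i _ h1
  have := Finset.card_le_card this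
  rwa [Finset.card_singleton] at this

/-- the three cases -/
theorem cases3 (S : List Pool.Agent.H86.RB.Bd) (hS : Pool.Agent.H86.RB.Dsk S) (x : ℕ → Bool)
    (hx : okk S 1 x [true]) {m : ℕ} (hm : (Pool.Agent.H86.RB.rows S 1 [0]).length = m) (F : ℕ → Bool)
    (hF : ∀ i, F i = (fgs S 1 x [true]).getD i true)
    (h2 : (Pool.Agent.H86.RB.rows S 1 [0]).countP Pool.Agent.H86.RB.Row.isps = 2)
    {A : Type} [AddCommGroup A] [Fintype A] [DecidableEq A] (T : A ≃+ A)
    (h3 : 1 < cola T (Pool.Agent.H86.RB.bdw S)) :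
    ∃ ε : ℤ, (ε = 1 ∨ ε = -1) ∧
      (((PX (MP (Pool.Agent.H86.RB.rows S 1 [0]) F m)
          (MQ (Pool.Agent.H86.RB.rows S 1 [0]) F m)).det = C ε * (X ^ 2 - X + 1) ∧
        (PX (MP (Pool.Agent.H86.RB.rows S 1 [0]) (fun i => !(F i)) m)
          (MQ (Pool.Agent.H86.RB.rows S 1 [0]) (fun i => !(F i)) m)).det = C ε * (X ^ 2 - X + 1)) ∨
      ((PX (MP (Pool.Agent.H86.RB.rows S 1 [0]) F m)
          (MQ (Pool.Agent.H86.RB.rows S 1 [0]) F m)).det = C ε * (C 2 * X - 1) ∧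
        (PX (MP (Pool.Agent.H86.RB.rows S 1 [0]) (fun i => !(F i)) m)
          (MQ (Pool.Agent.H86.RB.rows S 1 [0]) (fun i => !(F i)) m)).det = C ε * (C 2 * X - X ^ 2)) ∨
      ((PX (MP (Pool.Agent.H86.RB.rows S 1 [0]) F m)
          (MQ (Pool.Agent.H86.RB.rows S 1 [0]) F m)).det = C ε * (C 2 * X - X ^ 2) ∧
        (PX (MP (Pool.Agent.H86.RB.rows S 1 [0]) (fun i => !(F i)) m)
          (MQ (Pool.Agent.H86.RB.rows S 1 [0]) (fun i => !(F i)) m)).det = C ε * (C 2 * X - 1))) := by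
  obtain ⟨hbm, hle⟩ := Pool.Agent.H86.RB.rows_le S hS.2.2 hm
  have hconn : ∀ B : Set ℕ, 0 ∈ B →
      (∀ r ∈ Pool.Agent.H86.RB.rows S 1 [0], (r.x ∈ B ↔ r.y ∈ B)) → ∀ v ≤ m, v ∈ B :=
    fun B h0 hB v hv => hS.2.1 B h0 hB v (by rw [hbm]; exact hv)
  obtain ⟨ε, hε, hc⟩ := pencil_all (Pool.Agent.H86.RB.rows S 1 [0]) F m hm hle hconn h2
  refine ⟨ε, hε, ?_⟩
  rcases hc with hc | hc | hc | ⟨⟨i, d1⟩, ⟨i', d2⟩⟩
  · exact Or.inl hc
  · exact Or.inr (Or.inl hc)
  · exact Or.inr (Or.inr hc)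
  · exfalso
    rw [cola_bdw T x S hS hx] at h3
    have h4 := ocnt T x S hS.1 hS.2.2 hx hm F hF
    have h5 := ker_one T _ _ ε hε i d1
    have h6 : (Kr T (MP (Pool.Agent.H86.RB.rows S 1 [0]) (fun i => !(F i)) m).transpose
        (MQ (Pool.Agent.H86.RB.rows S 1 [0]) (fun i => !(F i)) m).transpose).card ≤ 1 := by
      apply ker_one T _ _ ε hε i'
      rw [PX_transpose, Matrix.det_transpose]
      exact d2
    have := Nat.mul_le_mul h5 h6
    omega

/-- a cofactor that is not divisible by three at `-1` -/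
theorem cof_ne (S : List Pool.Agent.H86.RB.Bd) (hS : Pool.Agent.H86.RB.Dsk S) {m : ℕ}
    (hm : (Pool.Agent.H86.RB.rows S 1 [0]).length = m) (F : ℕ → Bool)
    (h2 : (Pool.Agent.H86.RB.rows S 1 [0]).countP Pool.Agent.H86.RB.Row.isps = 2)
    (hd : (3 : ℤ) ∣ (PX (MP (Pool.Agent.H86.RB.rows S 1 [0]) F m)
      (MQ (Pool.Agent.H86.RB.rows S 1 [0]) F m)).det.eval (-1)) :
    ∃ j k, ¬ (3 : ℤ) ∣ ((PX (MP (Pool.Agent.H86.RB.rows S 1 [0]) F m)
      (MQ (Pool.Agent.H86.RB.rows S 1 [0]) F m)).adjugate j k).eval (-1) := by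
  obtain ⟨hbm, hle⟩ := Pool.Agent.H86.RB.rows_le S hS.2.2 hm
  have hconn : ∀ B : Set ℕ, 0 ∈ B → (∀ r ∈ Pool.Agent.H86.RB.rows S 1 [0], (r.x ∈ B ↔ r.y ∈ B)) →
      ∀ v ≤ m, v ∈ B :=
    fun B h0 hB v hv => hS.2.1 B h0 hB v (by rw [hbm]; exact hv)
  have : Fact (Nat.Prime 3) := ⟨Nat.prime_three⟩
  have h4 := Pool.Agent.H86.RB.kf_half (q := 3) (by norm_num) hm hle hconn
  rw [h2, ← kf_pm _ F] at h4
  rw [eval_PX] at hd
  obtain ⟨j, k, h⟩ := adj_ne (MP (Pool.Agent.H86.RB.rows S 1 [0]) F m +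
    (-1 : ℤ) • MQ (Pool.Agent.H86.RB.rows S 1 [0]) F m) 3 (by simpa using h4) (by exact_mod_cast hd)
  refine ⟨j, k, ?_⟩
  rw [eval_adj]
  exact_mod_cast h

end Pool.Agent.H86.RU
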