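import Pool.Agent.H86.RU.RTwoA

/-!
# Colourings of knots with ribbon number two, in the three cases
-/

set_option autoImplicit false

namespace Pool.Agent.H86.RU

open Pool.Agent.H86.RT Polynomial

section

variable (x : ℕ → Bool) (S : List Pool.Agent.H86.RB.Bd) (hS : Pool.Agent.H86.RB.Dsk S)
  (hx : okk S 1 x [true]) {m : ℕ} (hm : (Pool.Agent.H86.RB.rows S 1 [0]).length = m) (F : ℕ → Bool)
  (hF : ∀ i, F i = (fgs S 1 x [true]).getD i true)

include hS hx hm hF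

/-- there is a colouring -/
theorem cola_one_le {A : Type} [AddCommGroup A] [Fintype A] [DecidableEq A] (T : A ≃+ A) (j k : Fin m) :
    1 ≤ cola T (Pool.Agent.H86.RB.bdw S) := by
  have h := gen_lower T T (0 : A →+ A) (fun a => by simp) x S hS hx hm F hF
    (fun y => ⟨0, by rw [map_zero]; rfl⟩) j k j k {0} {0}
    (fun a ha => by rw [Finset.mem_singleton] at ha; rw [ha, map_zero])
    (fun a ha b hb _ => by
      rw [Finset.mem_singleton] at ha hb
      rw [ha, hb])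
    (fun a ha => by rw [Finset.mem_singleton] at ha; rw [ha, map_zero])
    (fun a ha b hb _ => by
      rw [Finset.mem_singleton] at ha hb
      rw [ha, hb])
  simpa using h

theorem case_I (ε : ℤ) (hε : ε = 1 ∨ ε = -1) (j1 k1 j2 k2 : Fin m)
    (n1 : ¬ (3 : ℤ) ∣ ((PX (MP (Pool.Agent.H86.RB.rows S 1 [0]) F m)
      (MQ (Pool.Agent.H86.RB.rows S 1 [0]) F m)).adjugate j1 k1).eval (-1))
    (n2 : ¬ (3 : ℤ) ∣ ((PX (MP (Pool.Agent.H86.RB.rows S 1 [0]) (fun i => !(F i)) m)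
      (MQ (Pool.Agent.H86.RB.rows S 1 [0]) (fun i => !(F i)) m)).adjugate j2 k2).eval (-1))
    (d1 : (PX (MP (Pool.Agent.H86.RB.rows S 1 [0]) F m)
      (MQ (Pool.Agent.H86.RB.rows S 1 [0]) F m)).det = C ε * (X ^ 2 - X + 1))
    (d2 : (PX (MP (Pool.Agent.H86.RB.rows S 1 [0]) (fun i => !(F i)) m)
      (MQ (Pool.Agent.H86.RB.rows S 1 [0]) (fun i => !(F i)) m)).det = C ε * (X ^ 2 - X + 1)) :
    3 ^ 4 ≤ cola T4.toAddEquiv (Pool.Agent.H86.RB.bdw S) := by
  have hεε : ε * ε = 1 := by rcases hε with rfl | rfl <;> norm_num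
  have hinj := pev_T4_inj _ n2
  have h := gen_lower T4.toAddEquiv T2 io2 io2_T x S hS hx hm F hF
    (fun y => ⟨ε • ![y 0, y 1, 0, 0], by
      rw [d1, map_zsmul, pev_I, smul_smul, hεε, one_smul, io2_apply]
      rfl⟩) j1 k1 j2 k2
    (Finset.univ.filter (fun v : Fin 4 → ZMod 3 => v 0 = 0 ∧ v 1 = 0)) Finset.univ
    (fun a ha => by
      rw [Finset.mem_filter] at ha
      rw [d1, pev_I, ha.2.1, ha.2.2]
      have : (![0, 0, 0, 0] : Fin 4 → ZMod 3) = 0 := by
        ext i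
        fin_cases i <;> rfl
      rw [this, smul_zero])
    (fun a _ b _ hab => pev_inj_of (pev_T4_inj _ n1) a b hab)
    (fun a _ => by rw [d2, pev_I2])
    (fun a _ b _ hab => by
      rw [pev_map io2_T, pev_map io2_T] at hab
      exact io2_inj _ _ (pev_inj_of hinj _ _ hab))
  refine le_trans ?_ h
  have c1 : (Finset.univ.filter (fun v : Fin 4 → ZMod 3 => v 0 = 0 ∧ v 1 = 0)).card = 9 := by
    decide +kernel
  have c2 : (Finset.univ : Finset (Fin 2 → ZMod 3)).card = 9 := by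
    decide +kernel
  rw [c1, c2]
  norm_num

/-- the cases II and III for `T4` -/
theorem case_T4 (ε : ℤ) (hε : ε = 1 ∨ ε = -1) (j1 k1 j2 k2 : Fin m)
    (n1 : ¬ (3 : ℤ) ∣ ((PX (MP (Pool.Agent.H86.RB.rows S 1 [0]) F m)
      (MQ (Pool.Agent.H86.RB.rows S 1 [0]) F m)).adjugate j1 k1).eval (-1))
    (n2 : ¬ (3 : ℤ) ∣ ((PX (MP (Pool.Agent.H86.RB.rows S 1 [0]) (fun i => !(F i)) m)
      (MQ (Pool.Agent.H86.RB.rows S 1 [0]) (fun i => !(F i)) m)).adjugate j2 k2).eval (-1))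
    (d1 : (PX (MP (Pool.Agent.H86.RB.rows S 1 [0]) F m)
      (MQ (Pool.Agent.H86.RB.rows S 1 [0]) F m)).det = C ε * (C 2 * X - 1) ∨
      (PX (MP (Pool.Agent.H86.RB.rows S 1 [0]) F m)
      (MQ (Pool.Agent.H86.RB.rows S 1 [0]) F m)).det = C ε * (C 2 * X - X ^ 2))
    (d2 : (3 : ℤ) ∣ (PX (MP (Pool.Agent.H86.RB.rows S 1 [0]) (fun i => !(F i)) m)
      (MQ (Pool.Agent.H86.RB.rows S 1 [0]) (fun i => !(F i)) m)).det.eval (-1)) :
    3 ^ 2 ≤ cola T4.toAddEquiv (Pool.Agent.H86.RB.bdw S) := by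
  have hεε : ε * ε = 1 := by rcases hε with rfl | rfl <;> norm_num
  have z4 : (![0, 0, 0, 0] : Fin 4 → ZMod 3) = 0 := by
    ext i
    fin_cases i <;> rfl
  have h := gen_lower T4.toAddEquiv T1 io1 io1_T x S hS hx hm F hF
    (fun y => by
      rcases d1 with d1 | d1
      · refine ⟨(-ε) • ![0, 0, y 0, 0], ?_⟩
        rw [d1, map_zsmul, pev_II, smul_smul, neg_mul, hεε, io1_apply]
        ext i
        fin_cases i <;> simp
      · refine ⟨ε • ![0, 0, y 0, 0], ?_⟩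
        rw [d1, map_zsmul, pev_III, smul_smul, hεε, io1_apply]
        ext i
        fin_cases i <;> simp) j1 k1 j2 k2
    (Finset.univ.filter (fun v : Fin 4 → ZMod 3 => v 0 = 0 ∧ v 1 = 0 ∧ v 2 = 0)) Finset.univ
    (fun a ha => by
      rw [Finset.mem_filter] at ha
      obtain ⟨_, a0, a1, a2⟩ := ha
      rcases d1 with d1 | d1
      · rw [d1, pev_II, a0, a1, a2, neg_zero, z4, smul_zero]
      · rw [d1, pev_III, a0, a1, a2, sub_zero, z4, smul_zero])
    (fun a _ b _ hab => pev_inj_of (pev_T4_inj _ n1) a b hab)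
    (fun a _ => by
      rw [pev_scalar t1]
      obtain ⟨c, hc⟩ := d2
      rw [hc, mul_smul]
      ext i
      rw [Pi.smul_apply, Pi.zero_apply, zsmul_eq_mul]
      have : ((3 : ℤ) : ZMod 3) = 0 := by decide
      rw [this, zero_mul])
    (fun a _ b _ hab => by
      rw [pev_map io1_T, pev_map io1_T] at hab
      exact io1_inj _ _ (pev_inj_of (pev_T4_inj _ n2) _ _ hab))
  refine le_trans ?_ h
  have c1 : (Finset.univ.filter (fun v : Fin 4 → ZMod 3 => v 0 = 0 ∧ v 1 = 0 ∧ v 2 = 0)).card = 3 := by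
    decide +kernel
  have c2 : (Finset.univ : Finset (Fin 1 → ZMod 3)).card = 3 := by
    decide +kernel
  rw [c1, c2]
  norm_num

end

end Pool.Agent.H86.RU
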